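import Mathlib

/-!
Lipschitz maps with an almost everywhere bound on the derivative.
-/

set_option autoImplicit false

open MeasureTheory Set Filter Topology Metric
open scoped NNReal ENNReal

namespace Pool.Agent.Lib.MP_f171f2_an

variable {E : Type*} [NormedAddCommGroup E] [NormedSpace ℝ E] [FiniteDimensional ℝ E]
  [MeasurableSpace E] [BorelSpace E] (μ : Measure E) [μ.IsAddHaarMeasure]

/-- A Lipschitz map whose derivative has norm at most `C` almost everywhere is `C`-Lipschitz. -/
theorem lip_of_ae (u : E → E) (M : ℝ≥0) (hu : LipschitzWith M u) (C : ℝ)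
    (hC : ∀ᵐ p ∂μ, ∃ A : E →L[ℝ] E, HasFDerivAt u A p ∧ ‖A‖ ≤ C) (x y : E) :
    ‖u y - u x‖ ≤ C * ‖y - x‖ := by
  set v := y - x with hv
  have key : ∀ r > 0, ‖u y - u x‖ ≤ C * ‖v‖ + 2 * (M * r) := by
    intro r hr
    set ν := μ.restrict (ball (0 : E) r) with hν
    have hfin : IsFiniteMeasure ν := ⟨by
      rw [hν, Measure.restrict_apply_univ]
      exact measure_ball_lt_top⟩
    set V := ν.real univ with hV
    have hVpos : 0 < V := by
      rw [hV, Measure.real, hν, Measure.restrict_apply_univ]
      apply ENNReal.toReal_pos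
      · exact (measure_ball_pos μ _ hr).ne'
      · exact measure_ball_lt_top.ne
    set F : ℝ → E → E := fun t z => u (x + t • v + z) with hF
    have hcont : ∀ t, Continuous (F t) := fun t => hu.continuous.comp (by fun_prop)
    have hint : ∀ t, Integrable (F t) ν := by
      intro t
      have h1 : IntegrableOn (F t) (closedBall 0 r) μ :=
        (hcont t).continuousOn.integrableOn_compact (isCompact_closedBall _ _)
      exact h1.mono_set ball_subset_closedBall
    have hae : ∀ t : ℝ, ∀ᵐ z ∂ν, ∃ A : E →L[ℝ] E, HasFDerivAt u A (x + t • v + z) ∧ ‖A‖ ≤ C := by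
      intro t
      apply ae_restrict_of_ae
      exact (measurePreserving_add_left μ (x + t • v)).quasiMeasurePreserving.ae hC
    have hder : ∀ t : ℝ, HasDerivAt (fun t => ∫ z, F t z ∂ν)
        (∫ z, fderiv ℝ u (x + t • v + z) v ∂ν) t := by
      intro t
      refine (hasDerivAt_integral_of_dominated_loc_of_lip (F := F) (s := univ)
        (bound := fun _ => M * ‖v‖) univ_mem ?_ (hint t) ?_ ?_ ?_ ?_).2
      · exact Eventually.of_forall fun t => (hcont t).aestronglyMeasurable
      · apply Measurable.aestronglyMeasurable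
        exact (measurable_fderiv_apply_const ℝ u v).comp (measurable_const_add _)
      · apply Eventually.of_forall
        intro z
        apply LipschitzWith.lipschitzOnWith
        apply LipschitzWith.of_dist_le_mul
        intro s s'
        refine (hu.dist_le_mul _ _).trans ?_
        rw [dist_add_right, dist_add_left, dist_eq_norm, ← sub_smul, norm_smul, dist_eq_norm]
        have h1 : ((Real.nnabs ((M : ℝ) * ‖v‖) : ℝ≥0) : ℝ) = M * ‖v‖ := by
          rw [Real.coe_nnabs, abs_of_nonneg (by positivity)]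
        rw [h1]
        apply le_of_eq
        ring
      · exact integrable_const _
      · filter_upwards [hae t] with z hz
        obtain ⟨A, hA, -⟩ := hz
        rw [hA.fderiv]
        have h1 : HasDerivAt (fun s : ℝ => x + s • v + z) v t := by
          have := (((hasDerivAt_id t).smul_const v).const_add x).add_const z
          simpa using this
        exact hA.comp_hasDerivAt t h1
    have hbd : ∀ t : ℝ, ‖∫ z, fderiv ℝ u (x + t • v + z) v ∂ν‖ ≤ C * ‖v‖ * V := by
      intro t
      apply norm_integral_le_of_norm_le_const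
      filter_upwards [hae t] with z hz
      obtain ⟨A, hA, hAC⟩ := hz
      rw [hA.fderiv]
      exact (A.le_opNorm v).trans (mul_le_mul_of_nonneg_right hAC (norm_nonneg _))
    have h01 : ‖(∫ z, F 1 z ∂ν) - ∫ z, F 0 z ∂ν‖ ≤ C * ‖v‖ * V :=
      norm_image_sub_le_of_norm_deriv_le_segment_01' (f := fun t => ∫ z, F t z ∂ν)
        (f' := fun t => ∫ z, fderiv ℝ u (x + t • v + z) v ∂ν)
        (fun t _ => (hder t).hasDerivWithinAt) (fun t _ => hbd t)
    have happ : ∀ t : ℝ, ‖(∫ z, F t z ∂ν) - V • u (x + t • v)‖ ≤ M * r * V := by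
      intro t
      have h1 : V • u (x + t • v) = ∫ _, u (x + t • v) ∂ν := by
        rw [integral_const]
      rw [h1, ← integral_sub (hint t) (integrable_const _)]
      apply norm_integral_le_of_norm_le_const
      rw [hν]
      filter_upwards [ae_restrict_mem measurableSet_ball] with z hz
      have h2 := hu.dist_le_mul (x + t • v + z) (x + t • v)
      rw [dist_eq_norm, dist_eq_norm, add_sub_cancel_left] at h2
      refine h2.trans ?_
      apply mul_le_mul_of_nonneg_left _ M.2
      rw [mem_ball_zero_iff] at hz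
      exact hz.le
    have h1 := happ 1
    have h0 := happ 0
    have hx1 : x + (1 : ℝ) • v = y := by
      rw [one_smul, hv]
      abel
    have hx0 : x + (0 : ℝ) • v = x := by
      rw [zero_smul, add_zero]
    rw [hx1] at h1
    rw [hx0] at h0
    have h2 : V • (u y - u x) = -((∫ z, F 1 z ∂ν) - V • u y) +
        ((∫ z, F 1 z ∂ν) - ∫ z, F 0 z ∂ν) + ((∫ z, F 0 z ∂ν) - V • u x) := by
      rw [smul_sub]
      abel
    have h3 : V * ‖u y - u x‖ ≤ V * (C * ‖v‖ + 2 * (M * r)) := by
      calc V * ‖u y - u x‖ = ‖V • (u y - u x)‖ := by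
            rw [norm_smul, Real.norm_of_nonneg hVpos.le]
        _ ≤ ‖-((∫ z, F 1 z ∂ν) - V • u y)‖ + ‖(∫ z, F 1 z ∂ν) - ∫ z, F 0 z ∂ν‖ +
            ‖(∫ z, F 0 z ∂ν) - V • u x‖ := by
            rw [h2]
            exact norm_add₃_le
        _ ≤ M * r * V + C * ‖v‖ * V + M * r * V := by
            rw [norm_neg]
            linarith
        _ = _ := by ring
    exact le_of_mul_le_mul_left h3 hVpos
  -- let `r` tend to zero
  have hlim : Tendsto (fun r : ℝ => C * ‖v‖ + 2 * (M * r)) (𝓝[>] 0)
      (𝓝 (C * ‖v‖ + 2 * (M * 0))) := by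
    apply Tendsto.mono_left _ nhdsWithin_le_nhds
    exact Continuous.tendsto (by fun_prop) 0
  have := ge_of_tendsto hlim (by
    filter_upwards [self_mem_nhdsWithin] with r hr
    exact key r hr)
  simpa using this

/-- Lipschitz maps between spaces of the same dimension preserve null sets. -/
theorem null_image (G : E → E) (M : ℝ≥0) (hG : LipschitzWith M G) (s : Set E) (hs : μ s = 0) :
    μ (G '' s) = 0 := by
  have h1 : Measure.hausdorffMeasure (Module.finrank ℝ E : ℝ) s = 0 :=
    Measure.absolutelyContinuous_isAddHaarMeasure _ μ hs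
  have h2 : Measure.hausdorffMeasure (Module.finrank ℝ E : ℝ) (G '' s) = 0 := by
    have h3 := hG.hausdorffMeasure_image_le (d := (Module.finrank ℝ E : ℝ)) (by positivity) s
    rw [h1, mul_zero] at h3
    exact le_antisymm h3 zero_le
  exact Measure.absolutelyContinuous_isAddHaarMeasure μ _ h2

/-- A bi-Lipschitz homeomorphism whose derivative expands by at least `c` almost everywhere
expands distances by at least `c`. -/
theorem lower_of_ae (G : E ≃ₜ E) (M M' : ℝ≥0) (hG : LipschitzWith M G)
    (hG' : LipschitzWith M' G.symm) (c : ℝ) (hc : 0 < c)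
    (h : ∀ᵐ x ∂μ, ∃ A : E →L[ℝ] E, HasFDerivAt G A x ∧ ∀ v, c * ‖v‖ ≤ ‖A v‖) (x y : E) :
    c * ‖x - y‖ ≤ ‖G x - G y‖ := by
  have hnull : μ (G '' {x | ¬ ∃ A : E →L[ℝ] E, HasFDerivAt G A x ∧ ∀ v, c * ‖v‖ ≤ ‖A v‖}) = 0 :=
    null_image μ G M hG _ h
  have hinv : ∀ᵐ p ∂μ, ∃ A : E →L[ℝ] E, HasFDerivAt G.symm A p ∧ ‖A‖ ≤ c⁻¹ := by
    have hcompl : ∀ᵐ p ∂μ, p ∉ G '' {x | ¬ ∃ A : E →L[ℝ] E, HasFDerivAt G A x ∧
        ∀ v, c * ‖v‖ ≤ ‖A v‖} := measure_eq_zero_iff_ae_notMem.1 hnull
    filter_upwards [hcompl] with p hp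
    have hx : ∃ A : E →L[ℝ] E, HasFDerivAt G A (G.symm p) ∧ ∀ v, c * ‖v‖ ≤ ‖A v‖ := by
      by_contra hno
      exact hp ⟨G.symm p, hno, G.apply_symm_apply p⟩
    obtain ⟨A, hA, hAv⟩ := hx
    have hinj : Function.Injective (A : E →ₗ[ℝ] E) := by
      rw [← LinearMap.ker_eq_bot, LinearMap.ker_eq_bot']
      intro w hw
      have h1 := hAv w
      have h2 : A w = 0 := hw
      rw [h2, norm_zero] at h1
      have h3 : ‖w‖ ≤ 0 := by
        by_contra h4
        push Not at h4
        have := mul_pos hc h4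
        linarith
      exact norm_le_zero_iff.1 h3
    set e : E ≃L[ℝ] E :=
      (LinearEquiv.ofInjectiveEndo (A : E →ₗ[ℝ] E) hinj).toContinuousLinearEquiv with he
    have heA : (e : E →L[ℝ] E) = A := by
      ext w
      rfl
    refine ⟨(e.symm : E →L[ℝ] E), ?_, ?_⟩
    · apply HasFDerivAt.of_local_left_inverse (f := G) (g := G.symm) (f' := e)
      · exact G.symm.continuous.continuousAt
      · rw [heA]
        exact hA
      · exact Eventually.of_forall fun q => G.apply_symm_apply q
    · apply ContinuousLinearMap.opNorm_le_bound _ (by positivity)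
      intro w
      have h1 := hAv (e.symm w)
      have h2 : A (e.symm w) = w := by
        rw [← heA]
        exact e.apply_symm_apply w
      rw [h2] at h1
      rw [le_inv_mul_iff₀ hc]
      exact h1
  have h1 := lip_of_ae μ G.symm M' hG' c⁻¹ hinv (G y) (G x)
  rw [G.symm_apply_apply, G.symm_apply_apply, le_inv_mul_iff₀ hc] at h1
  exact h1

end Pool.Agent.Lib.MP_f171f2_an
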