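import Mathlib

/-!
Factorisation of bi-Lipschitz maps along the segment from the identity.
-/

set_option autoImplicit false

open Set Filter Topology NNReal

namespace Pool.Agent.Lib.MP_f171f2_an

variable {E : Type*} [NormedAddCommGroup E] [NormedSpace ℝ E] [CompleteSpace E]

/-- `id + φ` with `φ` contracting is a homeomorphism. -/
theorem near_homeo (φ : E → E) (η : ℝ≥0) (hη : η < 1) (hφ : LipschitzWith η φ) :
    ∃ g : E ≃ₜ E, ∀ x, g x = x + φ x := by
  have happ : ApproximatesLinearOn (fun x => x + φ x)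
      ((ContinuousLinearEquiv.refl ℝ E : E ≃L[ℝ] E) : E →L[ℝ] E) univ η := by
    intro x _ y _
    have h1 : (x + φ x) - (y + φ y) -
        ((ContinuousLinearEquiv.refl ℝ E : E ≃L[ℝ] E) : E →L[ℝ] E) (x - y) = φ x - φ y := by
      simp only [ContinuousLinearEquiv.coe_coe, ContinuousLinearEquiv.refl_apply]
      abel
    rw [h1]
    have := hφ.dist_le_mul x y
    rwa [dist_eq_norm, dist_eq_norm] at this
  have hc : Subsingleton E ∨
      η < ‖(((ContinuousLinearEquiv.refl ℝ E).symm : E ≃L[ℝ] E) : E →L[ℝ] E)‖₊⁻¹ := by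
    rcases subsingleton_or_nontrivial E with h | h
    · exact Or.inl h
    · right
      have h1 : ‖(((ContinuousLinearEquiv.refl ℝ E).symm : E ≃L[ℝ] E) : E →L[ℝ] E)‖₊ = 1 := by
        have h2 : (((ContinuousLinearEquiv.refl ℝ E).symm : E ≃L[ℝ] E) : E →L[ℝ] E) =
            ContinuousLinearMap.id ℝ E := by
          ext x
          simp
        rw [h2]
        exact NNReal.eq (by simp)
      rw [h1, inv_one]
      exact hη
  exact ⟨happ.toHomeomorph _ hc, fun x => rfl⟩

/-- The continuity method: if the maps `(1 - t) id + t f` do not contract by more than `c`, then `f` is a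
product of `m` near-isometries. -/
theorem engine (f : E → E) (L : ℝ) (hf : ∀ x y, ‖f x - f y‖ ≤ L * ‖x - y‖) (c : ℝ) (hc : 0 < c)
    (hlow : ∀ t ∈ Icc (0 : ℝ) 1, ∀ x y,
      c * ‖x - y‖ ≤ ‖((1 - t) • x + t • f x) - ((1 - t) • y + t • f y)‖)
    (m : ℕ) (hm : 0 < m) (η : ℝ) (hη0 : 0 ≤ η) (hη : η < 1) (hmη : (L + 1) / (c * m) ≤ η) :
    ∀ k ≤ m, ∃ l : List (E ≃ₜ E), l.length = k ∧
      (∀ g ∈ l, ∀ x y, ‖(g x - g y) - (x - y)‖ ≤ η * ‖x - y‖) ∧
      ∀ x, l.prod x = (1 - (k : ℝ) / m) • x + ((k : ℝ) / m) • f x := by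
  intro k
  have hm' : (0 : ℝ) < m := by exact_mod_cast hm
  induction k with
  | zero =>
    intro _
    refine ⟨[], rfl, by simp, ?_⟩
    intro x
    simp
  | succ k ih =>
    intro hk
    obtain ⟨l, hl, hg, hF⟩ := ih (by omega)
    set F : E ≃ₜ E := l.prod with hFdef
    have ht : (k : ℝ) / m ∈ Icc (0 : ℝ) 1 := by
      refine ⟨by positivity, ?_⟩
      rw [div_le_one hm']
      exact_mod_cast (by omega : k ≤ m)
    -- the inverse of `F` is Lipschitz
    have hinv : ∀ z z', c * ‖F.symm z - F.symm z'‖ ≤ ‖z - z'‖ := by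
      intro z z'
      have h1 := hlow _ ht (F.symm z) (F.symm z')
      rw [← hF, ← hF] at h1
      simpa using h1
    set φ : E → E := fun z => (1 / (m : ℝ)) • (f (F.symm z) - F.symm z) with hφdef
    have hφ : LipschitzWith ⟨η, hη0⟩ φ := by
      refine LipschitzWith.of_dist_le_mul fun z z' => ?_
      rw [dist_eq_norm, dist_eq_norm]
      set u := F.symm z with hu
      set u' := F.symm z' with hu'
      have h1 : φ z - φ z' = (1 / (m : ℝ)) • ((f u - f u') - (u - u')) := by
        simp only [hφdef]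
        rw [← smul_sub]
        congr 1
        abel
      rw [h1, norm_smul, Real.norm_of_nonneg (by positivity : (0 : ℝ) ≤ 1 / m)]
      have h2 : ‖(f u - f u') - (u - u')‖ ≤ (L + 1) * ‖u - u'‖ := by
        calc ‖(f u - f u') - (u - u')‖ ≤ ‖f u - f u'‖ + ‖u - u'‖ := norm_sub_le _ _
          _ ≤ L * ‖u - u'‖ + ‖u - u'‖ := by
            have := hf u u'
            linarith
          _ = (L + 1) * ‖u - u'‖ := by ring
      have h3 := hinv z z'
      change (1 / (m : ℝ)) * ‖(f u - f u') - (u - u')‖ ≤ η * ‖z - z'‖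
      rcases (norm_nonneg (u - u')).eq_or_lt with h0 | h0
      · rw [← h0, mul_zero] at h2
        have h4 : ‖(f u - f u') - (u - u')‖ = 0 := le_antisymm h2 (norm_nonneg _)
        rw [h4, mul_zero]
        positivity
      · have hL : 0 ≤ L + 1 := by
          by_contra hneg
          push Not at hneg
          have h5 : (L + 1) * ‖u - u'‖ < 0 := mul_neg_of_neg_of_pos hneg h0
          have h6 := norm_nonneg ((f u - f u') - (u - u'))
          linarith
        calc (1 / (m : ℝ)) * ‖(f u - f u') - (u - u')‖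
            ≤ (1 / (m : ℝ)) * ((L + 1) * ‖u - u'‖) := by
              apply mul_le_mul_of_nonneg_left h2
              positivity
          _ = (L + 1) / (c * m) * (c * ‖u - u'‖) := by
              field_simp
          _ ≤ η * ‖z - z'‖ := by
              apply mul_le_mul hmη h3 (by positivity) hη0
    obtain ⟨g, hgx⟩ := near_homeo φ ⟨η, hη0⟩ hη hφ
    refine ⟨g :: l, by simp [hl], ?_, ?_⟩
    · intro g' hg'
      rcases List.mem_cons.1 hg' with h | h
      · subst h
        intro x y
        rw [hgx, hgx]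
        have h1 : (x + φ x - (y + φ y)) - (x - y) = φ x - φ y := by abel
        rw [h1]
        have := hφ.dist_le_mul x y
        rwa [dist_eq_norm, dist_eq_norm] at this
      · exact hg g' h
    · intro x
      rw [List.prod_cons]
      change g (F x) = _
      rw [hgx]
      simp only [hφdef]
      rw [F.symm_apply_apply, hF x]
      push_cast
      rw [smul_sub, sub_smul, sub_smul, one_smul]
      have h1 : ((k : ℝ) + 1) / m = (k : ℝ) / m + 1 / m := by ring
      rw [h1, add_smul, add_smul]
      abel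

end Pool.Agent.Lib.MP_f171f2_an
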