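import Mathlib

/-!
Homeomorphisms of bounded linear dilatation that preserve a foliation by parallel affine subspaces
are bi-Lipschitz up to a scale.
-/

set_option autoImplicit false

open Set Filter Topology

namespace Pool.Agent.Lib.MP_f171f2_an

/-- Right slopes (along a sequence) at most `lam` give the mean value inequality. -/
theorem slope_le {g : ℝ → ℝ} (hg : Continuous g) {a b lam : ℝ} (hab : a ≤ b)
    (h : ∀ z ∈ Ico a b, ∀ ρ > 0, ∃ s ∈ Ioo (0 : ℝ) ρ, g (z + s) - g z ≤ lam * s) :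
    g b - g a ≤ lam * (b - a) := by
  have key : ∀ ⦃x⦄, x ∈ Icc a b → g x ≤ (fun t => g a + lam * (t - a)) x := by
    apply image_le_of_liminf_slope_right_le_deriv_boundary (f := g) (a := a) (b := b)
      hg.continuousOn (B := fun t => g a + lam * (t - a)) (B' := fun _ => lam) (by simp)
      (by fun_prop)
    · intro x _
      have : HasDerivAt (fun t => g a + lam * (t - a)) lam x := by
        have := (((hasDerivAt_id x).sub_const a).const_mul lam).const_add (g a)
        simpa using this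
      exact this.hasDerivWithinAt
    · intro x hx r hr
      rw [Filter.frequently_iff]
      intro U hU
      obtain ⟨u, hu, hsub⟩ := (mem_nhdsGT_iff_exists_Ioo_subset).1 hU
      obtain ⟨s, hs, hgs⟩ := h x hx (u - x) (sub_pos.2 hu)
      refine ⟨x + s, hsub ⟨by linarith [hs.1], by linarith [hs.2]⟩, ?_⟩
      rw [slope_def_field]
      have h1 : x + s - x = s := by ring
      rw [h1, div_lt_iff₀ hs.1]
      have h2 : lam * s < r * s := mul_lt_mul_of_pos_right hr hs.1
      linarith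
  have := key (right_mem_Icc.2 hab)
  simp only at this
  linarith

section fol

variable {E : Type*} [NormedAddCommGroup E] [NormedSpace ℝ E]

/-- The same for curves in a normed space. -/
theorem path_le {g : ℝ → E} (hg : Continuous g) {a b lam : ℝ} (hab : a ≤ b)
    (h : ∀ z ∈ Ico a b, ∀ ρ > 0, ∃ s ∈ Ioo (0 : ℝ) ρ, ‖g (z + s) - g z‖ ≤ lam * s) :
    ‖g b - g a‖ ≤ lam * (b - a) := by
  have h1 := slope_le (g := fun t => ‖g t - g a‖) ((hg.sub continuous_const).norm) (lam := lam)
    hab (by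
      intro z hz ρ hρ
      obtain ⟨s, hs, h2⟩ := h z hz ρ hρ
      refine ⟨s, hs, ?_⟩
      have h3 : ‖g (z + s) - g a‖ ≤ ‖g (z + s) - g z‖ + ‖g z - g a‖ :=
        norm_sub_le_norm_sub_add_norm_sub _ _ _
      linarith)
  simp only [sub_self, norm_zero, sub_zero] at h1
  exact h1

/-- A homeomorphism of bounded linear dilatation that preserves the foliation by the cosets of the
kernel of the projection `P`. -/
structure Fol (K : ℝ) (P : E →L[ℝ] E) (e u : E) (f : E ≃ₜ E) : Prop where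
  one_le : 1 ≤ K
  P_le : ∀ v, ‖P v‖ ≤ ‖v‖
  PP : ∀ v, P (P v) = P v
  Pe : P e = 0
  Pu : P u = u
  ne : ‖e‖ = 1
  nu : ‖u‖ = 1
  fol : ∀ x y, P x = P y ↔ P (f x) = P (f y)
  dil : ∀ x : E, ∃ r > 0, ∀ y z : E,
    dist y x = dist z x → dist y x < r → dist (f y) (f x) ≤ K * dist (f z) (f x)

variable {K : ℝ} {P : E →L[ℝ] E} {e u : E} {f : E ≃ₜ E}

theorem Fol.pos (T : Fol K P e u f) : 0 < K := by linarith [T.one_le]

theorem Fol.loc (T : Fol K P e u f) (x : E) : ∃ r > 0, ∀ s < r, ∀ y z : E, ‖y - x‖ = s →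
    ‖z - x‖ = s → ‖f y - f x‖ ≤ K * ‖f z - f x‖ := by
  obtain ⟨r, hr, h⟩ := T.dil x
  refine ⟨r, hr, fun s hs y z hy hz => ?_⟩
  have := h y z (by rw [dist_eq_norm, dist_eq_norm, hy, hz]) (by rw [dist_eq_norm, hy]; exact hs)
  rwa [dist_eq_norm, dist_eq_norm] at this

theorem Fol.norm_se (T : Fol K P e u f) {s : ℝ} (hs : 0 ≤ s) : ‖s • e‖ = s := by
  rw [norm_smul, T.ne, mul_one, Real.norm_of_nonneg hs]

theorem Fol.norm_su (T : Fol K P e u f) {s : ℝ} (hs : 0 ≤ s) : ‖s • u‖ = s := by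
  rw [norm_smul, T.nu, mul_one, Real.norm_of_nonneg hs]

/-- On a closed ball the distance from the image of the centre is largest on the sphere. -/
theorem Fol.openmax [ProperSpace E] (T : Fol K P e u f) (x : E) (ρ : ℝ) (hρ : 0 ≤ ρ) (y : E)
    (hy : ‖y - x‖ ≤ ρ) : ∃ z, ‖z - x‖ = ρ ∧ ‖f y - f x‖ ≤ ‖f z - f x‖ := by
  have hcont : Continuous fun z => ‖f z - f x‖ := (f.continuous.sub continuous_const).norm
  obtain ⟨y₀, hy₀, hmax⟩ := (isCompact_closedBall x ρ).exists_isMaxOn
    ⟨x, Metric.mem_closedBall_self hρ⟩ hcont.continuousOn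
  have hymax : ‖f y - f x‖ ≤ ‖f y₀ - f x‖ := hmax (by
    rw [Metric.mem_closedBall, dist_eq_norm]
    exact hy)
  rw [Metric.mem_closedBall, dist_eq_norm] at hy₀
  rcases hy₀.eq_or_lt with h | h
  · exact ⟨y₀, h, hymax⟩
  · by_cases h0 : f y₀ = f x
    · refine ⟨x + ρ • e, by rw [add_sub_cancel_left, T.norm_se hρ], ?_⟩
      rw [h0, sub_self, norm_zero] at hymax
      exact hymax.trans (norm_nonneg _)
    · exfalso
      have hopen : IsOpen (f '' Metric.ball x ρ) := f.isOpenMap _ Metric.isOpen_ball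
      have hmem : f y₀ ∈ f '' Metric.ball x ρ := ⟨y₀, by
        rw [Metric.mem_ball, dist_eq_norm]
        exact h, rfl⟩
      have hc2 : Continuous fun t : ℝ => f y₀ + t • (f y₀ - f x) := by fun_prop
      have hev : ∀ᶠ t : ℝ in 𝓝 0, f y₀ + t • (f y₀ - f x) ∈ f '' Metric.ball x ρ := by
        apply hc2.continuousAt.eventually_mem
        apply hopen.mem_nhds
        simpa using hmem
      obtain ⟨δ, hδ, hball⟩ := Metric.eventually_nhds_iff.1 hev
      obtain ⟨z, hz, hfz⟩ := hball (y := δ / 2) (by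
        rw [Real.dist_eq, sub_zero, abs_of_pos (by positivity)]
        linarith)
      have hzle : ‖f z - f x‖ ≤ ‖f y₀ - f x‖ := hmax (Metric.ball_subset_closedBall hz)
      rw [hfz] at hzle
      have h3 : f y₀ + (δ / 2) • (f y₀ - f x) - f x = (1 + δ / 2) • (f y₀ - f x) := by
        rw [add_smul, one_smul]
        abel
      rw [h3, norm_smul, Real.norm_of_nonneg (by positivity)] at hzle
      have h4 : 0 < ‖f y₀ - f x‖ := norm_pos_iff.2 (sub_ne_zero.2 h0)
      nlinarith

/-- transversal displacement against displacement -/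
theorem Fol.C1 (T : Fol K P e u f) (x : E) : ∃ r > 0, ∀ s ∈ Ioo (0 : ℝ) r,
    ‖P (f (x + s • u)) - P (f x)‖ ≤ K * ‖f (x + s • e) - f x‖ := by
  obtain ⟨r, hr, h⟩ := T.loc x
  refine ⟨r, hr, fun s hs => ?_⟩
  rw [← map_sub]
  refine (T.P_le _).trans ?_
  exact h s hs.2 _ _ (by rw [add_sub_cancel_left, T.norm_su hs.1.le])
    (by rw [add_sub_cancel_left, T.norm_se hs.1.le])

theorem Fol.C2 [ProperSpace E] (T : Fol K P e u f) (x : E) : ∃ r > 0, ∀ s ∈ Ioo (0 : ℝ) r,
    ‖f (x + s • e) - f x‖ ≤ K * ‖P (f (x + s • u)) - P (f x)‖ := by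
  obtain ⟨r, hr, h⟩ := T.loc x
  set Y : ℝ → E := fun s => f.symm (f x + (P (f (x + s • u)) - P (f x))) with hYdef
  have hY : Continuous Y := by
    apply f.symm.continuous.comp
    have h1 : Continuous fun s : ℝ => f (x + s • u) := f.continuous.comp (by fun_prop)
    exact continuous_const.add ((P.continuous.comp h1).sub continuous_const)
  have hY0 : Y 0 = x := by
    simp only [hYdef, zero_smul, add_zero, sub_self, f.symm_apply_apply]
  have hev : ∀ᶠ s in 𝓝 (0 : ℝ), ‖Y s - x‖ < r := by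
    have h1 : Tendsto (fun s => ‖Y s - x‖) (𝓝 0) (𝓝 ‖Y 0 - x‖) :=
      ((hY.sub continuous_const).norm).tendsto 0
    rw [hY0, sub_self, norm_zero] at h1
    exact h1.eventually_lt_const hr
  obtain ⟨δ, hδ, hball⟩ := Metric.eventually_nhds_iff.1 hev
  refine ⟨δ, hδ, fun s hs => ?_⟩
  have hYs : ‖Y s - x‖ < r := hball (by
    rw [Real.dist_eq, sub_zero, abs_of_pos hs.1]
    exact hs.2)
  have hfY : f (Y s) = f x + (P (f (x + s • u)) - P (f x)) := f.apply_symm_apply _
  have hPf : P (f (Y s)) = P (f (x + s • u)) := by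
    rw [hfY, map_add, map_sub, T.PP, T.PP]
    abel
  have hP : P (Y s) = P (x + s • u) := (T.fol _ _).2 hPf
  have hsρ : s ≤ ‖Y s - x‖ := by
    have h1 := T.P_le (Y s - x)
    rw [map_sub, hP, map_add, map_smul, T.Pu, add_sub_cancel_left, T.norm_su hs.1.le] at h1
    exact h1
  obtain ⟨z, hz1, hz2⟩ := T.openmax x ‖Y s - x‖ (norm_nonneg _) (x + s • e) (by
    rw [add_sub_cancel_left, T.norm_se hs.1.le]
    exact hsρ)
  have h5 := h ‖Y s - x‖ hYs z (Y s) hz1 rfl
  have h6 : f (Y s) - f x = P (f (x + s • u)) - P (f x) := by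
    rw [hfY, add_sub_cancel_left]
  rw [h6] at h5
  exact hz2.trans h5

/-- (D) on one leaf the infinitesimal displacements are comparable -/
theorem Fol.D [ProperSpace E] (T : Fol K P e u f) (x y : E) (hxy : P x = P y) :
    ∃ r > 0, ∀ s ∈ Ioo (0 : ℝ) r,
      ‖f (x + s • e) - f x‖ ≤ K ^ 2 * ‖f (y + s • e) - f y‖ := by
  obtain ⟨r, hr, h⟩ := T.C2 x
  obtain ⟨r', hr', h'⟩ := T.C1 y
  refine ⟨min r r', lt_min hr hr', fun s hs => ?_⟩
  have e1 := h s ⟨hs.1, lt_of_lt_of_le hs.2 (min_le_left _ _)⟩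
  have e2 := h' s ⟨hs.1, lt_of_lt_of_le hs.2 (min_le_right _ _)⟩
  have e3 : P (f (x + s • u)) = P (f (y + s • u)) := (T.fol _ _).1 (by
    rw [map_add, map_add, hxy])
  have e4 : P (f x) = P (f y) := (T.fol _ _).1 hxy
  rw [e3, e4] at e1
  calc ‖f (x + s • e) - f x‖ ≤ _ := e1
    _ ≤ K * (K * ‖f (y + s • e) - f y‖) := mul_le_mul_of_nonneg_left e2 T.pos.le
    _ = _ := by ring

/-- inverse integration: a local lower bound along a leaf or everywhere integrates -/
theorem Fol.inv_int (f : E ≃ₜ E) (c : ℝ) (S : Set E) (p q : E)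
    (hS : ∀ t ∈ Icc (0 : ℝ) 1, f.symm (f p + t • (f q - f p)) ∈ S)
    (h : ∀ x ∈ S, ∃ r > 0, ∀ y, 0 < ‖y - x‖ → ‖y - x‖ < r → ‖y - x‖ ≤ c * ‖f y - f x‖) :
    ‖q - p‖ ≤ c * ‖f q - f p‖ := by
  set g : ℝ → E := fun t => f.symm (f p + t • (f q - f p)) with hg
  have hgc : Continuous g := f.symm.continuous.comp (by fun_prop)
  have hfg : ∀ t, f (g t) = f p + t • (f q - f p) := fun t => f.apply_symm_apply _
  have h0 : g 0 = p := by simp [hg]
  have h1 : g 1 = q := by simp [hg]
  have key := path_le hgc (a := 0) (b := 1) (lam := c * ‖f q - f p‖) zero_le_one (by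
    intro t ht ρ hρ
    obtain ⟨r, hr, hr2⟩ := h (g t) (hS t ⟨ht.1, ht.2.le⟩)
    have hev : ∀ᶠ s in 𝓝 (0 : ℝ), ‖g (t + s) - g t‖ < r := by
      have h2 : Tendsto (fun s => ‖g (t + s) - g t‖) (𝓝 0) (𝓝 ‖g (t + 0) - g t‖) :=
        (((hgc.comp (continuous_const.add continuous_id)).sub continuous_const).norm).tendsto 0
      rw [add_zero, sub_self, norm_zero] at h2
      exact h2.eventually_lt_const hr
    obtain ⟨δ, hδ, hball⟩ := Metric.eventually_nhds_iff.1 hev
    have hm : 0 < min ρ δ := lt_min hρ hδ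
    refine ⟨min ρ δ / 2, ⟨by positivity, by have := min_le_left ρ δ; linarith⟩, ?_⟩
    have hlt : ‖g (t + min ρ δ / 2) - g t‖ < r := hball (by
      rw [Real.dist_eq, sub_zero, abs_of_pos (by positivity)]
      have := min_le_right ρ δ
      linarith)
    have hfd : f (g (t + min ρ δ / 2)) - f (g t) = (min ρ δ / 2) • (f q - f p) := by
      rw [hfg, hfg, add_smul]
      abel
    rcases (norm_nonneg (g (t + min ρ δ / 2) - g t)).eq_or_lt with h3 | h3
    · have h4 : g (t + min ρ δ / 2) = g t := by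
        rw [← sub_eq_zero, ← norm_eq_zero]
        exact h3.symm
      have h5 : (min ρ δ / 2) • (f q - f p) = 0 := by
        rw [← hfd, h4, sub_self]
      rcases smul_eq_zero.1 h5 with h6 | h6
      · linarith
      · rw [h4, sub_self, h6]
        simp
    · have h4 := hr2 _ h3 hlt
      rw [hfd, norm_smul, Real.norm_of_nonneg (by positivity)] at h4
      linarith)
  rw [h0, h1, sub_zero, mul_one] at key
  exact key

/-- Leafwise ratios are comparable. -/
theorem Fol.leaf [ProperSpace E] (T : Fol K P e u f) (x y p q : E) (hxy : P x = P y)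
    (hxp : P x = P p) (hpq : P p = P q) :
    ‖f y - f x‖ * ‖q - p‖ ≤ K ^ 4 * ‖f q - f p‖ * ‖y - x‖ := by
  have hK := T.pos
  rcases eq_or_ne y x with hyx | hyx
  · rw [hyx]
    simp
  have hd : 0 < ‖y - x‖ := norm_pos_iff.2 (sub_ne_zero.2 hyx)
  set d := ‖y - x‖ with hddef
  -- it is enough to treat `lam` below the ratio
  suffices hsuf : ∀ lam, 0 < lam → lam < ‖f y - f x‖ / d → lam * ‖q - p‖ ≤ K ^ 4 * ‖f q - f p‖ by
    have hfpos : 0 < ‖f y - f x‖ / d := by
      apply div_pos _ hd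
      exact norm_pos_iff.2 (sub_ne_zero.2 (fun h => hyx (f.injective h)))
    have h1 : ‖f y - f x‖ / d * ‖q - p‖ ≤ K ^ 4 * ‖f q - f p‖ := by
      by_contra hcon
      push Not at hcon
      have hq : 0 < ‖q - p‖ := by
        rcases (norm_nonneg (q - p)).eq_or_lt with h | h
        · rw [← h, mul_zero] at hcon
          have : 0 ≤ K ^ 4 * ‖f q - f p‖ := by positivity
          linarith
        · exact h
      have h2 : K ^ 4 * ‖f q - f p‖ / ‖q - p‖ < ‖f y - f x‖ / d := by
        rwa [div_lt_iff₀ hq]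
      obtain ⟨lam, h3, h4⟩ := exists_between h2
      have h5 : 0 < lam := lt_of_le_of_lt (by positivity) h3
      have h6 := hsuf lam h5 h4
      rw [div_lt_iff₀ hq] at h3
      linarith
    rw [div_mul_eq_mul_div, div_le_iff₀ hd] at h1
    exact h1
  intro lam hlam hlt
  -- a point with large right displacement
  set w : E := (1 / d) • (y - x) with hw
  have hwn : ‖w‖ = 1 := by
    rw [hw, norm_smul, Real.norm_of_nonneg (by positivity), ← hddef]
    field_simp
  have hPw : P w = 0 := by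
    rw [hw, map_smul, map_sub, hxy, sub_self, smul_zero]
  have hxd : x + d • w = y := by
    rw [hw, smul_smul, mul_one_div_cancel hd.ne', one_smul, add_sub_cancel]
  have hex : ∃ z ∈ Ico (0 : ℝ) d, ∃ ρ > 0, ∀ s ∈ Ioo (0 : ℝ) ρ,
      lam * s < ‖f (x + (z + s) • w) - f (x + z • w)‖ := by
    by_contra hno
    push Not at hno
    have hc : Continuous fun t : ℝ => f (x + t • w) := f.continuous.comp (by fun_prop)
    have := path_le hc (lam := lam) hd.le (by
      intro z hz ρ hρ
      obtain ⟨s, hs, h3⟩ := hno z hz ρ hρ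
      exact ⟨s, hs, h3⟩)
    rw [hxd] at this
    simp only [zero_smul, add_zero, sub_zero] at this
    rw [lt_div_iff₀ hd] at hlt
    linarith
  obtain ⟨z, hz, ρ, hρ, hzs⟩ := hex
  set z₀ := x + z • w with hz₀
  have hPz₀ : P z₀ = P x := by
    rw [hz₀, map_add, map_smul, hPw, smul_zero, add_zero]
  obtain ⟨r₁, hr₁, hloc₁⟩ := T.loc z₀
  -- integrate the inverse along the image of the leaf
  have hint : ‖q - p‖ ≤ (K ^ 4 / lam) * ‖f q - f p‖ := by
    refine Fol.inv_int f (K ^ 4 / lam) {v | P v = P x} p q ?_ ?_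
    · intro t _
      have : P (f (f.symm (f p + t • (f q - f p)))) = P (f x) := by
        rw [f.apply_symm_apply, map_add, map_smul, map_sub, (T.fol _ _).1 hpq, sub_self,
          smul_zero, add_zero, (T.fol _ _).1 hxp, (T.fol _ _).1 hpq]
      exact (T.fol _ _).2 this
    · intro v hv
      obtain ⟨r₂, hr₂, hD⟩ := T.D z₀ v (by rw [hPz₀]; exact (show P v = P x from hv).symm)
      obtain ⟨r₃, hr₃, hloc₃⟩ := T.loc v
      refine ⟨min (min ρ r₁) (min r₂ r₃), by positivity, ?_⟩
      intro y' hy'0 hy'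
      simp only [lt_min_iff] at hy'
      obtain ⟨⟨h1, h2⟩, h3, h4⟩ := hy'
      set s := ‖y' - v‖ with hs
      have e1 := hzs s ⟨hy'0, h1⟩
      have e2 := hloc₁ s h2 (x + (z + s) • w) (z₀ + s • e) (by
        rw [hz₀, add_smul, ← add_assoc, add_sub_cancel_left, norm_smul, hwn, mul_one,
          Real.norm_of_nonneg hy'0.le]) (by rw [add_sub_cancel_left, T.norm_se hy'0.le])
      have e3 := hD s ⟨hy'0, h3⟩
      have e4 := hloc₃ s h4 (v + s • e) y' (by rw [add_sub_cancel_left, T.norm_se hy'0.le]) hs.symm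
      have e5 : lam * s ≤ K ^ 4 * ‖f y' - f v‖ := by
        calc lam * s ≤ _ := e1.le
          _ ≤ K * ‖f (z₀ + s • e) - f z₀‖ := e2
          _ ≤ K * (K ^ 2 * ‖f (v + s • e) - f v‖) := mul_le_mul_of_nonneg_left e3 hK.le
          _ ≤ K * (K ^ 2 * (K * ‖f y' - f v‖)) :=
            mul_le_mul_of_nonneg_left (mul_le_mul_of_nonneg_left e4 (by positivity)) hK.le
          _ = _ := by ring
      rw [div_mul_eq_mul_div, le_div_iff₀ hlam]
      linarith
  rw [div_mul_eq_mul_div, le_div_iff₀ hlam] at hint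
  linarith

theorem Fol.up [ProperSpace E] (T : Fol K P e u f) (p q : E) (hpq : P p = P q) (s : ℝ)
    (hs : 0 ≤ s) : ‖f (p + s • e) - f p‖ ≤ K ^ 4 * ‖f (q + e) - f q‖ * s := by
  have h := T.leaf p (p + s • e) q (q + e) (by rw [map_add, map_smul, T.Pe, smul_zero, add_zero])
    hpq (by rw [map_add, T.Pe, add_zero])
  rw [add_sub_cancel_left, add_sub_cancel_left, T.ne, T.norm_se hs, mul_one] at h
  exact h

theorem Fol.dn [ProperSpace E] (T : Fol K P e u f) (p q : E) (hpq : P p = P q) (s : ℝ)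
    (hs : 0 ≤ s) : ‖f (q + e) - f q‖ * s ≤ K ^ 4 * ‖f (p + s • e) - f p‖ := by
  have h := T.leaf q (q + e) p (p + s • e) (by rw [map_add, T.Pe, add_zero])
    hpq.symm (by rw [map_add, map_smul, T.Pe, smul_zero, add_zero])
  rw [add_sub_cancel_left, add_sub_cancel_left, T.ne, T.norm_se hs, mul_one] at h
  exact h

/-- Two leaves stay at bounded distance. -/
theorem Fol.cross [ProperSpace E] (T : Fol K P e u f) (x y : E) :
    ∃ C, ∀ t : ℝ, ‖f (y + t • e) - f (x + t • e)‖ ≤ C := by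
  have hK := T.pos
  have hc : Continuous fun τ : ℝ => ‖f (x + τ • (y - x) + e) - f (x + τ • (y - x))‖ := by
    have h1 : Continuous fun τ : ℝ => f (x + τ • (y - x) + e) := f.continuous.comp (by fun_prop)
    have h2 : Continuous fun τ : ℝ => f (x + τ • (y - x)) := f.continuous.comp (by fun_prop)
    exact (h1.sub h2).norm
  obtain ⟨τ₀, _, hmax⟩ := (isCompact_Icc (a := (0 : ℝ)) (b := 1)).exists_isMaxOn
    ⟨0, by simp⟩ hc.continuousOn
  set M := ‖f (x + τ₀ • (y - x) + e) - f (x + τ₀ • (y - x))‖ with hM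
  refine ⟨K ^ 5 * M * ‖y - x‖, fun t => ?_⟩
  rcases eq_or_ne y x with hyx | hyx
  · rw [hyx]
    simp
  have hd : 0 < ‖y - x‖ := norm_pos_iff.2 (sub_ne_zero.2 hyx)
  have hcont : Continuous fun τ : ℝ => f (x + τ • (y - x) + t • e) :=
    f.continuous.comp (by fun_prop)
  have := path_le hcont (a := 0) (b := 1) (lam := K ^ 5 * M * ‖y - x‖) zero_le_one (by
    intro z hz ρ hρ
    obtain ⟨r, hr, h1⟩ := T.loc (x + z • (y - x) + t • e)
    have hm : 0 < min ρ (r / ‖y - x‖) := lt_min hρ (by positivity)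
    set s := min ρ (r / ‖y - x‖) / 2 with hs
    have hs0 : 0 < s := by positivity
    have hs1 : s < ρ := by
      have := min_le_left ρ (r / ‖y - x‖)
      rw [hs]
      linarith
    have hs2 : s * ‖y - x‖ < r := by
      have h2 := min_le_right ρ (r / ‖y - x‖)
      have h3 : s < r / ‖y - x‖ := by
        rw [hs]
        linarith
      rwa [lt_div_iff₀ hd] at h3
    refine ⟨s, ⟨hs0, hs1⟩, ?_⟩
    have hsn : 0 ≤ s * ‖y - x‖ := by positivity
    have e1 := h1 (s * ‖y - x‖) hs2 (x + (z + s) • (y - x) + t • e)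
      (x + z • (y - x) + t • e + (s * ‖y - x‖) • e) (by
        have : x + (z + s) • (y - x) + t • e - (x + z • (y - x) + t • e) = s • (y - x) := by
          rw [add_smul]
          abel
        rw [this, norm_smul, Real.norm_of_nonneg hs0.le])
      (by rw [add_sub_cancel_left, T.norm_se hsn])
    have e2 := T.up (x + z • (y - x) + t • e) (x + z • (y - x))
      (by rw [map_add, map_smul, T.Pe, smul_zero, add_zero]) (s * ‖y - x‖) hsn
    have e3 : ‖f (x + z • (y - x) + e) - f (x + z • (y - x))‖ ≤ M := hmax ⟨hz.1, hz.2.le⟩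
    calc ‖f (x + (z + s) • (y - x) + t • e) - f (x + z • (y - x) + t • e)‖ ≤ _ := e1
      _ ≤ K * (K ^ 4 * ‖f (x + z • (y - x) + e) - f (x + z • (y - x))‖ * (s * ‖y - x‖)) :=
        mul_le_mul_of_nonneg_left e2 hK.le
      _ ≤ K * (K ^ 4 * M * (s * ‖y - x‖)) := by
        apply mul_le_mul_of_nonneg_left _ hK.le
        apply mul_le_mul_of_nonneg_right _ hsn
        exact mul_le_mul_of_nonneg_left e3 (by positivity)
      _ = _ := by ring)
  simp only [zero_smul, add_zero, one_smul, add_sub_cancel, sub_zero, mul_one] at this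
  exact this

/-- All leaves have comparable scales. -/
theorem Fol.glob [ProperSpace E] (T : Fol K P e u f) (x y : E) :
    ‖f (x + e) - f x‖ ≤ K ^ 8 * ‖f (y + e) - f y‖ := by
  have hK := T.pos
  obtain ⟨C, hC⟩ := T.cross x y
  have key : ∀ t > 0, (‖f (x + e) - f x‖ - K ^ 8 * ‖f (y + e) - f y‖) * t ≤ K ^ 4 * (2 * C) := by
    intro t ht
    have e1 := T.dn x x rfl t ht.le
    have e2 := T.up y y rfl t ht.le
    have e3 : ‖f (x + t • e) - f x‖ ≤ ‖f (y + t • e) - f y‖ + 2 * C := by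
      have a1 := hC t
      have a2 := hC 0
      simp only [zero_smul, add_zero] at a2
      have a3 : f (x + t • e) - f x = -(f (y + t • e) - f (x + t • e)) +
          (f (y + t • e) - f y) + (f y - f x) := by abel
      rw [a3]
      refine (norm_add₃_le).trans ?_
      rw [norm_neg]
      linarith
    have e4 : K ^ 4 * ‖f (x + t • e) - f x‖ ≤
        K ^ 4 * (K ^ 4 * ‖f (y + e) - f y‖ * t + 2 * C) :=
      mul_le_mul_of_nonneg_left (by linarith) (by positivity)
    have e5 : K ^ 4 * (K ^ 4 * ‖f (y + e) - f y‖ * t + 2 * C) =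
        K ^ 8 * ‖f (y + e) - f y‖ * t + K ^ 4 * (2 * C) := by ring
    linarith
  by_contra hcon
  push Not at hcon
  have hpos : 0 < ‖f (x + e) - f x‖ - K ^ 8 * ‖f (y + e) - f y‖ := sub_pos.2 hcon
  have hC0 : 0 ≤ C := (norm_nonneg _).trans (hC 0)
  have := key ((K ^ 4 * (2 * C) + 1) / (‖f (x + e) - f x‖ - K ^ 8 * ‖f (y + e) - f y‖))
    (by positivity)
  rw [mul_div_cancel₀ _ hpos.ne'] at this
  linarith

/-- **Rigidity**: the map is bi-Lipschitz up to the scale `B`. -/
theorem Fol.rigid [ProperSpace E] (T : Fol K P e u f) :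
    ∃ B > 0, ∀ x y, ‖f y - f x‖ ≤ K ^ 13 * B * ‖y - x‖ ∧ B * ‖y - x‖ ≤ K ^ 13 * ‖f y - f x‖ := by
  have hK := T.pos
  have hB : 0 < ‖f (0 + e) - f 0‖ := by
    apply norm_pos_iff.2
    apply sub_ne_zero.2
    intro h
    have := f.injective h
    rw [zero_add] at this
    have h2 := T.ne
    rw [this, norm_zero] at h2
    exact zero_ne_one h2
  set B := ‖f (0 + e) - f 0‖ with hBdef
  refine ⟨B, hB, fun x y => ⟨?_, ?_⟩⟩
  · rcases eq_or_ne y x with hyx | hyx
    · rw [hyx]
      simp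
    have hd : 0 < ‖y - x‖ := norm_pos_iff.2 (sub_ne_zero.2 hyx)
    have hcont : Continuous fun τ : ℝ => f (x + τ • (y - x)) := f.continuous.comp (by fun_prop)
    have := path_le hcont (a := 0) (b := 1) (lam := K ^ 13 * B * ‖y - x‖) zero_le_one (by
      intro z hz ρ hρ
      obtain ⟨r, hr, h1⟩ := T.loc (x + z • (y - x))
      have hm : 0 < min ρ (r / ‖y - x‖) := lt_min hρ (by positivity)
      set s := min ρ (r / ‖y - x‖) / 2 with hs
      have hs0 : 0 < s := by positivity
      have hs1 : s < ρ := by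
        have := min_le_left ρ (r / ‖y - x‖)
        rw [hs]
        linarith
      have hs2 : s * ‖y - x‖ < r := by
        have h2 := min_le_right ρ (r / ‖y - x‖)
        have h3 : s < r / ‖y - x‖ := by
          rw [hs]
          linarith
        rwa [lt_div_iff₀ hd] at h3
      refine ⟨s, ⟨hs0, hs1⟩, ?_⟩
      have hsn : 0 ≤ s * ‖y - x‖ := by positivity
      have e1 := h1 (s * ‖y - x‖) hs2 (x + (z + s) • (y - x))
        (x + z • (y - x) + (s * ‖y - x‖) • e) (by
          have : x + (z + s) • (y - x) - (x + z • (y - x)) = s • (y - x) := by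
            rw [add_smul]
            abel
          rw [this, norm_smul, Real.norm_of_nonneg hs0.le])
        (by rw [add_sub_cancel_left, T.norm_se hsn])
      have e2 := T.up (x + z • (y - x)) (x + z • (y - x)) rfl (s * ‖y - x‖) hsn
      have e3 := T.glob (x + z • (y - x)) 0
      calc ‖f (x + (z + s) • (y - x)) - f (x + z • (y - x))‖ ≤ _ := e1
        _ ≤ K * (K ^ 4 * ‖f (x + z • (y - x) + e) - f (x + z • (y - x))‖ * (s * ‖y - x‖)) :=
          mul_le_mul_of_nonneg_left e2 hK.le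
        _ ≤ K * (K ^ 4 * (K ^ 8 * B) * (s * ‖y - x‖)) := by
          apply mul_le_mul_of_nonneg_left _ hK.le
          apply mul_le_mul_of_nonneg_right _ hsn
          exact mul_le_mul_of_nonneg_left e3 (by positivity)
        _ = _ := by ring)
    simp only [zero_smul, add_zero, one_smul, add_sub_cancel, sub_zero, mul_one] at this
    exact this
  · have := Fol.inv_int f (K ^ 13 / B) univ x y (fun _ _ => mem_univ _) (by
      intro p _
      obtain ⟨r, hr, h1⟩ := T.loc p
      refine ⟨r, hr, fun q hq0 hq => ?_⟩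
      have e1 := h1 ‖q - p‖ hq (p + ‖q - p‖ • e) q
        (by rw [add_sub_cancel_left, T.norm_se hq0.le]) rfl
      have e2 := T.dn p p rfl ‖q - p‖ hq0.le
      have e3 := T.glob 0 p
      rw [div_mul_eq_mul_div, le_div_iff₀ hB]
      calc ‖q - p‖ * B ≤ ‖q - p‖ * (K ^ 8 * ‖f (p + e) - f p‖) :=
            mul_le_mul_of_nonneg_left e3 hq0.le
        _ = K ^ 8 * (‖f (p + e) - f p‖ * ‖q - p‖) := by ring
        _ ≤ K ^ 8 * (K ^ 4 * ‖f (p + ‖q - p‖ • e) - f p‖) :=
            mul_le_mul_of_nonneg_left e2 (by positivity)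
        _ ≤ K ^ 8 * (K ^ 4 * (K * ‖f q - f p‖)) :=
            mul_le_mul_of_nonneg_left (mul_le_mul_of_nonneg_left e1 (by positivity))
              (by positivity)
        _ = _ := by ring)
    rw [div_mul_eq_mul_div, le_div_iff₀ hB] at this
    linarith

end fol

end Pool.Agent.Lib.MP_f171f2_an
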