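import Mathlib
import Pool.Agent.Lib.MP_f171f2_an.Engine
import Pool.Agent.Lib.MP_f171f2_an.Fol

/-!
Factorisation of block triangular homeomorphisms of `ℝⁿ`.
-/

set_option autoImplicit false

open Set Filter Topology

namespace Pool.Agent.Lib.MP_f171f2_an

/-- Lower bound for a convex combination of two vectors that do not point in opposite
directions. -/
theorem angle_low {H : Type*} [NormedAddCommGroup H] [InnerProductSpace ℝ H] (U V : H)
    (δ Lam t : ℝ) (hδ : 0 < δ) (hδ1 : δ ≤ 1) (hLam : 1 ≤ Lam) (ht : t ∈ Icc (0 : ℝ) 1)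
    (hV : ‖U‖ ≤ Lam * ‖V‖) (hang : -(1 - δ) * (‖V‖ * ‖U‖) ≤ inner ℝ V U) :
    √(δ / 2) / Lam * ‖U‖ ≤ ‖(1 - t) • U + t • V‖ := by
  have hL : 0 < Lam := by linarith
  apply abs_le_of_sq_le_sq' _ (norm_nonneg _) |>.2
  have h1 : ‖(1 - t) • U + t • V‖ ^ 2 =
      (1 - t) ^ 2 * ‖U‖ ^ 2 + 2 * (t * (1 - t)) * inner ℝ V U + t ^ 2 * ‖V‖ ^ 2 := by
    rw [norm_add_sq_real, norm_smul, norm_smul, inner_smul_left, inner_smul_right,
      real_inner_comm, Real.norm_of_nonneg ht.1, Real.norm_of_nonneg (by linarith [ht.2])]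
    simp only [conj_trivial]
    ring
  have h2 : (√(δ / 2) / Lam * ‖U‖) ^ 2 = δ / 2 / Lam ^ 2 * ‖U‖ ^ 2 := by
    rw [mul_pow, div_pow, Real.sq_sqrt (by positivity)]
  rw [h1, h2]
  set p := ‖U‖ with hp
  set q := ‖V‖ with hq
  have hp0 : 0 ≤ p := norm_nonneg _
  have hq0 : 0 ≤ q := norm_nonneg _
  have ht0 := ht.1
  have ht1 : 0 ≤ 1 - t := by linarith [ht.2]
  have h3 : 2 * (t * (1 - t)) * (-(1 - δ) * (q * p)) ≤ 2 * (t * (1 - t)) * inner ℝ V U :=
    mul_le_mul_of_nonneg_left hang (by positivity)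
  have h4 : 0 ≤ (1 - δ) * ((1 - t) * p - t * q) ^ 2 := by
    have : 0 ≤ 1 - δ := by linarith
    positivity
  have h5 : p ^ 2 / Lam ^ 2 ≤ q ^ 2 := by
    rw [div_le_iff₀ (by positivity)]
    calc p ^ 2 ≤ (Lam * q) ^ 2 := pow_le_pow_left₀ hp0 hV 2
      _ = q ^ 2 * Lam ^ 2 := by ring
  have h6 : p ^ 2 / Lam ^ 2 ≤ p ^ 2 := by
    apply div_le_self (by positivity)
    exact one_le_pow₀ hLam
  have h7 : (1 - t) ^ 2 * (p ^ 2 / Lam ^ 2) ≤ (1 - t) ^ 2 * p ^ 2 :=
    mul_le_mul_of_nonneg_left h6 (by positivity)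
  have h8 : t ^ 2 * (p ^ 2 / Lam ^ 2) ≤ t ^ 2 * q ^ 2 :=
    mul_le_mul_of_nonneg_left h5 (by positivity)
  have h9 : 1 / 2 * (p ^ 2 / Lam ^ 2) ≤ ((1 - t) ^ 2 + t ^ 2) * (p ^ 2 / Lam ^ 2) := by
    apply mul_le_mul_of_nonneg_right _ (by positivity)
    nlinarith [sq_nonneg (1 - 2 * t)]
  have h10 : δ * (1 / 2 * (p ^ 2 / Lam ^ 2)) ≤ δ * ((1 - t) ^ 2 * p ^ 2 + t ^ 2 * q ^ 2) := by
    apply mul_le_mul_of_nonneg_left _ hδ.le
    calc 1 / 2 * (p ^ 2 / Lam ^ 2) ≤ _ := h9
      _ = (1 - t) ^ 2 * (p ^ 2 / Lam ^ 2) + t ^ 2 * (p ^ 2 / Lam ^ 2) := by ring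
      _ ≤ _ := by linarith
  have h11 : δ / 2 / Lam ^ 2 * p ^ 2 = δ * (1 / 2 * (p ^ 2 / Lam ^ 2)) := by ring
  rw [h11]
  refine h10.trans ?_
  have h12 : (1 - δ) * ((1 - t) * p - t * q) ^ 2 =
      (1 - t) ^ 2 * p ^ 2 + 2 * (t * (1 - t)) * (-(1 - δ) * (q * p)) + t ^ 2 * q ^ 2 -
        δ * ((1 - t) ^ 2 * p ^ 2 + t ^ 2 * q ^ 2) := by ring
  rw [h12] at h4
  linarith

/-- From a near-translation estimate to a bi-Lipschitz estimate. -/
theorem bilip_of_near {E : Type*} [NormedAddCommGroup E] (g : E → E) (ε η : ℝ) (hε : 0 < ε)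
    (hη : η = ε / (1 + ε)) (h : ∀ x y, ‖(g x - g y) - (x - y)‖ ≤ η * ‖x - y‖) (x y : E) :
    dist (g x) (g y) ≤ (1 + ε) * dist x y ∧ dist x y ≤ (1 + ε) * dist (g x) (g y) := by
  rw [dist_eq_norm, dist_eq_norm]
  have h1 := h x y
  have h0 := norm_nonneg (x - y)
  have hηε : η ≤ ε := by
    rw [hη, div_le_iff₀ (by linarith)]
    nlinarith
  constructor
  · have h2 : ‖g x - g y‖ ≤ ‖(g x - g y) - (x - y)‖ + ‖x - y‖ := by
      have := norm_add_le ((g x - g y) - (x - y)) (x - y)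
      rwa [sub_add_cancel] at this
    nlinarith
  · have h2 : ‖x - y‖ ≤ ‖(g x - g y) - (x - y)‖ + ‖g x - g y‖ := by
      have := norm_sub_le (g x - g y) ((g x - g y) - (x - y))
      rw [sub_sub_cancel] at this
      linarith
    have h3 : (1 - η) * ‖x - y‖ ≤ ‖g x - g y‖ := by linarith
    have h4 : (1 + ε) * (1 - η) = 1 := by
      rw [hη]
      field_simp
      ring
    have h5 := mul_le_mul_of_nonneg_left h3 (by linarith : 0 ≤ 1 + ε)
    rw [← mul_assoc, h4, one_mul] at h5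
    exact h5

/-- The number of factors. -/
noncomputable def steps (L c ε : ℝ) : ℕ := ⌈(L + 1) / (c * (ε / (1 + ε)))⌉₊ + 1

theorem engine' {E : Type*} [NormedAddCommGroup E] [NormedSpace ℝ E] [CompleteSpace E]
    (f : E → E) (L : ℝ) (hf : ∀ x y, ‖f x - f y‖ ≤ L * ‖x - y‖) (c : ℝ)
    (hc : 0 < c)
    (hlow : ∀ t ∈ Icc (0 : ℝ) 1, ∀ x y,
      c * ‖x - y‖ ≤ ‖((1 - t) • x + t • f x) - ((1 - t) • y + t • f y)‖)
    (ε : ℝ) (hε : 0 < ε) :
    ∃ l : List (E ≃ₜ E), l.length = steps L c ε ∧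
      (∀ g ∈ l, ∀ x y, dist (g x) (g y) ≤ (1 + ε) * dist x y ∧
        dist x y ≤ (1 + ε) * dist (g x) (g y)) ∧
      ∀ x, l.prod x = f x := by
  have hm : 0 < steps L c ε := Nat.succ_pos _
  have hm' : (0 : ℝ) < (steps L c ε : ℝ) := by exact_mod_cast hm
  have hη0 : 0 < ε / (1 + ε) := by positivity
  have hη1 : ε / (1 + ε) < 1 := by
    rw [div_lt_one (by linarith)]
    linarith
  have hmη : (L + 1) / (c * (steps L c ε : ℝ)) ≤ ε / (1 + ε) := by
    have h1 : (L + 1) / (c * (ε / (1 + ε))) ≤ (steps L c ε : ℝ) := by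
      unfold steps
      push_cast
      have := Nat.le_ceil ((L + 1) / (c * (ε / (1 + ε))))
      linarith
    rw [div_le_iff₀ (by positivity)] at h1 ⊢
    linarith
  obtain ⟨l, h1, h2, h3⟩ := engine f L hf c hc hlow (steps L c ε) hm (ε / (1 + ε)) hη0.le hη1 hmη
    (steps L c ε) le_rfl
  refine ⟨l, h1, ?_, ?_⟩
  · intro g hg x y
    exact bilip_of_near g ε (ε / (1 + ε)) hε rfl (h2 g hg) x y
  · intro x
    rw [h3, div_self hm'.ne']
    simp

variable {n : ℕ}

/-- Restriction of a vector to a set of coordinates. -/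
noncomputable def res (p : Fin n → Prop) [DecidablePred p] :
    EuclideanSpace ℝ (Fin n) →L[ℝ] EuclideanSpace ℝ (Fin n) :=
  LinearMap.toContinuousLinearMap
    { toFun := fun u => WithLp.toLp 2 fun j => if p j then u j else 0
      map_add' := by
        intro u v
        ext j
        simp only [PiLp.add_apply]
        split_ifs <;> simp
      map_smul' := by
        intro c u
        ext j
        simp only [PiLp.smul_apply, RingHom.id_apply]
        split_ifs <;> simp }

theorem res_apply (p : Fin n → Prop) [DecidablePred p] (u : EuclideanSpace ℝ (Fin n))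
    (j : Fin n) : res p u j = if p j then u j else 0 := rfl

theorem norm_res_le (p : Fin n → Prop) [DecidablePred p] (u : EuclideanSpace ℝ (Fin n)) :
    ‖res p u‖ ≤ ‖u‖ := by
  rw [EuclideanSpace.norm_eq, EuclideanSpace.norm_eq]
  apply Real.sqrt_le_sqrt
  apply Finset.sum_le_sum
  intro j _
  rw [res_apply]
  split_ifs
  · exact le_rfl
  · rw [norm_zero, zero_pow two_ne_zero]
    positivity

theorem res_eq_iff (p : Fin n → Prop) [DecidablePred p] (x y : EuclideanSpace ℝ (Fin n)) :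
    res p x = res p y ↔ ∀ j, p j → x j = y j := by
  constructor
  · intro h j hj
    have := congrArg (fun v : EuclideanSpace ℝ (Fin n) => v j) h
    simpa [res_apply, hj] using this
  · intro h
    ext j
    rw [res_apply, res_apply]
    split_ifs with hj
    · exact h j hj
    · rfl

section block

variable {N : ℕ} (b : Fin n → Fin N)

/-- coordinates in blocks before `k` -/
noncomputable def tr (k : ℕ) : EuclideanSpace ℝ (Fin n) →L[ℝ] EuclideanSpace ℝ (Fin n) :=
  res fun j => (b j : ℕ) < k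

/-- coordinates in block `k` -/
noncomputable def blk (k : ℕ) : EuclideanSpace ℝ (Fin n) →L[ℝ] EuclideanSpace ℝ (Fin n) :=
  res fun j => (b j : ℕ) = k

theorem tr_succ (k : ℕ) (u : EuclideanSpace ℝ (Fin n)) :
    tr b (k + 1) u = tr b k u + blk b k u := by
  ext j
  rw [PiLp.add_apply, tr, tr, blk, res_apply, res_apply, res_apply]
  rcases lt_trichotomy (b j : ℕ) k with h | h | h
  · rw [if_pos (by omega), if_pos h, if_neg (by omega), add_zero]
  · rw [if_pos (by omega), if_neg (by omega), if_pos h, zero_add]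
  · rw [if_neg (by omega), if_neg (by omega), if_neg (by omega), zero_add]

theorem tr_zero (u : EuclideanSpace ℝ (Fin n)) : tr b 0 u = 0 := by
  ext j
  rw [tr, res_apply, if_neg (by omega)]
  rfl

theorem tr_full (u : EuclideanSpace ℝ (Fin n)) : tr b N u = u := by
  ext j
  rw [tr, res_apply, if_pos (b j).isLt]

/-- Block back substitution. -/
theorem backsub_block (F : EuclideanSpace ℝ (Fin n) → EuclideanSpace ℝ (Fin n)) (Lam a : ℝ)
    (hLam : 1 ≤ Lam) (ha : 0 < a) (hLip : ∀ x y, ‖F x - F y‖ ≤ Lam * ‖x - y‖)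
    (htri : ∀ (k : ℕ) (x y : EuclideanSpace ℝ (Fin n)),
      (∀ j : Fin n, (b j : ℕ) < k → x j = y j) → (∀ j : Fin n, (b j : ℕ) < k → F x j = F y j))
    (hdiag : ∀ (k : ℕ) (x y : EuclideanSpace ℝ (Fin n)),
      (∀ j : Fin n, (b j : ℕ) < k → x j = y j) →
        ‖blk b k (x - y)‖ ≤ a * ‖blk b k (F x - F y)‖)
    (x y : EuclideanSpace ℝ (Fin n)) :
    ((1 + a * Lam) ^ N)⁻¹ * ‖x - y‖ ≤ ‖F x - F y‖ := by
  have hL : 0 < Lam := by linarith
  set u := x - y with hu
  set W := ‖F x - F y‖ with hW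
  have hW0 : 0 ≤ W := norm_nonneg _
  have hcoord : ∀ k : ℕ, ‖blk b k u‖ ≤ a * W + a * Lam * ‖tr b k u‖ := by
    intro k
    have h1 := hdiag k (y + tr b (k + 1) u) (y + tr b k u) (by
      intro j hj
      rw [PiLp.add_apply, PiLp.add_apply, tr, tr, res_apply, res_apply, if_pos (by omega),
        if_pos hj])
    have h2 : y + tr b (k + 1) u - (y + tr b k u) = blk b k u := by
      rw [tr_succ]
      abel
    have h2' : blk b k (blk b k u) = blk b k u := by
      ext j
      rw [blk, res_apply, res_apply]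
      split_ifs <;> rfl
    rw [h2, h2'] at h1
    have h3 : blk b k (F (y + tr b (k + 1) u) - F (y + tr b k u)) =
        blk b k (F x - F y) - blk b k (F (y + tr b k u) - F y) := by
      rw [← map_sub]
      ext j
      rw [blk, res_apply, res_apply]
      split_ifs with hj
      · have h4 : F (y + tr b (k + 1) u) j = F x j := by
          apply htri (k + 1) _ _ _ j (by omega)
          intro i hi
          rw [PiLp.add_apply, tr, res_apply, if_pos hi, hu, PiLp.sub_apply]
          ring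
        simp only [PiLp.sub_apply, h4]
        ring
      · rfl
    rw [h3] at h1
    have h5 : ‖blk b k (F x - F y)‖ ≤ W := norm_res_le _ _
    have h6 : ‖blk b k (F (y + tr b k u) - F y)‖ ≤ Lam * ‖tr b k u‖ := by
      refine (norm_res_le _ _).trans ?_
      have e2 := hLip (y + tr b k u) y
      rwa [add_sub_cancel_left] at e2
    have h7 : ‖blk b k (F x - F y) - blk b k (F (y + tr b k u) - F y)‖ ≤
        W + Lam * ‖tr b k u‖ := (norm_sub_le _ _).trans (by linarith)
    calc ‖blk b k u‖ ≤ _ := h1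
      _ ≤ a * (W + Lam * ‖tr b k u‖) := mul_le_mul_of_nonneg_left h7 ha.le
      _ = _ := by ring
  have key : ∀ k : ℕ, ‖tr b k u‖ ≤ ((1 + a * Lam) ^ k - 1) / Lam * W := by
    intro k
    induction k with
    | zero =>
      rw [tr_zero]
      simp
    | succ k ih =>
      rw [tr_succ]
      refine (norm_add_le _ _).trans ?_
      have h3 := hcoord k
      have h5 : a * Lam * ‖tr b k u‖ ≤ a * Lam * (((1 + a * Lam) ^ k - 1) / Lam * W) :=
        mul_le_mul_of_nonneg_left ih (by positivity)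
      have h6 : ((1 + a * Lam) ^ (k + 1) - 1) / Lam * W =
          ((1 + a * Lam) ^ k - 1) / Lam * W +
            (a * W + a * Lam * (((1 + a * Lam) ^ k - 1) / Lam * W)) := by
        field_simp
        ring
      rw [h6]
      linarith
  have hn := key N
  rw [tr_full] at hn
  have hP : (1 : ℝ) ≤ (1 + a * Lam) ^ N := one_le_pow₀ (by
    have : 0 < a * Lam := by positivity
    linarith)
  have h8 : ((1 + a * Lam) ^ N - 1) / Lam * W ≤ (1 + a * Lam) ^ N * W := by
    apply mul_le_mul_of_nonneg_right _ hW0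
    rw [div_le_iff₀ hL]
    nlinarith
  rw [inv_mul_le_iff₀ (by positivity)]
  exact hn.trans h8

/-- Factorisation of a bi-Lipschitz block triangular map with no half-turns in the blocks. -/
theorem block_factor (g : EuclideanSpace ℝ (Fin n) ≃ₜ EuclideanSpace ℝ (Fin n))
    (Lam δ : ℝ) (hLam : 1 ≤ Lam) (hδ : 0 < δ) (hδ1 : δ ≤ 1)
    (hup : ∀ x y, ‖g x - g y‖ ≤ Lam * ‖x - y‖) (hdn : ∀ x y, ‖x - y‖ ≤ Lam * ‖g x - g y‖)
    (flag : ∀ (k : ℕ) (x y : EuclideanSpace ℝ (Fin n)),
      (∀ j : Fin n, (b j : ℕ) < k → x j = y j) ↔ (∀ j : Fin n, (b j : ℕ) < k → g x j = g y j))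
    (ang : ∀ (k : ℕ) (x y : EuclideanSpace ℝ (Fin n)),
      (∀ j : Fin n, (b j : ℕ) < k → x j = y j) →
        -(1 - δ) * (‖blk b k (g x - g y)‖ * ‖blk b k (x - y)‖) ≤
          inner ℝ (blk b k (g x - g y)) (blk b k (x - y)))
    (ε : ℝ) (hε : 0 < ε) :
    ∃ l : List (EuclideanSpace ℝ (Fin n) ≃ₜ EuclideanSpace ℝ (Fin n)),
      l.length = steps Lam (((1 + (Lam / √(δ / 2)) * Lam) ^ N)⁻¹) ε ∧
      (∀ h ∈ l, ∀ x y, dist (h x) (h y) ≤ (1 + ε) * dist x y ∧
        dist x y ≤ (1 + ε) * dist (h x) (h y)) ∧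
      ∀ x, l.prod x = g x := by
  have hL : 0 < Lam := by linarith
  have hs : 0 < √(δ / 2) := Real.sqrt_pos.2 (by positivity)
  -- lower bound in the blocks
  have hblk : ∀ (k : ℕ) (x y : EuclideanSpace ℝ (Fin n)),
      (∀ j : Fin n, (b j : ℕ) < k → x j = y j) →
        ‖blk b k (x - y)‖ ≤ Lam * ‖blk b k (g x - g y)‖ := by
    intro k x y hxy
    set z := g.symm (g y + blk b k (g x - g y)) with hz
    have hgz : g z = g y + blk b k (g x - g y) := g.apply_symm_apply _
    have hag : ∀ j : Fin n, (b j : ℕ) < k + 1 → g z j = g x j := by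
      intro j hj
      rw [hgz, PiLp.add_apply, blk, res_apply]
      split_ifs with h
      · rw [PiLp.sub_apply]
        ring
      · rw [add_zero]
        exact ((flag k x y).1 hxy j (by omega)).symm
    have hag2 := (flag (k + 1) z x).2 hag
    have h1 : blk b k (x - y) = blk b k (z - y) := by
      rw [blk, res_eq_iff]
      intro j hj
      rw [PiLp.sub_apply, PiLp.sub_apply, hag2 j (by omega)]
    rw [h1]
    refine (norm_res_le _ _).trans ?_
    have h2 := hdn z y
    rw [hgz, add_sub_cancel_left] at h2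
    exact h2
  apply engine' g Lam hup _ (by positivity) _ ε hε
  intro t ht x y
  refine backsub_block b (fun z => (1 - t) • z + t • g z) Lam (Lam / √(δ / 2)) hLam
    (by positivity) ?_ ?_ ?_ x y
  · intro x y
    have e1 : (1 - t) • x + t • g x - ((1 - t) • y + t • g y) =
        (1 - t) • (x - y) + t • (g x - g y) := by
      rw [smul_sub, smul_sub]
      abel
    rw [e1]
    refine (norm_add_le _ _).trans ?_
    rw [norm_smul, norm_smul, Real.norm_of_nonneg (by linarith [ht.2] : 0 ≤ 1 - t),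
      Real.norm_of_nonneg ht.1]
    have e2 := mul_le_mul_of_nonneg_left (hup x y) ht.1
    have e3 : (1 - t) * ‖x - y‖ ≤ (1 - t) * (Lam * ‖x - y‖) := by
      apply mul_le_mul_of_nonneg_left _ (by linarith [ht.2])
      have := norm_nonneg (x - y)
      nlinarith
    linarith
  · intro k x y hxy j hj
    have e1 := (flag k x y).1 hxy j hj
    have e2 := hxy j hj
    simp only [PiLp.add_apply, PiLp.smul_apply, e1, e2]
  · intro k x y hxy
    have e0 : blk b k ((1 - t) • x + t • g x - ((1 - t) • y + t • g y)) =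
        (1 - t) • blk b k (x - y) + t • blk b k (g x - g y) := by
      have e00 : (1 - t) • x + t • g x - ((1 - t) • y + t • g y) =
          (1 - t) • (x - y) + t • (g x - g y) := by
        rw [smul_sub, smul_sub]
        abel
      rw [e00, (blk b k).map_add, (blk b k).map_smul, (blk b k).map_smul]
    rw [e0]
    have e1 := angle_low (blk b k (x - y)) (blk b k (g x - g y)) δ Lam t hδ hδ1 hLam ht
      (hblk k x y hxy) (ang k x y hxy)
    have e2 : Lam / √(δ / 2) * (√(δ / 2) / Lam * ‖blk b k (x - y)‖) = ‖blk b k (x - y)‖ := by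
      field_simp
    calc ‖blk b k (x - y)‖ = _ := e2.symm
      _ ≤ _ := mul_le_mul_of_nonneg_left e1 (by positivity)

end block

end Pool.Agent.Lib.MP_f171f2_an
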