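import Mathlib
import Pool.Agent.Lib.MP_f171f2_an.AE
import Pool.Agent.Lib.MP_f171f2_an.Block

/-!
The continuity method with a condition on the derivative only.
-/

set_option autoImplicit false

open MeasureTheory Set Filter Topology Metric
open scoped NNReal ENNReal

namespace Pool.Agent.Lib.MP_f171f2_an

variable {E : Type*} [NormedAddCommGroup E] [NormedSpace ℝ E] [FiniteDimensional ℝ E]
  [MeasurableSpace E] [BorelSpace E] (μ : Measure E) [μ.IsAddHaarMeasure]

/-- The continuity method: if `f` is Lipschitz and for almost every `x` and all `t ∈ [0, 1]` the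
linear map `(1 - t) id + t f'(x)` expands by at least `c`, then `f` is a product of `m`
near-isometries. -/
theorem engine_ae (f : E → E) (L : ℝ) (hL : 0 ≤ L) (hf : ∀ x y, ‖f x - f y‖ ≤ L * ‖x - y‖) (c : ℝ)
    (hc : 0 < c) (hc1 : c ≤ 1)
    (hlow : ∀ᵐ x ∂μ, ∀ A : E →L[ℝ] E, HasFDerivAt f A x → ∀ t ∈ Icc (0 : ℝ) 1, ∀ v,
      c * ‖v‖ ≤ ‖(1 - t) • v + t • A v‖)
    (m : ℕ) (hm : 0 < m) (η : ℝ) (hη0 : 0 ≤ η) (hη : η < 1) (hmη : (L + 1) / (c * m) ≤ η) :
    ∀ k ≤ m, ∃ l : List (E ≃ₜ E), l.length = k ∧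
      (∀ g ∈ l, ∀ x y, ‖(g x - g y) - (x - y)‖ ≤ η * ‖x - y‖) ∧
      (∀ x, l.prod x = (1 - (k : ℝ) / m) • x + ((k : ℝ) / m) • f x) ∧
      ∀ x y, c * ‖x - y‖ ≤ ‖l.prod x - l.prod y‖ := by
  intro k
  have hm' : (0 : ℝ) < m := by exact_mod_cast hm
  have hfL : LipschitzWith ⟨L, hL⟩ f := LipschitzWith.of_dist_le_mul fun x y => by
    rw [dist_eq_norm, dist_eq_norm]
    exact hf x y
  induction k with
  | zero =>
    intro _
    refine ⟨[], rfl, by simp, ?_, ?_⟩
    · intro x
      simp
    · intro x y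
      have : c * ‖x - y‖ ≤ 1 * ‖x - y‖ := mul_le_mul_of_nonneg_right hc1 (norm_nonneg _)
      simpa using this
  | succ k ih =>
    intro hk
    obtain ⟨l, hl, hg, hF, hinv0⟩ := ih (by omega)
    set F : E ≃ₜ E := l.prod with hFdef
    have ht : ((k + 1 : ℕ) : ℝ) / m ∈ Icc (0 : ℝ) 1 := by
      refine ⟨by positivity, ?_⟩
      rw [div_le_one hm']
      exact_mod_cast hk
    have hinv : ∀ z z', c * ‖F.symm z - F.symm z'‖ ≤ ‖z - z'‖ := by
      intro z z'
      have h1 := hinv0 (F.symm z) (F.symm z')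
      simpa using h1
    set φ : E → E := fun z => (1 / (m : ℝ)) • (f (F.symm z) - F.symm z) with hφdef
    have hφ : LipschitzWith ⟨η, hη0⟩ φ := by
      refine LipschitzWith.of_dist_le_mul fun z z' => ?_
      rw [dist_eq_norm, dist_eq_norm]
      set u := F.symm z with hu
      set u' := F.symm z' with hu'
      have h1 : φ z - φ z' = (1 / (m : ℝ)) • ((f u - f u') - (u - u')) := by
        simp only [hφdef]
        rw [← smul_sub]
        congr 1
        abel
      rw [h1, norm_smul, Real.norm_of_nonneg (by positivity : (0 : ℝ) ≤ 1 / m)]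
      have h2 : ‖(f u - f u') - (u - u')‖ ≤ (L + 1) * ‖u - u'‖ := by
        calc ‖(f u - f u') - (u - u')‖ ≤ ‖f u - f u'‖ + ‖u - u'‖ := norm_sub_le _ _
          _ ≤ L * ‖u - u'‖ + ‖u - u'‖ := by
            have := hf u u'
            linarith
          _ = (L + 1) * ‖u - u'‖ := by ring
      have h3 := hinv z z'
      change (1 / (m : ℝ)) * ‖(f u - f u') - (u - u')‖ ≤ η * ‖z - z'‖
      calc (1 / (m : ℝ)) * ‖(f u - f u') - (u - u')‖
          ≤ (1 / (m : ℝ)) * ((L + 1) * ‖u - u'‖) := by
            apply mul_le_mul_of_nonneg_left h2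
            positivity
        _ = (L + 1) / (c * m) * (c * ‖u - u'‖) := by
            field_simp
        _ ≤ η * ‖z - z'‖ := by
            apply mul_le_mul hmη h3 (by positivity) hη0
    obtain ⟨g, hgx⟩ := near_homeo φ ⟨η, hη0⟩ hη hφ
    have hnear : ∀ x y, ‖(g x - g y) - (x - y)‖ ≤ η * ‖x - y‖ := by
      intro x y
      rw [hgx, hgx]
      have h1 : (x + φ x - (y + φ y)) - (x - y) = φ x - φ y := by abel
      rw [h1]
      have := hφ.dist_le_mul x y
      rwa [dist_eq_norm, dist_eq_norm] at this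
    have hval : ∀ x, (g :: l).prod x =
        (1 - ((k + 1 : ℕ) : ℝ) / m) • x + (((k + 1 : ℕ) : ℝ) / m) • f x := by
      intro x
      rw [List.prod_cons]
      change g (F x) = _
      rw [hgx]
      simp only [hφdef]
      rw [F.symm_apply_apply, hF x]
      push_cast
      rw [smul_sub, sub_smul, sub_smul, one_smul]
      have h1 : ((k : ℝ) + 1) / m = (k : ℝ) / m + 1 / m := by ring
      rw [h1, add_smul, add_smul]
      abel
    refine ⟨g :: l, by simp [hl], ?_, hval, ?_⟩
    · intro g' hg'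
      rcases List.mem_cons.1 hg' with h | h
      · subst h
        exact hnear
      · exact hg g' h
    · -- the lower bound does not deteriorate
      set G : E ≃ₜ E := (g :: l).prod with hG
      set t : ℝ := ((k + 1 : ℕ) : ℝ) / m with htdef
      have hGF : ∀ x, G x = g (F x) := fun x => by
        rw [hG, List.prod_cons]
        rfl
      have hlow1 : ∀ x y, (1 - η) * c * ‖x - y‖ ≤ ‖G x - G y‖ := by
        intro x y
        rw [hGF, hGF]
        have h1 := hnear (F x) (F y)
        have h2 := hinv0 x y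
        have h3 : ‖F x - F y‖ ≤ ‖(g (F x) - g (F y)) - (F x - F y)‖ + ‖g (F x) - g (F y)‖ := by
          have := norm_sub_le (g (F x) - g (F y)) ((g (F x) - g (F y)) - (F x - F y))
          rw [sub_sub_cancel] at this
          linarith
        have h4 : (1 - η) * (c * ‖x - y‖) ≤ (1 - η) * ‖F x - F y‖ :=
          mul_le_mul_of_nonneg_left h2 (by linarith)
        linarith
      have hup1 : ∀ x y, ‖G x - G y‖ ≤ (1 + L) * ‖x - y‖ := by
        intro x y
        rw [hval, hval]
        have e1 : (1 - t) • x + t • f x - ((1 - t) • y + t • f y) =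
            (1 - t) • (x - y) + t • (f x - f y) := by
          rw [smul_sub, smul_sub]
          abel
        rw [e1]
        refine (norm_add_le _ _).trans ?_
        rw [norm_smul, norm_smul, Real.norm_of_nonneg (by linarith [ht.2] : 0 ≤ 1 - t),
          Real.norm_of_nonneg ht.1]
        have h1 : t * ‖f x - f y‖ ≤ 1 * (L * ‖x - y‖) :=
          mul_le_mul ht.2 (hf x y) (norm_nonneg _) zero_le_one
        have h2 : (1 - t) * ‖x - y‖ ≤ 1 * ‖x - y‖ :=
          mul_le_mul_of_nonneg_right (by linarith [ht.1]) (norm_nonneg _)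
        linarith
      have hM : 0 < (1 - η) * c := mul_pos (by linarith) hc
      have hGL : LipschitzWith ⟨1 + L, by linarith⟩ G := LipschitzWith.of_dist_le_mul fun x y => by
        rw [dist_eq_norm, dist_eq_norm]
        exact hup1 x y
      have hGL' : LipschitzWith ⟨((1 - η) * c)⁻¹, by positivity⟩ G.symm :=
        LipschitzWith.of_dist_le_mul fun x y => by
          rw [dist_eq_norm, dist_eq_norm]
          have := hlow1 (G.symm x) (G.symm y)
          rw [G.apply_symm_apply, G.apply_symm_apply] at this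
          change _ ≤ ((1 - η) * c)⁻¹ * _
          rw [le_inv_mul_iff₀ hM]
          exact this
      apply lower_of_ae μ G _ _ hGL hGL' c hc
      filter_upwards [hlow, hfL.ae_differentiableAt (μ := μ)] with x hx hdx
      have hA := hdx.hasFDerivAt
      refine ⟨(1 - t) • ContinuousLinearMap.id ℝ E + t • fderiv ℝ f x, ?_, ?_⟩
      · have h1 : HasFDerivAt (fun y => (1 - t) • y + t • f y)
            ((1 - t) • ContinuousLinearMap.id ℝ E + t • fderiv ℝ f x) x :=
          ((hasFDerivAt_id x).const_smul (1 - t)).add (hA.const_smul t)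
        exact h1.congr_of_eventuallyEq (Eventually.of_forall fun y => hval y)
      · intro v
        exact hx _ hA t ht v

/-- The same with the number of factors. -/
theorem engine_ae' (f : E → E) (L : ℝ) (hL : 0 ≤ L) (hf : ∀ x y, ‖f x - f y‖ ≤ L * ‖x - y‖)
    (c : ℝ) (hc : 0 < c) (hc1 : c ≤ 1)
    (hlow : ∀ᵐ x ∂μ, ∀ A : E →L[ℝ] E, HasFDerivAt f A x → ∀ t ∈ Icc (0 : ℝ) 1, ∀ v,
      c * ‖v‖ ≤ ‖(1 - t) • v + t • A v‖)
    (ε : ℝ) (hε : 0 < ε) :
    ∃ l : List (E ≃ₜ E), l.length = steps L c ε ∧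
      (∀ g ∈ l, ∀ x y, dist (g x) (g y) ≤ (1 + ε) * dist x y ∧
        dist x y ≤ (1 + ε) * dist (g x) (g y)) ∧
      ∀ x, l.prod x = f x := by
  have hm : 0 < steps L c ε := Nat.succ_pos _
  have hm' : (0 : ℝ) < (steps L c ε : ℝ) := by exact_mod_cast hm
  have hη0 : 0 < ε / (1 + ε) := by positivity
  have hη1 : ε / (1 + ε) < 1 := by
    rw [div_lt_one (by linarith)]
    linarith
  have hmη : (L + 1) / (c * (steps L c ε : ℝ)) ≤ ε / (1 + ε) := by
    have h1 : (L + 1) / (c * (ε / (1 + ε))) ≤ (steps L c ε : ℝ) := by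
      unfold steps
      push_cast
      have := Nat.le_ceil ((L + 1) / (c * (ε / (1 + ε))))
      linarith
    rw [div_le_iff₀ (by positivity)] at h1 ⊢
    linarith
  obtain ⟨l, h1, h2, h3, -⟩ := engine_ae μ f L hL hf c hc hc1 hlow (steps L c ε) hm
    (ε / (1 + ε)) hη0.le hη1 hmη (steps L c ε) le_rfl
  refine ⟨l, h1, ?_, ?_⟩
  · intro g hg x y
    exact bilip_of_near g ε (ε / (1 + ε)) hε rfl (h2 g hg) x y
  · intro x
    rw [h3, div_self hm'.ne']
    simp

end Pool.Agent.Lib.MP_f171f2_an
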