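import Mathlib
import Pool.Agent.Lib.MP_f171f2_an.EngineAE

/-!
Factorisation of bi-Lipschitz maps under conditions on the derivative.
-/

set_option autoImplicit false

open MeasureTheory Set Filter Topology Metric
open scoped NNReal ENNReal

namespace Pool.Agent.Lib.MP_f171f2_an

/-- Difference quotients along `1 / n`. -/
theorem lim_nat {E : Type*} [NormedAddCommGroup E] [NormedSpace ℝ E] {f : E → E} {A : E →L[ℝ] E}
    {x : E} (hA : HasFDerivAt f A x) (v : E) :
    Tendsto (fun n : ℕ => (n : ℝ) • (f (x + (n : ℝ)⁻¹ • v) - f x)) atTop (𝓝 (A v)) := by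
  apply hA.lim v
  simpa using tendsto_natCast_atTop_atTop (R := ℝ)

variable {n N : ℕ} (b : Fin n → Fin N)

/-- Factorisation of a bi-Lipschitz block triangular map whose derivative makes no half-turn in
the blocks. -/
theorem block_factor_ae (g : EuclideanSpace ℝ (Fin n) ≃ₜ EuclideanSpace ℝ (Fin n))
    (Lam δ : ℝ) (hLam : 1 ≤ Lam) (hδ : 0 < δ) (hδ1 : δ ≤ 1)
    (hup : ∀ x y, ‖g x - g y‖ ≤ Lam * ‖x - y‖) (hdn : ∀ x y, ‖x - y‖ ≤ Lam * ‖g x - g y‖)
    (flag : ∀ (k : ℕ) (x y : EuclideanSpace ℝ (Fin n)),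
      (∀ j : Fin n, (b j : ℕ) < k → x j = y j) ↔ (∀ j : Fin n, (b j : ℕ) < k → g x j = g y j))
    (ang : ∀ᵐ x : EuclideanSpace ℝ (Fin n),
      ∀ A : EuclideanSpace ℝ (Fin n) →L[ℝ] EuclideanSpace ℝ (Fin n), HasFDerivAt g A x →
      ∀ (k : ℕ) (v : EuclideanSpace ℝ (Fin n)), (∀ j : Fin n, (b j : ℕ) ≠ k → v j = 0) →
        -(1 - δ) * (‖blk b k (A v)‖ * ‖v‖) ≤ inner ℝ (blk b k (A v)) v)
    (ε : ℝ) (hε : 0 < ε) :
    ∃ l : List (EuclideanSpace ℝ (Fin n) ≃ₜ EuclideanSpace ℝ (Fin n)),
      l.length = steps Lam (((1 + (Lam / √(δ / 2)) * Lam) ^ N)⁻¹) ε ∧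
      (∀ h ∈ l, ∀ x y, dist (h x) (h y) ≤ (1 + ε) * dist x y ∧
        dist x y ≤ (1 + ε) * dist (h x) (h y)) ∧
      ∀ x, l.prod x = g x := by
  have hL : 0 < Lam := by linarith
  have hs : 0 < √(δ / 2) := Real.sqrt_pos.2 (by positivity)
  -- lower bound in the blocks
  have hblk : ∀ (k : ℕ) (x y : EuclideanSpace ℝ (Fin n)),
      (∀ j : Fin n, (b j : ℕ) < k → x j = y j) →
        ‖blk b k (x - y)‖ ≤ Lam * ‖blk b k (g x - g y)‖ := by
    intro k x y hxy
    set z := g.symm (g y + blk b k (g x - g y)) with hz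
    have hgz : g z = g y + blk b k (g x - g y) := g.apply_symm_apply _
    have hag : ∀ j : Fin n, (b j : ℕ) < k + 1 → g z j = g x j := by
      intro j hj
      rw [hgz, PiLp.add_apply, blk, res_apply]
      split_ifs with h
      · rw [PiLp.sub_apply]
        ring
      · rw [add_zero]
        exact ((flag k x y).1 hxy j (by omega)).symm
    have hag2 := (flag (k + 1) z x).2 hag
    have h1 : blk b k (x - y) = blk b k (z - y) := by
      rw [blk, res_eq_iff]
      intro j hj
      rw [PiLp.sub_apply, PiLp.sub_apply, hag2 j (by omega)]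
    rw [h1]
    refine (norm_res_le _ _).trans ?_
    have h2 := hdn z y
    rw [hgz, add_sub_cancel_left] at h2
    exact h2
  have hone : (1 : ℝ) ≤ (1 + (Lam / √(δ / 2)) * Lam) ^ N := one_le_pow₀ (by
    have : 0 < (Lam / √(δ / 2)) * Lam := by positivity
    linarith)
  apply engine_ae' volume g Lam hL.le hup _ (by positivity) (inv_le_one_of_one_le₀ hone) _ ε hε
  filter_upwards [ang] with x hx A hA t ht v
  have hangA' := hx A hA
  -- properties of the derivative
  have hcont : ∀ j : Fin n, Continuous fun w : EuclideanSpace ℝ (Fin n) => w j := fun j =>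
    (EuclideanSpace.proj j : EuclideanSpace ℝ (Fin n) →L[ℝ] ℝ).continuous
  have hAup : ∀ w, ‖A w‖ ≤ Lam * ‖w‖ := by
    intro w
    have h1 : Tendsto (fun n : ℕ => ‖(n : ℝ) • (g (x + (n : ℝ)⁻¹ • w) - g x)‖) atTop
        (𝓝 ‖A w‖) := (lim_nat hA w).norm
    apply le_of_tendsto h1
    filter_upwards [eventually_gt_atTop 0] with n hn
    have hn' : (0 : ℝ) < n := by exact_mod_cast hn
    rw [norm_smul, Real.norm_of_nonneg hn'.le]
    have h2 := hup (x + (n : ℝ)⁻¹ • w) x
    rw [add_sub_cancel_left, norm_smul, Real.norm_of_nonneg (by positivity)] at h2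
    calc (n : ℝ) * ‖g (x + (n : ℝ)⁻¹ • w) - g x‖ ≤ n * (Lam * ((n : ℝ)⁻¹ * ‖w‖)) :=
          mul_le_mul_of_nonneg_left h2 hn'.le
      _ = Lam * ‖w‖ := by field_simp
  have hAflag : ∀ (k : ℕ) (w : EuclideanSpace ℝ (Fin n)), (∀ j : Fin n, (b j : ℕ) < k → w j = 0) →
      ∀ j : Fin n, (b j : ℕ) < k → A w j = 0 := by
    intro k w hw j hj
    have h1 : Tendsto (fun n : ℕ => ((n : ℝ) • (g (x + (n : ℝ)⁻¹ • w) - g x)) j) atTop
        (𝓝 (A w j)) := ((hcont j).tendsto _).comp (lim_nat hA w)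
    have h2 : (fun n : ℕ => ((n : ℝ) • (g (x + (n : ℝ)⁻¹ • w) - g x)) j) = fun _ => 0 := by
      funext n
      have h3 := (flag k (x + (n : ℝ)⁻¹ • w) x).1 (by
        intro i hi
        rw [PiLp.add_apply, PiLp.smul_apply, hw i hi, smul_zero, add_zero]) j hj
      rw [PiLp.smul_apply, PiLp.sub_apply, h3, sub_self, smul_zero]
    rw [h2] at h1
    exact (tendsto_nhds_unique h1 tendsto_const_nhds)
  have hangA : ∀ (k : ℕ) (w : EuclideanSpace ℝ (Fin n)), (∀ j : Fin n, (b j : ℕ) < k → w j = 0) →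
      -(1 - δ) * (‖blk b k (A w)‖ * ‖blk b k w‖) ≤ inner ℝ (blk b k (A w)) (blk b k w) := by
    intro k w hw
    have h1 := hangA' k (blk b k w) (by
      intro j hj
      rw [blk, res_apply, if_neg hj])
    have h2 : blk b k (A (blk b k w)) = blk b k (A w) := by
      rw [blk, res_eq_iff]
      intro j hj
      have h3 := hAflag (k + 1) (blk b k w - w) (by
        intro i hi
        rw [PiLp.sub_apply, blk, res_apply]
        split_ifs with h4
        · exact sub_self _
        · rw [hw i (by omega), sub_self]) j (by omega)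
      rw [map_sub, PiLp.sub_apply] at h3
      rw [blk] at h3
      linarith
    rw [h2] at h1
    exact h1
  have hAblk : ∀ (k : ℕ) (w : EuclideanSpace ℝ (Fin n)), (∀ j : Fin n, (b j : ℕ) < k → w j = 0) →
      ‖blk b k w‖ ≤ Lam * ‖blk b k (A w)‖ := by
    intro k w hw
    have h1 : Tendsto (fun n : ℕ => Lam * ‖blk b k ((n : ℝ) • (g (x + (n : ℝ)⁻¹ • w) - g x))‖)
        atTop (𝓝 (Lam * ‖blk b k (A w)‖)) :=
      ((((blk b k).continuous.tendsto _).comp (lim_nat hA w)).norm).const_mul Lam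
    apply ge_of_tendsto h1
    filter_upwards [eventually_gt_atTop 0] with n hn
    have hn' : (0 : ℝ) < n := by exact_mod_cast hn
    have h2 := hblk k (x + (n : ℝ)⁻¹ • w) x (by
      intro i hi
      rw [PiLp.add_apply, PiLp.smul_apply, hw i hi, smul_zero, add_zero])
    rw [add_sub_cancel_left, map_smul, norm_smul, Real.norm_of_nonneg (by positivity)] at h2
    rw [map_smul, norm_smul, Real.norm_of_nonneg hn'.le]
    calc ‖blk b k w‖ = n * ((n : ℝ)⁻¹ * ‖blk b k w‖) := by field_simp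
      _ ≤ n * (Lam * ‖blk b k (g (x + (n : ℝ)⁻¹ • w) - g x)‖) :=
          mul_le_mul_of_nonneg_left h2 hn'.le
      _ = _ := by ring
  have hsub : ∀ z w : EuclideanSpace ℝ (Fin n),
      ((1 - t) • z + t • A z) - ((1 - t) • w + t • A w) = (1 - t) • (z - w) + t • A (z - w) := by
    intro z w
    rw [map_sub, smul_sub, smul_sub]
    abel
  have key := backsub_block b (fun z => (1 - t) • z + t • A z) Lam (Lam / √(δ / 2)) hLam
    (by positivity) (by
      intro z w
      rw [hsub]
      refine (norm_add_le _ _).trans ?_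
      rw [norm_smul, norm_smul, Real.norm_of_nonneg (by linarith [ht.2] : 0 ≤ 1 - t),
        Real.norm_of_nonneg ht.1]
      have e2 := mul_le_mul_of_nonneg_left (hAup (z - w)) ht.1
      have e3 : (1 - t) * ‖z - w‖ ≤ (1 - t) * (Lam * ‖z - w‖) := by
        apply mul_le_mul_of_nonneg_left _ (by linarith [ht.2])
        have := norm_nonneg (z - w)
        nlinarith
      linarith) (by
      intro k z w hzw j hj
      have e1 := hAflag k (z - w) (by
        intro i hi
        rw [PiLp.sub_apply, hzw i hi, sub_self]) j hj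
      rw [map_sub, PiLp.sub_apply] at e1
      have e2 : A z j = A w j := by linarith
      simp only [PiLp.add_apply, PiLp.smul_apply, hzw j hj, e2]) (by
      intro k z w hzw
      have hzw' : ∀ j : Fin n, (b j : ℕ) < k → (z - w) j = 0 := by
        intro i hi
        rw [PiLp.sub_apply, hzw i hi, sub_self]
      rw [hsub, (blk b k).map_add, (blk b k).map_smul, (blk b k).map_smul]
      have e1 := angle_low (blk b k (z - w)) (blk b k (A (z - w))) δ Lam t hδ hδ1 hLam ht
        (hAblk k _ hzw') (hangA k _ hzw')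
      have e2 : Lam / √(δ / 2) * (√(δ / 2) / Lam * ‖blk b k (z - w)‖) = ‖blk b k (z - w)‖ := by
        field_simp
      calc ‖blk b k (z - w)‖ = _ := e2.symm
        _ ≤ _ := mul_le_mul_of_nonneg_left e1 (by positivity)) v 0
  simpa using key

end Pool.Agent.Lib.MP_f171f2_an
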