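import Mathlib

/-!
Lipschitz curves of linear isometries are products of two curves of half the speed.
-/

set_option autoImplicit false

open Set Filter Topology

namespace Pool.Agent.Lib.MP_f171f2_an

variable {E : Type*} [NormedAddCommGroup E] [InnerProductSpace ℝ E] [FiniteDimensional ℝ E]

/-- The half `(3 g + 1) (g + 3)⁻¹` of a linear isometry `g`. -/
theorem half (g : E ≃ₗᵢ[ℝ] E) (τ : ℝ) (h : ∀ x, ‖g x - x‖ ≤ τ * ‖x‖) :
    ∃ c : E ≃ₗᵢ[ℝ] E, (∀ x, ‖c x - x‖ ≤ (τ / 2 + τ ^ 2 / 4) * ‖x‖) ∧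
      ∀ x, ‖(g * c⁻¹) x - x‖ ≤ (τ / 2 + τ ^ 2 / 4) * ‖x‖ := by
  -- the linear map `u = g + 3`
  set u : E →ₗ[ℝ] E := (g.toLinearEquiv : E →ₗ[ℝ] E) + (3 : ℝ) • LinearMap.id with hu
  have hux : ∀ x, u x = g x + (3 : ℝ) • x := fun x => rfl
  have hinj : Function.Injective u := by
    rw [← LinearMap.ker_eq_bot, LinearMap.ker_eq_bot']
    intro x hx
    rw [hux] at hx
    have h1 : g x = -((3 : ℝ) • x) := eq_neg_of_add_eq_zero_left hx
    have h2 : ‖g x‖ = 3 * ‖x‖ := by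
      rw [h1, norm_neg, norm_smul]
      norm_num
    rw [g.norm_map] at h2
    have h3 : ‖x‖ = 0 := by linarith [norm_nonneg x]
    exact norm_eq_zero.1 h3
  set e : E ≃ₗ[ℝ] E := LinearEquiv.ofInjectiveEndo u hinj with he
  have hex : ∀ x, e x = g x + (3 : ℝ) • x := fun x => rfl
  have hnorm : ∀ x, ‖(3 : ℝ) • g x + x‖ = ‖g x + (3 : ℝ) • x‖ := by
    intro x
    have h1 : ‖(3 : ℝ) • g x + x‖ ^ 2 = ‖g x + (3 : ℝ) • x‖ ^ 2 := by
      rw [norm_add_sq_real, norm_add_sq_real, norm_smul, norm_smul, inner_smul_left,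
        inner_smul_right, g.norm_map]
      simp only [conj_trivial]
      ring
    exact (sq_eq_sq₀ (norm_nonneg _) (norm_nonneg _)).1 h1
  set cl : E →ₗ[ℝ] E :=
    ((3 : ℝ) • (g.toLinearEquiv : E →ₗ[ℝ] E) + LinearMap.id) ∘ₗ (e.symm : E →ₗ[ℝ] E) with hcl
  have hclx : ∀ x, cl (e x) = (3 : ℝ) • g x + x := by
    intro x
    change (3 : ℝ) • g (e.symm (e x)) + e.symm (e x) = _
    rw [e.symm_apply_apply]
  set li : E →ₗᵢ[ℝ] E := ⟨cl, by
    intro y
    obtain ⟨x, rfl⟩ := e.surjective y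
    rw [hclx, hex, hnorm]⟩ with hli
  set c : E ≃ₗᵢ[ℝ] E := li.toLinearIsometryEquiv rfl with hc
  have hcx : ∀ x, c (g x + (3 : ℝ) • x) = (3 : ℝ) • g x + x := fun x => hclx x
  have h4 : ∀ x, (4 : ℝ) • c x = (3 : ℝ) • g x + x - c (g x - x) := by
    intro x
    have h2 : c (g x + (3 : ℝ) • x) = (3 : ℝ) • g x + x := hcx x
    have h3 : g x + (3 : ℝ) • x = (g x - x) + (4 : ℝ) • x := by
      module
    rw [h3, map_add, map_smul] at h2
    rw [← h2]
    abel
  have h5 : ∀ x, (4 : ℝ) • (c x - x) = (2 : ℝ) • (g x - x) - (c (g x - x) - (g x - x)) := by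
    intro x
    rw [smul_sub, h4]
    module
  have h6 : ∀ x, (4 : ℝ) • (g x - c x) = (2 : ℝ) • (g x - x) + (c (g x - x) - (g x - x)) := by
    intro x
    rw [smul_sub, h4]
    module
  -- a first crude bound
  have hcrude : ∀ x, ‖c x - x‖ ≤ τ * ‖x‖ := by
    intro x
    have e1 : ‖(4 : ℝ) • (c x - x)‖ = 4 * ‖c x - x‖ := by
      rw [norm_smul]
      norm_num
    have e2 : ‖(2 : ℝ) • (g x - x)‖ = 2 * ‖g x - x‖ := by
      rw [norm_smul]
      norm_num
    have e3 : ‖c (g x - x) - (g x - x)‖ ≤ ‖g x - x‖ + ‖g x - x‖ := by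
      refine (norm_sub_le _ _).trans ?_
      rw [c.norm_map]
    have e4 := norm_sub_le ((2 : ℝ) • (g x - x)) (c (g x - x) - (g x - x))
    rw [← h5, e1, e2] at e4
    have := h x
    linarith
  have hfine : ∀ x, ‖c (g x - x) - (g x - x)‖ ≤ τ ^ 2 * ‖x‖ := by
    intro x
    calc ‖c (g x - x) - (g x - x)‖ ≤ τ * ‖g x - x‖ := hcrude _
      _ ≤ τ * (τ * ‖x‖) := by
        rcases (norm_nonneg x).eq_or_lt with h0 | h0
        · have h1 := h x
          rw [← h0, mul_zero] at h1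
          have h2 : ‖g x - x‖ = 0 := le_antisymm h1 (norm_nonneg _)
          rw [h2, ← h0]
          simp
        · have hτ0 : 0 ≤ τ := by
            by_contra hneg
            push Not at hneg
            have h1 := h x
            have h2 : τ * ‖x‖ < 0 := mul_neg_of_neg_of_pos hneg h0
            linarith [norm_nonneg (g x - x)]
          exact mul_le_mul_of_nonneg_left (h x) hτ0
      _ = _ := by ring
  refine ⟨c, ?_, ?_⟩
  · intro x
    have e1 : ‖(4 : ℝ) • (c x - x)‖ = 4 * ‖c x - x‖ := by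
      rw [norm_smul]
      norm_num
    have e2 : ‖(2 : ℝ) • (g x - x)‖ = 2 * ‖g x - x‖ := by
      rw [norm_smul]
      norm_num
    have e4 := norm_sub_le ((2 : ℝ) • (g x - x)) (c (g x - x) - (g x - x))
    rw [← h5, e1, e2] at e4
    have := h x
    have := hfine x
    linarith
  · intro y
    set x := c.symm y with hx
    have hy : y = c x := (c.apply_symm_apply y).symm
    have hgy : (g * c⁻¹) y = g x := rfl
    have hyn : ‖y‖ = ‖x‖ := by rw [hy, c.norm_map]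
    rw [hgy, hyn, hy]
    have e1 : ‖(4 : ℝ) • (g x - c x)‖ = 4 * ‖g x - c x‖ := by
      rw [norm_smul]
      norm_num
    have e2 : ‖(2 : ℝ) • (g x - x)‖ = 2 * ‖g x - x‖ := by
      rw [norm_smul]
      norm_num
    have e4 := norm_add_le ((2 : ℝ) • (g x - x)) (c (g x - x) - (g x - x))
    rw [← h6, e1, e2] at e4
    have := h x
    have := hfine x
    linarith

/-- The difference of two linear isometries is at most `τ`. -/
def Near (τ : ℝ) (g h : E ≃ₗᵢ[ℝ] E) : Prop := ∀ x, ‖g x - h x‖ ≤ τ * ‖x‖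

/-- Limits along an ultrafilter of bounded sequences. -/
theorem ulim (v : ℕ → E) (R : ℝ) (hv : ∀ n, ‖v n‖ ≤ R) :
    ∃ L, Tendsto v (hyperfilter ℕ : Filter ℕ) (𝓝 L) := by
  have h1 : ((hyperfilter ℕ).map v : Filter E) ≤ 𝓟 (Metric.closedBall 0 R) := by
    rw [Ultrafilter.coe_map, Filter.le_principal_iff, Filter.mem_map]
    apply Filter.Eventually.of_forall
    intro n
    exact mem_closedBall_zero_iff.2 (hv n)
  obtain ⟨L, -, hL⟩ := (isCompact_closedBall (0 : E) R).ultrafilter_le_nhds _ h1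
  exact ⟨L, hL⟩

/-- An ultrafilter limit of linear isometries is a linear isometry. -/
theorem ulim_isometry (G : ℕ → (E ≃ₗᵢ[ℝ] E)) :
    ∃ D : E ≃ₗᵢ[ℝ] E, ∀ x, Tendsto (fun n => G n x) (hyperfilter ℕ : Filter ℕ) (𝓝 (D x)) := by
  have h1 : ∀ x, ∃ L, Tendsto (fun n => G n x) (hyperfilter ℕ : Filter ℕ) (𝓝 L) := fun x =>
    ulim _ ‖x‖ fun n => by rw [(G n).norm_map]
  choose d hd using h1
  set li : E →ₗᵢ[ℝ] E :=
    { toFun := d
      map_add' := by
        intro x y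
        have e1 := (hd x).add (hd y)
        have e2 := hd (x + y)
        simp only [map_add] at e2
        exact tendsto_nhds_unique e2 e1
      map_smul' := by
        intro r x
        have e1 := (hd x).const_smul r
        have e2 := hd (r • x)
        simp only [map_smul] at e2
        exact tendsto_nhds_unique e2 e1
      norm_map' := by
        intro x
        have e1 := (hd x).norm
        simp only [LinearIsometryEquiv.norm_map] at e1
        exact tendsto_nhds_unique e1 tendsto_const_nhds } with hli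
  exact ⟨li.toLinearIsometryEquiv rfl, fun x => hd x⟩

/-- The halved product along a grid. -/
theorem grid_product (g : ℕ → (E ≃ₗᵢ[ℝ] E)) (τ : ℝ) (h : ∀ i, Near τ (g (i + 1)) (g i)) :
    ∃ P Q : ℕ → (E ≃ₗᵢ[ℝ] E), (∀ i, g i = Q i * P i) ∧
      (∀ i, Near (τ / 2 + τ ^ 2 / 4) (P (i + 1)) (P i)) ∧
      ∀ i, Near (τ / 2 + τ ^ 2 / 4) (Q (i + 1)) (Q i) := by
  have h1 : ∀ i, ∃ c : E ≃ₗᵢ[ℝ] E, (∀ x, ‖c x - x‖ ≤ (τ / 2 + τ ^ 2 / 4) * ‖x‖) ∧
      ∀ x, ‖(((g i)⁻¹ * g (i + 1)) * c⁻¹) x - x‖ ≤ (τ / 2 + τ ^ 2 / 4) * ‖x‖ := by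
    intro i
    apply half
    intro x
    have e1 : ((g i)⁻¹ * g (i + 1)) x - x = (g i)⁻¹ (g (i + 1) x - g i x) := by
      rw [map_sub]
      congr 1
      exact ((g i).symm_apply_apply x).symm
    rw [e1, LinearIsometryEquiv.norm_map]
    exact h i x
  choose c hc hc' using h1
  set P : ℕ → (E ≃ₗᵢ[ℝ] E) := fun i => Nat.rec 1 (fun i p => p * c i) i with hP
  have hPs : ∀ i, P (i + 1) = P i * c i := fun i => rfl
  refine ⟨P, fun i => g i * (P i)⁻¹, ?_, ?_, ?_⟩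
  · intro i
    rw [inv_mul_cancel_right]
  · intro i x
    rw [hPs]
    change ‖P i (c i x) - P i x‖ ≤ _
    rw [← map_sub, LinearIsometryEquiv.norm_map]
    exact hc i x
  · intro i x
    set y := (P i)⁻¹ x with hy
    have hyn : ‖x‖ = ‖y‖ := by rw [hy, LinearIsometryEquiv.norm_map]
    have e1 : (g (i + 1) * (P (i + 1))⁻¹) x =
        g i ((((g i)⁻¹ * g (i + 1)) * (c i)⁻¹) y) := by
      rw [hPs, mul_inv_rev]
      change g (i + 1) ((c i)⁻¹ ((P i)⁻¹ x)) = g i ((g i).symm (g (i + 1) ((c i)⁻¹ y)))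
      rw [(g i).apply_symm_apply]
    have e2 : (g i * (P i)⁻¹) x = g i y := rfl
    rw [e1, e2, ← map_sub, LinearIsometryEquiv.norm_map, hyn]
    exact hc' i y

theorem near_iter (P : ℕ → (E ≃ₗᵢ[ℝ] E)) (κ : ℝ) (h : ∀ i, Near κ (P (i + 1)) (P i)) (i j : ℕ) :
    Near (κ * |(i : ℝ) - j|) (P i) (P j) := by
  have key : ∀ a d : ℕ, Near (κ * d) (P (a + d)) (P a) := by
    intro a d
    induction d with
    | zero =>
      intro x
      simp
    | succ d ih =>
      intro x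
      have e1 := h (a + d) x
      have e2 := ih x
      have e3 : ‖P (a + (d + 1)) x - P a x‖ ≤
          ‖P (a + d + 1) x - P (a + d) x‖ + ‖P (a + d) x - P a x‖ :=
        norm_sub_le_norm_sub_add_norm_sub _ _ _
      push_cast
      linarith
  rcases le_total i j with hij | hij
  · obtain ⟨d, rfl⟩ := Nat.exists_eq_add_of_le hij
    intro x
    have e1 := key i d x
    rw [norm_sub_rev] at e1
    have e2 : |(i : ℝ) - ((i + d : ℕ) : ℝ)| = d := by
      push_cast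
      rw [sub_add_cancel_left, abs_neg, abs_of_nonneg (by positivity)]
    rw [e2]
    exact e1
  · obtain ⟨d, rfl⟩ := Nat.exists_eq_add_of_le hij
    intro x
    have e1 := key j d x
    have e2 : |((j + d : ℕ) : ℝ) - (j : ℝ)| = d := by
      push_cast
      rw [add_sub_cancel_left, abs_of_nonneg (by positivity)]
    rw [e2]
    exact e1

/-- **Halving the speed.** A `C`-Lipschitz curve of linear isometries is the product of two
`C / 2`-Lipschitz curves. -/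
theorem split_curve (A : ℝ → (E ≃ₗᵢ[ℝ] E)) (C : ℝ) (hC : 0 ≤ C)
    (hA : ∀ s t, Near (C * |s - t|) (A s) (A t)) :
    ∃ B D : ℝ → (E ≃ₗᵢ[ℝ] E), (∀ s, A s = B s * D s) ∧
      (∀ s t, Near (C / 2 * |s - t|) (B s) (B t)) ∧
      ∀ s t, Near (C / 2 * |s - t|) (D s) (D t) := by
  -- the grids
  have hgrid : ∀ N : ℕ, ∃ P Q : ℕ → (E ≃ₗᵢ[ℝ] E),
      (∀ i : ℕ, A (-(N + 1 : ℝ) + i / (N + 1 : ℝ)) = Q i * P i) ∧
      (∀ i, Near (C / (N + 1 : ℝ) / 2 + (C / (N + 1 : ℝ)) ^ 2 / 4) (P (i + 1)) (P i)) ∧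
      ∀ i, Near (C / (N + 1 : ℝ) / 2 + (C / (N + 1 : ℝ)) ^ 2 / 4) (Q (i + 1)) (Q i) := by
    intro N
    apply grid_product (fun i : ℕ => A (-(N + 1 : ℝ) + i / (N + 1 : ℝ))) (C / (N + 1 : ℝ))
    intro i x
    have h1 := hA (-(N + 1 : ℝ) + ((i + 1 : ℕ) : ℝ) / (N + 1 : ℝ))
      (-(N + 1 : ℝ) + i / (N + 1 : ℝ)) x
    have h2 : |(-(N + 1 : ℝ) + ((i + 1 : ℕ) : ℝ) / (N + 1 : ℝ)) -
        (-(N + 1 : ℝ) + i / (N + 1 : ℝ))| = 1 / (N + 1 : ℝ) := by
      push_cast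
      rw [abs_of_nonneg]
      · ring
      · have : (-(N + 1 : ℝ) + ((i : ℝ) + 1) / (N + 1 : ℝ)) - (-(N + 1 : ℝ) + i / (N + 1 : ℝ)) =
            1 / (N + 1 : ℝ) := by ring
        rw [this]
        positivity
    rw [h2, mul_one_div] at h1
    exact h1
  choose P Q hPQ hP hQ using hgrid
  set idx : ℕ → ℝ → ℕ := fun N s => ⌊(s + (N + 1 : ℝ)) * (N + 1 : ℝ)⌋₊ with hidx
  have hlimD : ∀ s, ∃ D : E ≃ₗᵢ[ℝ] E, ∀ x,
      Tendsto (fun N => P N (idx N s) x) (hyperfilter ℕ : Filter ℕ) (𝓝 (D x)) := fun s =>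
    ulim_isometry _
  have hlimB : ∀ s, ∃ B : E ≃ₗᵢ[ℝ] E, ∀ x,
      Tendsto (fun N => Q N (idx N s) x) (hyperfilter ℕ : Filter ℕ) (𝓝 (B x)) := fun s =>
    ulim_isometry _
  choose D hD using hlimD
  choose B hB using hlimB
  have hup : (hyperfilter ℕ : Filter ℕ) ≤ atTop := Nat.hyperfilter_le_atTop
  -- bounds for the index
  have hidx1 : ∀ s : ℝ, ∀ᶠ N : ℕ in atTop, (idx N s : ℝ) ≤ (s + (N + 1 : ℝ)) * (N + 1 : ℝ) ∧
      (s + (N + 1 : ℝ)) * (N + 1 : ℝ) < idx N s + 1 := by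
    intro s
    filter_upwards [tendsto_natCast_atTop_atTop.eventually_ge_atTop (-s)] with N hN
    have h0 : 0 ≤ (s + (N + 1 : ℝ)) * (N + 1 : ℝ) := by
      apply mul_nonneg
      · linarith
      · positivity
    exact ⟨Nat.floor_le h0, Nat.lt_floor_add_one _⟩
  have hidx2 : ∀ s t : ℝ, ∀ᶠ N : ℕ in atTop,
      |(idx N s : ℝ) - idx N t| ≤ |s - t| * (N + 1 : ℝ) + 1 := by
    intro s t
    filter_upwards [hidx1 s, hidx1 t] with N hs ht
    have h1 : (s + (N + 1 : ℝ)) * (N + 1 : ℝ) - (t + (N + 1 : ℝ)) * (N + 1 : ℝ) =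
        (s - t) * (N + 1 : ℝ) := by ring
    have h2 : (s - t) * (N + 1 : ℝ) ≤ |s - t| * (N + 1 : ℝ) :=
      mul_le_mul_of_nonneg_right (le_abs_self _) (by positivity)
    have h3 : -(|s - t| * (N + 1 : ℝ)) ≤ (s - t) * (N + 1 : ℝ) := by
      rw [← neg_mul]
      exact mul_le_mul_of_nonneg_right (neg_abs_le _) (by positivity)
    rw [abs_le]
    constructor <;> linarith [hs.1, hs.2, ht.1, ht.2]
  have hlimκ : ∀ d : ℝ, Tendsto (fun N : ℕ => (C / (N + 1 : ℝ) / 2 + (C / (N + 1 : ℝ)) ^ 2 / 4) *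
      (d * (N + 1 : ℝ) + 1)) atTop (𝓝 (C / 2 * d)) := by
    intro d
    have h1 : ∀ N : ℕ, (C / (N + 1 : ℝ) / 2 + (C / (N + 1 : ℝ)) ^ 2 / 4) *
        (d * (N + 1 : ℝ) + 1) = C / 2 * d + (C ^ 2 * d / 4 + C / 2) * (1 / (N + 1 : ℝ)) +
          C ^ 2 / 4 * ((1 / (N + 1 : ℝ)) * (1 / (N + 1 : ℝ))) := by
      intro N
      have : (N + 1 : ℝ) ≠ 0 := by positivity
      field_simp
      ring
    simp_rw [h1]
    have h2 : Tendsto (fun N : ℕ => 1 / (N + 1 : ℝ)) atTop (𝓝 0) :=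
      tendsto_one_div_add_atTop_nhds_zero_nat
    have h3 := (tendsto_const_nhds (x := C / 2 * d)).add (h2.const_mul (C ^ 2 * d / 4 + C / 2))
    have h4 := h3.add ((h2.mul h2).const_mul (C ^ 2 / 4))
    simpa using h4
  have hlip : ∀ (G : ℕ → ℕ → (E ≃ₗᵢ[ℝ] E)) (g : ℝ → (E ≃ₗᵢ[ℝ] E)),
      (∀ (N i : ℕ), Near (C / (N + 1 : ℝ) / 2 + (C / (N + 1 : ℝ)) ^ 2 / 4) (G N (i + 1)) (G N i)) →
      (∀ s x, Tendsto (fun N => G N (idx N s) x) (hyperfilter ℕ : Filter ℕ) (𝓝 (g s x))) →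
      ∀ s t, Near (C / 2 * |s - t|) (g s) (g t) := by
    intro G g hG hg s t x
    have h1 : Tendsto (fun N => ‖G N (idx N s) x - G N (idx N t) x‖) (hyperfilter ℕ : Filter ℕ)
        (𝓝 ‖g s x - g t x‖) := ((hg s x).sub (hg t x)).norm
    have h2 : Tendsto (fun N : ℕ => (C / (N + 1 : ℝ) / 2 + (C / (N + 1 : ℝ)) ^ 2 / 4) *
      (|s - t| * (N + 1 : ℝ) + 1) * ‖x‖) (hyperfilter ℕ : Filter ℕ)
        (𝓝 (C / 2 * |s - t| * ‖x‖)) := ((hlimκ |s - t|).mono_left hup).mul_const _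
    apply le_of_tendsto_of_tendsto h1 h2
    filter_upwards [hup (hidx2 s t)] with N hN
    have h3 := near_iter (G N) _ (hG N) (idx N s) (idx N t) x
    refine h3.trans ?_
    apply mul_le_mul_of_nonneg_right _ (norm_nonneg _)
    apply mul_le_mul_of_nonneg_left hN
    positivity
  refine ⟨B, D, ?_, hlip Q B (fun N => hQ N) hB, hlip P D (fun N => hP N) hD⟩
  intro s
  ext x
  -- `Q N (P N x)` tends to both sides
  have h1 : Tendsto (fun N => Q N (idx N s) (P N (idx N s) x)) (hyperfilter ℕ : Filter ℕ)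
      (𝓝 (B s (D s x))) := by
    have e1 : Tendsto (fun N => Q N (idx N s) (D s x)) (hyperfilter ℕ : Filter ℕ)
        (𝓝 (B s (D s x))) := hB s (D s x)
    have e2 : Tendsto (fun N => Q N (idx N s) (P N (idx N s) x - D s x))
        (hyperfilter ℕ : Filter ℕ) (𝓝 0) := by
      rw [tendsto_zero_iff_norm_tendsto_zero]
      simp only [LinearIsometryEquiv.norm_map]
      have e3 := ((hD s x).sub_const (D s x)).norm
      simpa using e3
    have e4 := e2.add e1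
    rw [zero_add] at e4
    refine e4.congr fun N => ?_
    rw [map_sub, sub_add_cancel]
  have h2 : Tendsto (fun N => Q N (idx N s) (P N (idx N s) x)) (hyperfilter ℕ : Filter ℕ)
      (𝓝 (A s x)) := by
    have e1 : ∀ N, Q N (idx N s) (P N (idx N s) x) =
        A (-(N + 1 : ℝ) + (idx N s : ℝ) / (N + 1 : ℝ)) x := by
      intro N
      rw [hPQ N (idx N s)]
      rfl
    simp_rw [e1]
    rw [tendsto_iff_norm_sub_tendsto_zero]
    have e2 : Tendsto (fun N : ℕ => C * (1 / (N + 1 : ℝ)) * ‖x‖) (hyperfilter ℕ : Filter ℕ)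
        (𝓝 0) := by
      have e3 : Tendsto (fun N : ℕ => 1 / (N + 1 : ℝ)) (hyperfilter ℕ : Filter ℕ) (𝓝 0) :=
        (tendsto_one_div_add_atTop_nhds_zero_nat).mono_left hup
      have e4 := (e3.const_mul C).mul_const ‖x‖
      simpa using e4
    apply squeeze_zero' (Filter.Eventually.of_forall fun N => norm_nonneg _) _ e2
    filter_upwards [hup (hidx1 s)] with N hN
    refine (hA _ _ x).trans ?_
    apply mul_le_mul_of_nonneg_right _ (norm_nonneg _)
    apply mul_le_mul_of_nonneg_left _ hC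
    have hN0 : (0 : ℝ) < N + 1 := by positivity
    have e5 : (-(N + 1 : ℝ) + (idx N s : ℝ) / (N + 1 : ℝ)) - s =
        ((idx N s : ℝ) - (s + (N + 1 : ℝ)) * (N + 1 : ℝ)) / (N + 1 : ℝ) := by
      field_simp
      ring
    rw [e5, abs_div, abs_of_pos hN0]
    apply div_le_div_of_nonneg_right _ hN0.le
    rw [abs_le]
    constructor <;> linarith [hN.1, hN.2]
  exact tendsto_nhds_unique h2 h1

end Pool.Agent.Lib.MP_f171f2_an
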