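import Mathlib
import Pool.Agent.Lib.MP_f171f2_an.Curve

/-!
Spiral maps and radial maps.
-/

set_option autoImplicit false

open Set Filter Topology

namespace Pool.Agent.Lib.MP_f171f2_an

section curves

variable {E : Type*} [NormedAddCommGroup E] [InnerProductSpace ℝ E] [FiniteDimensional ℝ E]

theorem split_pow (p : ℕ) : ∀ (A : ℝ → (E ≃ₗᵢ[ℝ] E)) (C : ℝ), 0 ≤ C →
    (∀ s t, Near (C * |s - t|) (A s) (A t)) →
    ∃ l : List (ℝ → (E ≃ₗᵢ[ℝ] E)), l.length = 2 ^ p ∧
      (∀ B ∈ l, ∀ s t, Near (C / 2 ^ p * |s - t|) (B s) (B t)) ∧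
      ∀ s, A s = (l.map (fun B => B s)).prod := by
  induction p with
  | zero =>
    intro A C _ hA
    refine ⟨[A], rfl, ?_, ?_⟩
    · intro B hB s t
      rw [List.mem_singleton] at hB
      rw [hB, pow_zero, div_one]
      exact hA s t
    · intro s
      simp
  | succ p ih =>
    intro A C hC hA
    obtain ⟨B, D, hAB, hB, hD⟩ := split_curve A C hC hA
    obtain ⟨l₁, h1, h2, h3⟩ := ih B (C / 2) (by positivity) hB
    obtain ⟨l₂, h1', h2', h3'⟩ := ih D (C / 2) (by positivity) hD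
    refine ⟨l₁ ++ l₂, ?_, ?_, ?_⟩
    · rw [List.length_append, h1, h1', pow_succ]
      ring
    · intro G hG s t
      have e : C / 2 ^ (p + 1) = C / 2 / 2 ^ p := by
        rw [pow_succ]
        field_simp
      rw [e]
      rcases List.mem_append.1 hG with h | h
      · exact h2 G h s t
      · exact h2' G h s t
    · intro s
      rw [List.map_append, List.prod_append, ← h3, ← h3', hAB]

end curves

section spirals

variable {E : Type*} [NormedAddCommGroup E] [InnerProductSpace ℝ E]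

theorem log_norm_le (x y : E) (hx : x ≠ 0) (hy : y ≠ 0) (hxy : ‖y‖ ≤ ‖x‖) :
    |Real.log ‖x‖ - Real.log ‖y‖| * ‖y‖ ≤ ‖x - y‖ := by
  have hx' : 0 < ‖x‖ := norm_pos_iff.2 hx
  have hy' : 0 < ‖y‖ := norm_pos_iff.2 hy
  rw [abs_of_nonneg (sub_nonneg.2 (Real.log_le_log hy' hxy)), ← Real.log_div hx'.ne' hy'.ne']
  have h1 := Real.log_le_sub_one_of_pos (div_pos hx' hy')
  calc Real.log (‖x‖ / ‖y‖) * ‖y‖ ≤ (‖x‖ / ‖y‖ - 1) * ‖y‖ :=
        mul_le_mul_of_nonneg_right h1 hy'.le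
    _ = ‖x‖ - ‖y‖ := by field_simp
    _ ≤ ‖x - y‖ := norm_sub_norm_le x y

theorem spiral_lip (B : ℝ → (E ≃ₗᵢ[ℝ] E)) (C : ℝ) (hC : 0 ≤ C)
    (hB : ∀ s t, Near (C * |s - t|) (B s) (B t)) (x y : E) :
    ‖B (Real.log ‖x‖) x - B (Real.log ‖y‖) y‖ ≤ (1 + C) * ‖x - y‖ := by
  have hn : ‖x - y‖ ≤ (1 + C) * ‖x - y‖ := by
    have := norm_nonneg (x - y)
    nlinarith
  by_cases hx : x = 0
  · subst hx
    rw [map_zero, zero_sub, norm_neg, LinearIsometryEquiv.norm_map]
    simpa using hn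
  by_cases hy : y = 0
  · subst hy
    rw [map_zero, sub_zero, LinearIsometryEquiv.norm_map]
    simpa using hn
  have key : ∀ x y : E, x ≠ 0 → y ≠ 0 → ‖y‖ ≤ ‖x‖ →
      ‖B (Real.log ‖x‖) x - B (Real.log ‖y‖) y‖ ≤ (1 + C) * ‖x - y‖ := by
    intro x y hx hy hxy
    have e1 : B (Real.log ‖x‖) x - B (Real.log ‖y‖) y =
        B (Real.log ‖x‖) (x - y) + (B (Real.log ‖x‖) y - B (Real.log ‖y‖) y) := by
      rw [map_sub]
      abel
    rw [e1]
    refine (norm_add_le _ _).trans ?_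
    rw [LinearIsometryEquiv.norm_map]
    have e2 := hB (Real.log ‖x‖) (Real.log ‖y‖) y
    have e3 := mul_le_mul_of_nonneg_left (log_norm_le x y hx hy hxy) hC
    linarith
  rcases le_total ‖y‖ ‖x‖ with h | h
  · exact key x y hx hy h
  · rw [norm_sub_rev, norm_sub_rev x y]
    exact key y x hy hx h

theorem near_inv {τ : ℝ} {g h : E ≃ₗᵢ[ℝ] E} (H : Near τ g h) : Near τ g⁻¹ h⁻¹ := by
  intro x
  set w := h⁻¹ x with hw
  have e1 : g⁻¹ x - w = g⁻¹ (h w - g w) := by
    rw [map_sub]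
    congr 1
    · rw [hw]
      congr 1
      exact (h.apply_symm_apply x).symm
    · exact (g.symm_apply_apply w).symm
  rw [e1, LinearIsometryEquiv.norm_map, norm_sub_rev]
  have e2 : ‖x‖ = ‖w‖ := by rw [hw, LinearIsometryEquiv.norm_map]
  rw [e2]
  exact H w

/-- A Lipschitz curve of linear isometries gives a bi-Lipschitz homeomorphism. -/
theorem spiral (B : ℝ → (E ≃ₗᵢ[ℝ] E)) (C : ℝ) (hC : 0 ≤ C)
    (hB : ∀ s t, Near (C * |s - t|) (B s) (B t)) :
    ∃ S : E ≃ₜ E, (∀ x, S x = B (Real.log ‖x‖) x) ∧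
      ∀ x y, ‖S x - S y‖ ≤ (1 + C) * ‖x - y‖ ∧ ‖x - y‖ ≤ (1 + C) * ‖S x - S y‖ := by
  have hB' : ∀ s t, Near (C * |s - t|) ((B s)⁻¹) ((B t)⁻¹) := fun s t => near_inv (hB s t)
  have hl : ∀ x, (B (Real.log ‖B (Real.log ‖x‖) x‖))⁻¹ (B (Real.log ‖x‖) x) = x := by
    intro x
    rw [LinearIsometryEquiv.norm_map]
    exact (B (Real.log ‖x‖)).symm_apply_apply x
  have hr : ∀ x, B (Real.log ‖(B (Real.log ‖x‖))⁻¹ x‖) ((B (Real.log ‖x‖))⁻¹ x) = x := by
    intro x
    rw [LinearIsometryEquiv.norm_map]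
    exact (B (Real.log ‖x‖)).apply_symm_apply x
  have hlip := spiral_lip B C hC hB
  have hlip' := spiral_lip (fun s => (B s)⁻¹) C hC hB'
  have hcont : Continuous fun x => B (Real.log ‖x‖) x := by
    apply LipschitzWith.continuous (K := ⟨1 + C, by linarith⟩)
    apply LipschitzWith.of_dist_le_mul
    intro x y
    rw [dist_eq_norm, dist_eq_norm]
    exact hlip x y
  have hcont' : Continuous fun x => (B (Real.log ‖x‖))⁻¹ x := by
    apply LipschitzWith.continuous (K := ⟨1 + C, by linarith⟩)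
    apply LipschitzWith.of_dist_le_mul
    intro x y
    rw [dist_eq_norm, dist_eq_norm]
    exact hlip' x y
  refine ⟨⟨⟨fun x => B (Real.log ‖x‖) x, fun x => (B (Real.log ‖x‖))⁻¹ x, hl, hr⟩, hcont, hcont'⟩,
    fun x => rfl, fun x y => ⟨hlip x y, ?_⟩⟩
  have h1 := hlip' (B (Real.log ‖x‖) x) (B (Real.log ‖y‖) y)
  rw [hl, hl] at h1
  exact h1

/-- The product of the spirals of a list of slow curves. -/
theorem spiral_list (l : List (ℝ → (E ≃ₗᵢ[ℝ] E))) (C : ℝ) (hC : 0 ≤ C)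
    (hl : ∀ B ∈ l, ∀ s t, Near (C * |s - t|) (B s) (B t)) :
    ∃ L : List (E ≃ₜ E), L.length = l.length ∧
      (∀ S ∈ L, ∀ x y, ‖S x - S y‖ ≤ (1 + C) * ‖x - y‖ ∧ ‖x - y‖ ≤ (1 + C) * ‖S x - S y‖) ∧
      ∀ x, L.prod x = (l.map (fun B => B (Real.log ‖x‖))).prod x := by
  induction l with
  | nil => exact ⟨[], rfl, by simp, fun x => rfl⟩
  | cons B l ih =>
    obtain ⟨L, h1, h2, h3⟩ := ih fun G hG => hl G (List.mem_cons_of_mem _ hG)
    obtain ⟨S, hS, hSl⟩ := spiral B C hC (hl B List.mem_cons_self)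
    refine ⟨S :: L, by simp [h1], ?_, ?_⟩
    · intro G hG
      rcases List.mem_cons.1 hG with h | h
      · rw [h]
        exact hSl
      · exact h2 G h
    · intro x
      rw [List.prod_cons, List.map_cons, List.prod_cons]
      change S (L.prod x) = B (Real.log ‖x‖) ((l.map (fun B => B (Real.log ‖x‖))).prod x)
      rw [hS, h3, LinearIsometryEquiv.norm_map]

end spirals

section radial

variable {E : Type*} [NormedAddCommGroup E] [InnerProductSpace ℝ E]

/-- The radial map with profile `exp ∘ σ ∘ log`. -/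
noncomputable def rad (σ : ℝ → ℝ) (x : E) : E := (Real.exp (σ (Real.log ‖x‖)) / ‖x‖) • x

theorem rad_zero (σ : ℝ → ℝ) : rad σ (0 : E) = 0 := by
  simp [rad]

theorem norm_rad (σ : ℝ → ℝ) {x : E} (hx : x ≠ 0) :
    ‖rad σ x‖ = Real.exp (σ (Real.log ‖x‖)) := by
  have hx' : 0 < ‖x‖ := norm_pos_iff.2 hx
  rw [rad, norm_smul, Real.norm_of_nonneg (by positivity)]
  field_simp

theorem rad_ne_zero (σ : ℝ → ℝ) {x : E} (hx : x ≠ 0) : rad σ x ≠ 0 := by
  rw [← norm_pos_iff, norm_rad σ hx]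
  exact Real.exp_pos _

theorem rad_rad (σ τ : ℝ → ℝ) (x : E) : rad τ (rad σ x) = rad (fun s => τ (σ s)) x := by
  by_cases hx : x = 0
  · rw [hx, rad_zero, rad_zero, rad_zero]
  · have hx' : 0 < ‖x‖ := norm_pos_iff.2 hx
    have h1 : rad τ (rad σ x) =
        (Real.exp (τ (Real.log ‖rad σ x‖)) / ‖rad σ x‖) • rad σ x := rfl
    rw [h1, norm_rad σ hx, Real.log_exp, rad, smul_smul, rad]
    congr 1
    have := Real.exp_pos (σ (Real.log ‖x‖))
    field_simp

theorem rad_id (x : E) : rad (fun s => s) x = x := by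
  by_cases hx : x = 0
  · rw [hx, rad_zero]
  · have hx' : 0 < ‖x‖ := norm_pos_iff.2 hx
    rw [rad, Real.exp_log hx', div_self hx'.ne', one_smul]

theorem rad_continuous (σ : ℝ ≃o ℝ) : Continuous (rad (E := E) σ) := by
  rw [continuous_iff_continuousAt]
  intro x
  by_cases hx : x = 0
  · subst hx
    rw [continuousAt_iff_punctured_nhds, rad_zero, tendsto_zero_iff_norm_tendsto_zero]
    have h1 : Tendsto (fun y : E => Real.exp (σ (Real.log ‖y‖))) (𝓝[≠] 0) (𝓝 0) := by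
      have e1 : Tendsto (fun y : E => Real.log ‖y‖) (𝓝[≠] 0) atBot :=
        Real.tendsto_log_nhdsGT_zero.comp tendsto_norm_nhdsNE_zero
      exact Real.tendsto_exp_atBot.comp (σ.tendsto_atBot.comp e1)
    refine h1.congr' ?_
    filter_upwards [self_mem_nhdsWithin] with y hy
    exact (norm_rad σ hy).symm
  · have hx' : ‖x‖ ≠ 0 := norm_ne_zero_iff.2 hx
    have e1 : ContinuousAt (fun y : E => Real.log ‖y‖) x :=
      continuous_norm.continuousAt.log hx'
    have e2 : ContinuousAt (fun y : E => Real.exp (σ (Real.log ‖y‖))) x :=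
      Real.continuous_exp.continuousAt.comp (σ.continuous.continuousAt.comp e1)
    exact (e2.div continuous_norm.continuousAt hx').smul continuousAt_id

/-- The radial homeomorphism. -/
theorem radial (σ : ℝ ≃o ℝ) : ∃ R : E ≃ₜ E, ∀ x, R x = rad σ x := by
  refine ⟨⟨⟨rad σ, rad σ.symm, ?_, ?_⟩, rad_continuous σ, rad_continuous σ.symm⟩, fun x => rfl⟩
  · intro x
    rw [rad_rad]
    simp only [OrderIso.symm_apply_apply]
    exact rad_id x
  · intro x
    rw [rad_rad]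
    simp only [OrderIso.apply_symm_apply]
    exact rad_id x

end radial

end Pool.Agent.Lib.MP_f171f2_an
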