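import Mathlib
import Pool.Agent.Lib.MP_f171f2_an.Spiral

/-!
The linear dilatation of radial maps.
-/

set_option autoImplicit false

open Set Filter Topology

namespace Pool.Agent.Lib.MP_f171f2_an

/-- `|e^x - 1|` against `|x|`. -/
theorem exp_bounds {x : ℝ} (hx : |x| ≤ 1) :
    |x| * (1 - |x|) ≤ |Real.exp x - 1| ∧ |Real.exp x - 1| ≤ |x| * (1 + |x|) := by
  have h1 := Real.abs_exp_sub_one_sub_id_le hx
  have h2 : x ^ 2 = |x| * |x| := by rw [← sq_abs]; ring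
  have h3 : |Real.exp x - 1| ≤ |Real.exp x - 1 - x| + |x| := by
    have := abs_add_le (Real.exp x - 1 - x) x
    rwa [sub_add_cancel] at this
  have h4 : |x| ≤ |Real.exp x - 1 - x| + |Real.exp x - 1| := by
    have := abs_sub (Real.exp x - 1) (Real.exp x - 1 - x)
    have e : Real.exp x - 1 - (Real.exp x - 1 - x) = x := by ring
    rw [e] at this
    linarith
  rw [h2] at h1
  constructor <;> linarith

/-- Comparison of `|e^k - 1|` and `|e^h - 1|` for small `h` and `k` comparable to `h`. -/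
theorem exp_compare {η h k : ℝ} (hη : 0 < η) (hη1 : η ≤ 1 / 2) (hh : |h| ≤ η / 8)
    (hk1 : (1 - η) * |h| ≤ |k|) (hk2 : |k| ≤ (1 + η) * |h|) :
    (1 - η) ^ 2 * |Real.exp h - 1| ≤ |Real.exp k - 1| ∧
      |Real.exp k - 1| ≤ (1 + η) ^ 2 * |Real.exp h - 1| := by
  have h0 := abs_nonneg h
  have hkk : |k| ≤ 2 * |h| := by nlinarith
  have e1 := exp_bounds (x := h) (by linarith)
  have e2 := exp_bounds (x := k) (by linarith)
  have hk0 := abs_nonneg k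
  constructor
  · -- (1-η)^2 |h| (1+|h|) ≤ |k| (1-|k|)
    have a1 : (1 - η) ^ 2 * |Real.exp h - 1| ≤ (1 - η) ^ 2 * (|h| * (1 + |h|)) :=
      mul_le_mul_of_nonneg_left e1.2 (by positivity)
    have a2 : (1 - η) ^ 2 * (|h| * (1 + |h|)) ≤ |k| * (1 - |k|) := by
      have b1 : (1 - η) * |h| * (1 - |k|) ≤ |k| * (1 - |k|) :=
        mul_le_mul_of_nonneg_right hk1 (by linarith)
      have b2 : (1 - η) * (1 + |h|) ≤ 1 - |k| := by nlinarith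
      have b3 : (1 - η) * |h| * ((1 - η) * (1 + |h|)) ≤ (1 - η) * |h| * (1 - |k|) :=
        mul_le_mul_of_nonneg_left b2 (mul_nonneg (by linarith) h0)
      calc (1 - η) ^ 2 * (|h| * (1 + |h|)) = (1 - η) * |h| * ((1 - η) * (1 + |h|)) := by ring
        _ ≤ _ := b3
        _ ≤ _ := b1
    linarith [e2.1]
  · have a1 : |k| * (1 + |k|) ≤ (1 + η) ^ 2 * (|h| * (1 - |h|)) := by
      have b1 : |k| * (1 + |k|) ≤ (1 + η) * |h| * (1 + |k|) :=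
        mul_le_mul_of_nonneg_right hk2 (by linarith)
      have b2 : 1 + |k| ≤ (1 + η) * (1 - |h|) := by nlinarith
      have b3 : (1 + η) * |h| * (1 + |k|) ≤ (1 + η) * |h| * ((1 + η) * (1 - |h|)) :=
        mul_le_mul_of_nonneg_left b2 (mul_nonneg (by linarith) h0)
      calc |k| * (1 + |k|) ≤ _ := b1
        _ ≤ _ := b3
        _ = _ := by ring
    have a2 : (1 + η) ^ 2 * (|h| * (1 - |h|)) ≤ (1 + η) ^ 2 * |Real.exp h - 1| :=
      mul_le_mul_of_nonneg_left e1.1 (by positivity)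
    linarith [e2.2]

variable {E : Type*} [NormedAddCommGroup E] [InnerProductSpace ℝ E]

/-- The distance of the images under a radial map. -/
theorem rad_dist_sq (τ : ℝ → ℝ) {x y : E} (hx : x ≠ 0) (hy : y ≠ 0) :
    ‖rad τ y - rad τ x‖ ^ 2 =
      (Real.exp (τ (Real.log ‖y‖)) - Real.exp (τ (Real.log ‖x‖))) ^ 2 +
        Real.exp (τ (Real.log ‖y‖)) * Real.exp (τ (Real.log ‖x‖)) / (‖y‖ * ‖x‖) *
          (‖y - x‖ ^ 2 - (‖y‖ - ‖x‖) ^ 2) := by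
  have hx' : 0 < ‖x‖ := norm_pos_iff.2 hx
  have hy' : 0 < ‖y‖ := norm_pos_iff.2 hy
  rw [norm_sub_sq_real, norm_sub_sq_real, norm_rad τ hx, norm_rad τ hy]
  have h1 : inner ℝ (rad τ y) (rad τ x) =
      Real.exp (τ (Real.log ‖y‖)) / ‖y‖ * (Real.exp (τ (Real.log ‖x‖)) / ‖x‖) *
        inner ℝ y x := by
    rw [rad, rad, inner_smul_left, inner_smul_right]
    simp only [conj_trivial]
    ring
  rw [h1]
  field_simp
  ring

/-- Local bounds for a radial map whose profile has slopes in `[1 - η, 1 + η]`. -/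
theorem rad_local (τ : ℝ → ℝ) (η : ℝ) (hη : 0 < η) (hη1 : η ≤ 1 / 2)
    (hτ1 : ∀ u v, (1 - η) * |v - u| ≤ |τ v - τ u|)
    (hτ2 : ∀ u v, |τ v - τ u| ≤ (1 + η) * |v - u|) {x : E} (hx : x ≠ 0) :
    ∃ r > 0, ∀ y : E, ‖y - x‖ < r →
      (1 - η) ^ 2 * (Real.exp (τ (Real.log ‖x‖)) / ‖x‖) * ‖y - x‖ ≤ ‖rad τ y - rad τ x‖ ∧
      ‖rad τ y - rad τ x‖ ≤ (1 + η) ^ 2 * (Real.exp (τ (Real.log ‖x‖)) / ‖x‖) * ‖y - x‖ := by
  have hx' : 0 < ‖x‖ := norm_pos_iff.2 hx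
  -- eventually `y ≠ 0`, the logarithms are close
  have hlog : ContinuousAt (fun y : E => Real.log ‖y‖) x :=
    continuous_norm.continuousAt.log hx'.ne'
  have hev : ∀ᶠ y in 𝓝 x, |Real.log ‖y‖ - Real.log ‖x‖| < η / 8 := by
    have := Metric.tendsto_nhds.1 hlog.tendsto (η / 8) (by positivity)
    simpa [Real.dist_eq] using this
  have hev2 : ∀ᶠ y in 𝓝 x, y ≠ 0 := eventually_ne_nhds hx
  obtain ⟨r, hr, hball⟩ := Metric.eventually_nhds_iff.1 (hev.and hev2)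
  refine ⟨r, hr, fun y hy => ?_⟩
  obtain ⟨hlogy, hy0⟩ := hball (by rw [dist_eq_norm]; exact hy)
  have hy' : 0 < ‖y‖ := norm_pos_iff.2 hy0
  set h := Real.log ‖y‖ - Real.log ‖x‖ with hh
  set k := τ (Real.log ‖y‖) - τ (Real.log ‖x‖) with hk
  have hc := exp_compare (h := h) (k := k) hη hη1 hlogy.le (hτ1 _ _) (hτ2 _ _)
  set ρ := Real.exp (τ (Real.log ‖x‖)) with hρ
  set ρ' := Real.exp (τ (Real.log ‖y‖)) with hρ'
  have hρ0 : 0 < ρ := Real.exp_pos _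
  have hρ'0 : 0 < ρ' := Real.exp_pos _
  have hyx : ‖y‖ = ‖x‖ * Real.exp h := by
    rw [hh, Real.exp_sub, Real.exp_log hx', Real.exp_log hy']
    field_simp
  have hρk : ρ' = ρ * Real.exp k := by
    rw [hk, Real.exp_sub, ← hρ, ← hρ']
    field_simp
  have hd1 : |ρ' - ρ| = ρ * |Real.exp k - 1| := by
    rw [hρk]
    have : ρ * Real.exp k - ρ = ρ * (Real.exp k - 1) := by ring
    rw [this, abs_mul, abs_of_pos hρ0]
  have hd2 : |‖y‖ - ‖x‖| = ‖x‖ * |Real.exp h - 1| := by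
    rw [hyx]
    have : ‖x‖ * Real.exp h - ‖x‖ = ‖x‖ * (Real.exp h - 1) := by ring
    rw [this, abs_mul, abs_of_pos hx']
  -- radial part
  have hr1 : (1 - η) ^ 2 * (ρ / ‖x‖) * |‖y‖ - ‖x‖| ≤ |ρ' - ρ| := by
    rw [hd1, hd2]
    have := mul_le_mul_of_nonneg_left hc.1 hρ0.le
    calc (1 - η) ^ 2 * (ρ / ‖x‖) * (‖x‖ * |Real.exp h - 1|) =
        ρ * ((1 - η) ^ 2 * |Real.exp h - 1|) := by field_simp
      _ ≤ _ := this
  have hr2 : |ρ' - ρ| ≤ (1 + η) ^ 2 * (ρ / ‖x‖) * |‖y‖ - ‖x‖| := by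
    rw [hd1, hd2]
    have := mul_le_mul_of_nonneg_left hc.2 hρ0.le
    calc ρ * |Real.exp k - 1| ≤ _ := this
      _ = (1 + η) ^ 2 * (ρ / ‖x‖) * (‖x‖ * |Real.exp h - 1|) := by field_simp
  -- tangential part
  have hq : ρ' * ρ / (‖y‖ * ‖x‖) = (ρ / ‖x‖) ^ 2 * Real.exp (k - h) := by
    have e1 : Real.exp (k - h) = Real.exp k / Real.exp h := Real.exp_sub k h
    have := Real.exp_pos h
    rw [e1, hρk, hyx]
    field_simp
  have hkh : |k - h| ≤ η := by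
    have e1 := hτ2 (Real.log ‖x‖) (Real.log ‖y‖)
    have e2 : |k - h| ≤ |k| + |h| := abs_sub _ _
    rw [← hk, ← hh] at e1
    nlinarith [abs_nonneg h]
  have ht1 : (1 - η) ^ 4 ≤ Real.exp (k - h) := by
    have e1 : 1 - η ≤ Real.exp (k - h) := by
      have := Real.add_one_le_exp (k - h)
      have := (abs_le.1 hkh).1
      linarith
    have e2 : (1 - η) ^ 4 ≤ 1 - η := by
      have e3 : (1 - η) ^ 3 ≤ 1 := pow_le_one₀ (by linarith) (by linarith)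
      calc (1 - η) ^ 4 = (1 - η) * (1 - η) ^ 3 := by ring
        _ ≤ (1 - η) * 1 := mul_le_mul_of_nonneg_left e3 (by linarith)
        _ = _ := by ring
    linarith
  have ht2 : Real.exp (k - h) ≤ (1 + η) ^ 4 := by
    have e1 : Real.exp (k - h) ≤ Real.exp η := Real.exp_le_exp.2 ((le_abs_self _).trans hkh)
    have e2 := (exp_bounds (x := η) (by rw [abs_of_pos hη]; linarith)).2
    rw [abs_of_pos hη] at e2
    have e3 := (abs_le.1 e2).2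
    have e4 := one_add_mul_le_pow (a := η) (by linarith) 4
    have e5 : η * (1 + η) ≤ 4 * η := by nlinarith
    push_cast at e4
    linarith
  have hsq := rad_dist_sq τ hx hy0
  rw [← hρ, ← hρ', hq] at hsq
  have hnn : 0 ≤ ‖y - x‖ ^ 2 - (‖y‖ - ‖x‖) ^ 2 := by
    have e1 := abs_norm_sub_norm_le y x
    have e2 : (‖y‖ - ‖x‖) ^ 2 ≤ ‖y - x‖ ^ 2 := by
      rw [← sq_abs (‖y‖ - ‖x‖)]
      exact pow_le_pow_left₀ (abs_nonneg _) e1 2
    linarith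
  have hη4 : 0 ≤ (ρ / ‖x‖) ^ 2 := by positivity
  constructor
  · apply abs_le_of_sq_le_sq' _ (norm_nonneg _) |>.2
    rw [hsq]
    have f1 : ((1 - η) ^ 2 * (ρ / ‖x‖) * |‖y‖ - ‖x‖|) ^ 2 ≤ (ρ' - ρ) ^ 2 := by
      rw [← sq_abs (ρ' - ρ)]
      exact pow_le_pow_left₀ (by positivity) hr1 2
    have f2 : (ρ / ‖x‖) ^ 2 * (1 - η) ^ 4 * (‖y - x‖ ^ 2 - (‖y‖ - ‖x‖) ^ 2) ≤
        (ρ / ‖x‖) ^ 2 * Real.exp (k - h) * (‖y - x‖ ^ 2 - (‖y‖ - ‖x‖) ^ 2) :=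
      mul_le_mul_of_nonneg_right (mul_le_mul_of_nonneg_left ht1 hη4) hnn
    have f3 : ((1 - η) ^ 2 * (ρ / ‖x‖) * ‖y - x‖) ^ 2 =
        ((1 - η) ^ 2 * (ρ / ‖x‖) * |‖y‖ - ‖x‖|) ^ 2 +
          (ρ / ‖x‖) ^ 2 * (1 - η) ^ 4 * (‖y - x‖ ^ 2 - (‖y‖ - ‖x‖) ^ 2) := by
      rw [mul_pow _ (|‖y‖ - ‖x‖|) 2, sq_abs]
      ring
    rw [f3]
    linarith
  · apply abs_le_of_sq_le_sq' _ (by positivity) |>.2
    rw [hsq]
    have f1 : (ρ' - ρ) ^ 2 ≤ ((1 + η) ^ 2 * (ρ / ‖x‖) * |‖y‖ - ‖x‖|) ^ 2 := by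
      rw [← sq_abs (ρ' - ρ)]
      exact pow_le_pow_left₀ (abs_nonneg _) hr2 2
    have f2 : (ρ / ‖x‖) ^ 2 * Real.exp (k - h) * (‖y - x‖ ^ 2 - (‖y‖ - ‖x‖) ^ 2) ≤
        (ρ / ‖x‖) ^ 2 * (1 + η) ^ 4 * (‖y - x‖ ^ 2 - (‖y‖ - ‖x‖) ^ 2) :=
      mul_le_mul_of_nonneg_right (mul_le_mul_of_nonneg_left ht2 hη4) hnn
    have f3 : ((1 + η) ^ 2 * (ρ / ‖x‖) * ‖y - x‖) ^ 2 =
        ((1 + η) ^ 2 * (ρ / ‖x‖) * |‖y‖ - ‖x‖|) ^ 2 +
          (ρ / ‖x‖) ^ 2 * (1 + η) ^ 4 * (‖y - x‖ ^ 2 - (‖y‖ - ‖x‖) ^ 2) := by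
      rw [mul_pow _ (|‖y‖ - ‖x‖|) 2, sq_abs]
      ring
    rw [f3]
    linarith

/-- The linear dilatation of a radial map. -/
theorem rad_dil (τ : ℝ → ℝ) (η : ℝ) (hη : 0 < η) (hη1 : η ≤ 1 / 2)
    (hτ1 : ∀ u v, (1 - η) * |v - u| ≤ |τ v - τ u|)
    (hτ2 : ∀ u v, |τ v - τ u| ≤ (1 + η) * |v - u|) (x : E) :
    ∃ r > 0, ∀ y z : E, ‖y - x‖ = ‖z - x‖ → ‖y - x‖ < r →
      ‖rad τ y - rad τ x‖ ≤ ((1 + η) / (1 - η)) ^ 2 * ‖rad τ z - rad τ x‖ := by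
  by_cases hx : x = 0
  · subst hx
    refine ⟨1, one_pos, fun y z hyz _ => ?_⟩
    rw [sub_zero, sub_zero] at hyz
    rw [rad_zero, sub_zero, sub_zero]
    have h1 : ‖rad τ y‖ = ‖rad τ z‖ := by
      rw [rad, rad, norm_smul, norm_smul, hyz]
    rw [h1]
    have h2 : 1 ≤ ((1 + η) / (1 - η)) ^ 2 := by
      apply one_le_pow₀
      rw [le_div_iff₀ (by linarith)]
      linarith
    have := norm_nonneg (rad τ z)
    nlinarith
  · obtain ⟨r, hr, h⟩ := rad_local τ η hη hη1 hτ1 hτ2 hx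
    refine ⟨r, hr, fun y z hyz hy => ?_⟩
    have h1 := (h y hy).2
    have h2 := (h z (by rw [← hyz]; exact hy)).1
    rw [← hyz] at h2
    have h3 : 0 < 1 - η := by linarith
    rw [div_pow, div_mul_eq_mul_div, le_div_iff₀ (by positivity)]
    calc ‖rad τ y - rad τ x‖ * (1 - η) ^ 2
        ≤ (1 + η) ^ 2 * (Real.exp (τ (Real.log ‖x‖)) / ‖x‖) * ‖y - x‖ * (1 - η) ^ 2 :=
          mul_le_mul_of_nonneg_right h1 (by positivity)
      _ = (1 + η) ^ 2 * ((1 - η) ^ 2 * (Real.exp (τ (Real.log ‖x‖)) / ‖x‖) * ‖y - x‖) := by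
          ring
      _ ≤ _ := mul_le_mul_of_nonneg_left h2 (by positivity)

end Pool.Agent.Lib.MP_f171f2_an
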