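import Mathlib
import Pool.Agent.Lib.MP_f171f2_an.Fol
import Pool.Agent.Lib.MP_f171f2_an.RadDil

/-!
Quasiconformal maps that act on the spheres centred at the origin by similarities.
-/

set_option autoImplicit false

open Set Filter Topology

namespace Pool.Agent.Lib.MP_f171f2_an

/-- Slopes between `1 / M` and `M`. -/
def Sl (M : ℝ) (σ : ℝ → ℝ) : Prop :=
  ∀ s t, s ≤ t → (t - s) / M ≤ σ t - σ s ∧ σ t - σ s ≤ M * (t - s)

theorem Sl.iso {M : ℝ} {σ : ℝ → ℝ} (hM : 1 ≤ M) (h : Sl M σ) : ∃ o : ℝ ≃o ℝ, ∀ s, o s = σ s := by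
  have hM0 : 0 < M := by linarith
  have hmono : StrictMono σ := by
    intro s t hst
    have h1 := (h s t hst.le).1
    have h2 : 0 < (t - s) / M := div_pos (by linarith) hM0
    linarith
  have hlip : LipschitzWith ⟨M, hM0.le⟩ σ := by
    apply LipschitzWith.of_dist_le_mul
    intro s t
    change dist (σ s) (σ t) ≤ M * dist s t
    rw [Real.dist_eq, Real.dist_eq]
    rcases le_total s t with hst | hst
    · have h1 := h s t hst
      have h2 : 0 ≤ (t - s) / M := div_nonneg (by linarith) hM0.le
      rw [abs_sub_comm, abs_of_nonneg (by linarith), abs_sub_comm, abs_of_nonneg (by linarith)]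
      exact h1.2
    · have h1 := h t s hst
      have h2 : 0 ≤ (s - t) / M := div_nonneg (by linarith) hM0.le
      rw [abs_of_nonneg (by linarith), abs_of_nonneg (by linarith)]
      exact h1.2
  have htop : Tendsto σ atTop atTop := by
    have h1 : Tendsto (fun t => σ 0 + t / M) atTop atTop :=
      tendsto_atTop_add_const_left _ _ (tendsto_id.atTop_div_const hM0)
    apply tendsto_atTop_mono' atTop _ h1
    filter_upwards [eventually_ge_atTop 0] with t ht
    have := (h 0 t ht).1
    rw [sub_zero] at this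
    linarith
  have hbot : Tendsto σ atBot atBot := by
    have h1 : Tendsto (fun t => σ 0 + t / M) atBot atBot :=
      tendsto_atBot_add_const_left _ _ (tendsto_id.atBot_div_const hM0)
    apply tendsto_atBot_mono' atBot _ h1
    filter_upwards [eventually_le_atBot 0] with t ht
    have := (h t 0 ht).1
    rw [zero_sub] at this
    have e : -t / M = -(t / M) := by ring
    rw [e] at this
    linarith
  exact ⟨hmono.orderIsoOfSurjective σ (hlip.continuous.surjective htop hbot), fun s => rfl⟩

theorem Sl.mix {M : ℝ} {σ : ℝ → ℝ} (hM : 1 ≤ M) (h : Sl M σ) (κ : ℝ) (hκ : κ ∈ Icc (0 : ℝ) 1) :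
    Sl M (fun s => (1 - κ) * s + κ * σ s) := by
  have hM0 : 0 < M := by linarith
  intro s t hst
  have h1 := h s t hst
  have e : (1 - κ) * t + κ * σ t - ((1 - κ) * s + κ * σ s) =
      (1 - κ) * (t - s) + κ * (σ t - σ s) := by ring
  simp only
  rw [e]
  have h2 : (t - s) / M ≤ t - s := div_le_self (by linarith) hM
  have h3 : t - s ≤ M * (t - s) := by nlinarith
  have h4 := mul_le_mul_of_nonneg_left h1.1 hκ.1
  have h5 := mul_le_mul_of_nonneg_left h1.2 hκ.1
  have h6 := mul_le_mul_of_nonneg_left h2 (by linarith [hκ.2] : 0 ≤ 1 - κ)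
  have h7 := mul_le_mul_of_nonneg_left h3 (by linarith [hκ.2] : 0 ≤ 1 - κ)
  constructor <;> linarith

variable {E : Type*} [NormedAddCommGroup E] [InnerProductSpace ℝ E]

/-- Factorisation of radial maps. -/
theorem rad_factor (σ : ℝ → ℝ) (M : ℝ) (hM : 1 ≤ M) (hσ : Sl M σ) (η : ℝ) (hη : 0 < η)
    (hη1 : η ≤ 1 / 2) (m : ℕ) (hm : 0 < m) (hmη : M ^ 2 / m ≤ η) :
    ∀ k ≤ m, ∃ l : List (E ≃ₜ E), l.length = k ∧
      (∀ R ∈ l, ∀ x : E, ∃ r > 0, ∀ y z : E, ‖y - x‖ = ‖z - x‖ → ‖y - x‖ < r →
        ‖R y - R x‖ ≤ ((1 + η) / (1 - η)) ^ 2 * ‖R z - R x‖) ∧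
      ∀ x, l.prod x = rad (fun s => (1 - (k : ℝ) / m) * s + (k : ℝ) / m * σ s) x := by
  have hm' : (0 : ℝ) < m := by exact_mod_cast hm
  have hM0 : 0 < M := by linarith
  intro k
  induction k with
  | zero =>
    intro _
    refine ⟨[], rfl, by simp, ?_⟩
    intro x
    have : (fun s => (1 - ((0 : ℕ) : ℝ) / m) * s + ((0 : ℕ) : ℝ) / m * σ s) = fun s => s := by
      funext s
      simp
    rw [this, rad_id]
    rfl
  | succ k ih =>
    intro hk
    obtain ⟨l, hl, hR, hprod⟩ := ih (by omega)
    have hκ : (k : ℝ) / m ∈ Icc (0 : ℝ) 1 := by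
      refine ⟨by positivity, ?_⟩
      rw [div_le_one hm']
      exact_mod_cast (by omega : k ≤ m)
    have hκ' : ((k + 1 : ℕ) : ℝ) / m ∈ Icc (0 : ℝ) 1 := by
      refine ⟨by positivity, ?_⟩
      rw [div_le_one hm']
      exact_mod_cast hk
    have hs1 := hσ.mix hM _ hκ
    obtain ⟨o, ho⟩ := hs1.iso hM
    obtain ⟨o', ho'⟩ := (hσ.mix hM _ hκ').iso hM
    obtain ⟨R, hRr⟩ := radial (E := E) (o.symm.trans o')
    -- slopes of the profile
    have hslope : ∀ u v, u ≤ v →
        |(o' (o.symm v) - o' (o.symm u)) - (v - u)| ≤ η * (v - u) := by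
      intro u v huv
      set s := o.symm u with hs
      set t := o.symm v with ht
      have hst : s ≤ t := o.symm.monotone huv
      have hu : u = (1 - (k : ℝ) / m) * s + (k : ℝ) / m * σ s := by
        rw [← ho s, hs, o.apply_symm_apply]
      have hv : v = (1 - (k : ℝ) / m) * t + (k : ℝ) / m * σ t := by
        rw [← ho t, ht, o.apply_symm_apply]
      have e1 := hs1 s t hst
      simp only at e1
      rw [← hu, ← hv] at e1
      have e2 := hσ s t hst
      have e3 : (o' t - o' s) - (v - u) = 1 / m * ((σ t - σ s) - (t - s)) := by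
        rw [ho', ho', hu, hv]
        push_cast
        field_simp
        ring
      rw [e3, abs_mul, abs_of_pos (by positivity : (0 : ℝ) < 1 / m)]
      have e4 : |(σ t - σ s) - (t - s)| ≤ M * (t - s) := by
        have f1 : 0 ≤ (t - s) / M := div_nonneg (by linarith) hM0.le
        have f2 : t - s ≤ M * (t - s) := by nlinarith
        rw [abs_le]
        constructor <;> linarith [e2.1, e2.2]
      have e5 : t - s ≤ M * (v - u) := by
        have := e1.1
        rw [div_le_iff₀ hM0] at this
        linarith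
      calc 1 / (m : ℝ) * |(σ t - σ s) - (t - s)| ≤ 1 / m * (M * (t - s)) :=
            mul_le_mul_of_nonneg_left e4 (by positivity)
        _ ≤ 1 / m * (M * (M * (v - u))) :=
            mul_le_mul_of_nonneg_left (mul_le_mul_of_nonneg_left e5 hM0.le) (by positivity)
        _ = M ^ 2 / m * (v - u) := by ring
        _ ≤ η * (v - u) := mul_le_mul_of_nonneg_right hmη (by linarith)
    have hboth : ∀ u v, (1 - η) * |v - u| ≤ |(o.symm.trans o') v - (o.symm.trans o') u| ∧
        |(o.symm.trans o') v - (o.symm.trans o') u| ≤ (1 + η) * |v - u| := by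
      have key : ∀ u v, u ≤ v → (1 - η) * |v - u| ≤ |(o.symm.trans o') v - (o.symm.trans o') u| ∧
          |(o.symm.trans o') v - (o.symm.trans o') u| ≤ (1 + η) * |v - u| := by
        intro u v huv
        have e1 := hslope u v huv
        rw [abs_le] at e1
        have e2 : 0 ≤ v - u := by linarith
        have e3 : (o.symm.trans o') v - (o.symm.trans o') u = o' (o.symm v) - o' (o.symm u) := rfl
        have e4 : η * (v - u) ≤ 1 * (v - u) := mul_le_mul_of_nonneg_right (by linarith) e2
        rw [e3, abs_of_nonneg e2, abs_of_nonneg (by linarith [e1.1])]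
        constructor <;> linarith [e1.1, e1.2]
      intro u v
      rcases le_total u v with h | h
      · exact key u v h
      · rw [abs_sub_comm v u, abs_sub_comm ((o.symm.trans o') v)]
        exact key v u h
    refine ⟨R :: l, by simp [hl], ?_, ?_⟩
    · intro G hG
      rcases List.mem_cons.1 hG with h | h
      · rw [h]
        intro x
        obtain ⟨r, hr, h1⟩ := rad_dil (E := E) (o.symm.trans o') η hη hη1
          (fun u v => (hboth u v).1) (fun u v => (hboth u v).2) x
        refine ⟨r, hr, fun y z hyz hy => ?_⟩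
        rw [hRr, hRr, hRr]
        exact h1 y z hyz hy
      · exact hR G h
    · intro x
      rw [List.prod_cons]
      change R (l.prod x) = _
      rw [hRr, hprod, rad_rad]
      have : (fun s => (o.symm.trans o') ((1 - (k : ℝ) / m) * s + (k : ℝ) / m * σ s)) =
          fun s => (1 - ((k + 1 : ℕ) : ℝ) / m) * s + ((k + 1 : ℕ) : ℝ) / m * σ s := by
        funext s
        rw [← ho s, ← ho' s]
        change o' (o.symm (o s)) = o' s
        rw [o.symm_apply_apply]
      rw [this]

/-- Points of the sphere at a prescribed distance. -/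
theorem exists_tangential (hE : 1 < Module.rank ℝ E) (x : E) (d : ℝ) (hd : 0 ≤ d)
    (hd2 : d ≤ 2 * ‖x‖) : ∃ z : E, ‖z‖ = ‖x‖ ∧ ‖z - x‖ = d := by
  have hpre := isPreconnected_sphere hE (0 : E) ‖x‖
  have h1 : x ∈ Metric.sphere (0 : E) ‖x‖ := by simp
  have h2 : -x ∈ Metric.sphere (0 : E) ‖x‖ := by simp
  have hc : ContinuousOn (fun z : E => ‖z - x‖) (Metric.sphere (0 : E) ‖x‖) := by fun_prop
  have h3 := hpre.intermediate_value h1 h2 hc
  have h4 : d ∈ Icc ‖x - x‖ ‖-x - x‖ := by
    constructor
    · simpa using hd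
    · have : -x - x = (-2 : ℝ) • x := by module
      rw [this, norm_smul]
      simpa using hd2
  obtain ⟨z, hz, hzd⟩ := h3 h4
  exact ⟨z, by simpa using hz, hzd⟩

end Pool.Agent.Lib.MP_f171f2_an
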