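import Mathlib
import Pool.Agent.Lib.MP_f171f2_an.Sphere

/-!
Quasiconformal maps that act by similarities on the spheres centred at the origin: structure.
-/

set_option autoImplicit false

open Set Filter Topology

namespace Pool.Agent.Lib.MP_f171f2_an

variable {E : Type*} [NormedAddCommGroup E] [InnerProductSpace ℝ E]

/-- Two spheres whose radii and distance of centres satisfy the triangle inequalities meet. -/
theorem spheres_meet (hE : 1 < Module.rank ℝ E) (a b : E) (ρ τ : ℝ) (hρ : 0 < ρ)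
    (h1 : |ρ - τ| ≤ ‖a - b‖) (h2 : ‖a - b‖ ≤ ρ + τ) : ∃ q : E, ‖q - a‖ = ρ ∧ ‖q - b‖ = τ := by
  obtain ⟨h1a, h1b⟩ := abs_le.1 h1
  rcases (norm_nonneg (a - b)).eq_or_lt with h0 | h0
  · -- equal centres
    rw [← h0] at h1a h1b
    have hab : a = b := by
      have := norm_eq_zero.1 h0.symm
      exact sub_eq_zero.1 this
    have hne : Nontrivial E := by
      rw [← rank_pos_iff_nontrivial (R := ℝ)]
      exact lt_trans zero_lt_one hE
    obtain ⟨v, hv⟩ := exists_norm_eq E hρ.le
    refine ⟨a + v, ?_, ?_⟩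
    · rw [add_sub_cancel_left, hv]
    · rw [← hab, add_sub_cancel_left, hv]
      linarith
  · set d := ‖a - b‖ with hd
    set q₁ : E := a - (ρ / d) • (a - b) with hq₁
    set q₂ : E := a + (ρ / d) • (a - b) with hq₂
    have hn : ‖(ρ / d) • (a - b)‖ = ρ := by
      rw [norm_smul, Real.norm_of_nonneg (by positivity), ← hd]
      field_simp
    have e1 : q₁ ∈ Metric.sphere a ρ := by
      rw [mem_sphere_iff_norm, hq₁, sub_sub_cancel_left, norm_neg, hn]
    have e2 : q₂ ∈ Metric.sphere a ρ := by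
      rw [mem_sphere_iff_norm, hq₂, add_sub_cancel_left, hn]
    have n1 : ‖q₁ - b‖ = |1 - ρ / d| * d := by
      have : q₁ - b = (1 - ρ / d) • (a - b) := by
        rw [hq₁, sub_smul, one_smul]
        abel
      rw [this, norm_smul, Real.norm_eq_abs]
    have n2 : ‖q₂ - b‖ = d + ρ := by
      have : q₂ - b = (1 + ρ / d) • (a - b) := by
        rw [hq₂, add_smul, one_smul]
        abel
      rw [this, norm_smul, Real.norm_of_nonneg (by positivity), ← hd]
      field_simp
    have hc : ContinuousOn (fun q : E => ‖q - b‖) (Metric.sphere a ρ) := by fun_prop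
    have h3 := (isPreconnected_sphere hE a ρ).intermediate_value e1 e2 hc
    have h4 : τ ∈ Icc ‖q₁ - b‖ ‖q₂ - b‖ := by
      rw [n1, n2]
      refine ⟨?_, by linarith⟩
      have e : |1 - ρ / d| * d = |d - ρ| := by
        rw [← abs_of_pos h0, ← abs_mul, abs_of_pos h0]
        congr 1
        field_simp
      rw [e, abs_le]
      constructor <;> linarith
    obtain ⟨q, hq, hqb⟩ := h3 h4
    exact ⟨q, mem_sphere_iff_norm.1 hq, hqb⟩

/-- A quasiconformal map that acts by similarities on the spheres centred at the origin is the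
composition of a radial map with bi-Lipschitz profile, a spiral map with Lipschitz curve and a map
that shifts the spheres centred at the origin in such a way that they stay apart. -/
theorem sphere_structure2 (hE : 1 < Module.rank ℝ E) (f : E ≃ₜ E) (K : ℝ) (hK : 1 ≤ K)
    (hdil : ∀ x : E, ∃ r > 0, ∀ y z : E, ‖y - x‖ = ‖z - x‖ → ‖y - x‖ < r →
      ‖f y - f x‖ ≤ K * ‖f z - f x‖)
    (hsim : ∀ r > 0, ∃ c > 0, ∃ a : E, ∃ Q : E ≃ₗᵢ[ℝ] E, ∀ x, ‖x‖ = r →
      f x = a + (c : ℝ) • Q x) :
    ∃ (σ : ℝ → ℝ) (A : ℝ → (E ≃ₗᵢ[ℝ] E)) (a : ℝ → E), Sl (2 * K) σ ∧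
      (∀ s t, Near (4 * K * |s - t|) (A s) (A t)) ∧
      (∀ s t, s ≤ t → ‖a t - a s‖ ≤
        (1 - 1 / (2 * K ^ 2)) * (Real.exp (σ t) - Real.exp (σ s))) ∧
      Tendsto a atBot (𝓝 (f 0)) ∧
      ∀ x, x ≠ 0 → f x = a (Real.log ‖x‖) + rad σ (A (Real.log ‖x‖) x) := by
  have hK0 : 0 < K := by linarith
  have hsim' : ∀ s : ℝ, ∃ c > 0, ∃ a : E, ∃ Q : E ≃ₗᵢ[ℝ] E, ∀ x, ‖x‖ = Real.exp s →
      f x = a + (c : ℝ) • Q x := fun s => hsim _ (Real.exp_pos s)
  choose c hc a A hA using hsim'
  set σ : ℝ → ℝ := fun s => Real.log (c s) + s with hσ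
  have hexpσ : ∀ s, Real.exp (σ s) = c s * Real.exp s := fun s => by
    rw [hσ]
    simp only
    rw [Real.exp_add, Real.exp_log (hc s)]
  -- a unit vector
  obtain ⟨v, hv⟩ : ∃ v : E, ‖v‖ = 1 := by
    have : Nontrivial E := by
      rw [← rank_pos_iff_nontrivial (R := ℝ)]
      exact lt_trans zero_lt_one hE
    exact exists_norm_eq E zero_le_one
  have hnormv : ∀ (s : ℝ) (w : E), ‖w‖ = 1 → ‖Real.exp s • w‖ = Real.exp s := by
    intro s w hw
    rw [norm_smul, hw, mul_one, Real.norm_of_nonneg (Real.exp_pos s).le]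
  have hlogn : ∀ x : E, x ≠ 0 → ‖x‖ = Real.exp (Real.log ‖x‖) := fun x hx =>
    (Real.exp_log (norm_pos_iff.2 hx)).symm
  have hfw : ∀ s (w : E), ‖w‖ = 1 → f (Real.exp s • w) = a s + Real.exp (σ s) • A s w := by
    intro s w hw
    rw [hA s _ (hnormv s w hw), map_smul, smul_smul, hexpσ]
  have hfw' : ∀ s (w : E), ‖w‖ = 1 → f (Real.exp s • (-w)) = a s - Real.exp (σ s) • A s w := by
    intro s w hw
    rw [hfw s (-w) (by rw [norm_neg, hw]), map_neg, smul_neg, sub_eq_add_neg]
  have hcontf : ∀ w : E, Continuous fun s : ℝ => f (Real.exp s • w) := fun w =>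
    f.continuous.comp (Real.continuous_exp.smul continuous_const)
  -- centres and radii are continuous
  have haf : ∀ s, a s = (1 / 2 : ℝ) • (f (Real.exp s • v) + f (Real.exp s • (-v))) := by
    intro s
    rw [hfw s v hv, hfw' s v hv]
    module
  have hconta : Continuous a := by
    have h1 : Continuous fun s : ℝ =>
        (1 / 2 : ℝ) • (f (Real.exp s • v) + f (Real.exp s • (-v))) :=
      ((hcontf v).add (hcontf (-v))).const_smul _
    exact h1.congr fun s => (haf s).symm
  have hvec : ∀ s (w : E), ‖w‖ = 1 → Real.exp (σ s) • A s w =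
      (1 / 2 : ℝ) • (f (Real.exp s • w) - f (Real.exp s • (-w))) := by
    intro s w hw
    rw [hfw s w hw, hfw' s w hw]
    module
  have hvn : ∀ s (w : E), ‖w‖ = 1 → ‖Real.exp (σ s) • A s w‖ = Real.exp (σ s) := by
    intro s w hw
    rw [norm_smul, LinearIsometryEquiv.norm_map, hw, mul_one,
      Real.norm_of_nonneg (Real.exp_pos _).le]
  have hcontv : ∀ w : E, ‖w‖ = 1 → Continuous fun s : ℝ => Real.exp (σ s) • A s w := by
    intro w hw
    have h1 : Continuous fun s : ℝ =>
        (1 / 2 : ℝ) • (f (Real.exp s • w) - f (Real.exp s • (-w))) :=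
      ((hcontf w).sub (hcontf (-w))).const_smul _
    exact h1.congr fun s => (hvec s w hw).symm
  have hcontρ : Continuous fun s => Real.exp (σ s) := by
    exact ((hcontv v hv).norm).congr fun s => hvn s v hv
  have hcontσ : Continuous σ := by
    have h1 : Continuous fun s => Real.log (Real.exp (σ s)) :=
      hcontρ.log fun s => (Real.exp_pos _).ne'
    exact h1.congr fun s => Real.log_exp _
  -- behaviour at the origin
  have hlim0 : ∀ w : E, Tendsto (fun s : ℝ => f (Real.exp s • w)) atBot (𝓝 (f 0)) := by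
    intro w
    have e1 : Tendsto (fun s : ℝ => Real.exp s • w) atBot (𝓝 ((0 : ℝ) • w)) :=
      Real.tendsto_exp_atBot.smul_const w
    rw [zero_smul] at e1
    exact (f.continuous.tendsto _).comp e1
  have hlima : Tendsto a atBot (𝓝 (f 0)) := by
    have h1 := ((hlim0 v).add (hlim0 (-v))).const_smul (1 / 2 : ℝ)
    have h2 : (1 / 2 : ℝ) • (f 0 + f 0) = f 0 := by module
    rw [h2] at h1
    exact h1.congr fun s => (haf s).symm
  have hlimρ : Tendsto (fun s => Real.exp (σ s)) atBot (𝓝 0) := by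
    have h1 := (((hlim0 v).sub (hlim0 (-v))).const_smul (1 / 2 : ℝ)).norm
    rw [sub_self, smul_zero, norm_zero] at h1
    refine h1.congr fun s => ?_
    rw [← hvec s v hv, hvn s v hv]
  -- the image spheres
  have hsurj : ∀ s (q : E), ‖q - a s‖ = Real.exp (σ s) → ∃ x : E, ‖x‖ = Real.exp s ∧ f x = q := by
    intro s q hq
    have hne := (Real.exp_pos (σ s)).ne'
    set w : E := (A s).symm ((1 / Real.exp (σ s)) • (q - a s)) with hw
    have hwn : ‖w‖ = 1 := by
      rw [hw, LinearIsometryEquiv.norm_map, norm_smul, hq,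
        Real.norm_of_nonneg (by positivity), one_div_mul_cancel hne]
    refine ⟨Real.exp s • w, hnormv s w hwn, ?_⟩
    rw [hfw s w hwn, hw, LinearIsometryEquiv.apply_symm_apply, smul_smul,
      mul_one_div_cancel hne, one_smul]
    abel
  have hdisj : ∀ s t, s ≠ t → ¬ (|Real.exp (σ s) - Real.exp (σ t)| ≤ ‖a s - a t‖ ∧
      ‖a s - a t‖ ≤ Real.exp (σ s) + Real.exp (σ t)) := by
    rintro s t hst ⟨h1, h2⟩
    obtain ⟨q, hq1, hq2⟩ := spheres_meet hE (a s) (a t) _ _ (Real.exp_pos _) h1 h2
    obtain ⟨x, hx, hfx⟩ := hsurj s q hq1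
    obtain ⟨y, hy, hfy⟩ := hsurj t q hq2
    have hxy : x = y := f.injective (hfx.trans hfy.symm)
    rw [hxy, hy] at hx
    exact hst (Real.exp_injective hx).symm
  have hnest0 : ∀ s t, s < t → ‖a s - a t‖ < |Real.exp (σ s) - Real.exp (σ t)| := by
    intro s t hst
    by_contra hcon
    push Not at hcon
    have h1 : Real.exp (σ s) + Real.exp (σ t) < ‖a s - a t‖ := by
      by_contra h2
      push Not at h2
      exact hdisj s t hst.ne ⟨hcon, h2⟩
    set φ : ℝ → ℝ := fun t => ‖a s - a t‖ - (Real.exp (σ s) + Real.exp (σ t)) with hφ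
    have hφc : ContinuousOn φ (Icc s t) :=
      (((continuous_const.sub hconta).norm).sub (continuous_const.add hcontρ)).continuousOn
    have hφs : φ s < 0 := by
      simp only [hφ, sub_self, norm_zero]
      have := Real.exp_pos (σ s)
      linarith
    have hφt : 0 < φ t := by
      simp only [hφ]
      linarith
    obtain ⟨t', ht', hφ0⟩ := intermediate_value_Icc hst.le hφc ⟨hφs.le, hφt.le⟩
    have hne : s ≠ t' := by
      intro h
      rw [← h] at hφ0
      linarith
    have e1 : ‖a s - a t'‖ = Real.exp (σ s) + Real.exp (σ t') := by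
      simp only [hφ] at hφ0
      linarith
    refine hdisj s t' hne ⟨?_, e1.le⟩
    rw [e1, abs_le]
    have := Real.exp_pos (σ s)
    have := Real.exp_pos (σ t')
    constructor <;> linarith
  have hinj : Function.Injective σ := by
    intro s t hst
    by_contra hne
    rcases lt_or_gt_of_ne hne with h | h
    · have := hnest0 s t h
      rw [hst, sub_self, abs_zero] at this
      exact absurd this (not_lt.2 (norm_nonneg _))
    · have := hnest0 t s h
      rw [hst, sub_self, abs_zero] at this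
      exact absurd this (not_lt.2 (norm_nonneg _))
  have hmono : StrictMono σ := by
    rcases hcontσ.strictMono_of_inj hinj with h | h
    · exact h
    · exfalso
      have h2 : ∀ᶠ s : ℝ in atBot, Real.exp (σ 0) ≤ Real.exp (σ s) := by
        filter_upwards [eventually_le_atBot 0] with s hs
        exact Real.exp_le_exp.2 (h.antitone hs)
      have h3 := ge_of_tendsto hlimρ h2
      exact absurd h3 (not_le.2 (Real.exp_pos _))
  have hnest : ∀ s t, s < t → ‖a t - a s‖ < Real.exp (σ t) - Real.exp (σ s) := by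
    intro s t hst
    have h1 := hnest0 s t hst
    rw [norm_sub_rev, abs_sub_comm, abs_of_pos (sub_pos.2 (Real.exp_lt_exp.2 (hmono hst)))] at h1
    exact h1
  -- local bounds
  have hloc : ∀ (s : ℝ) (x : E), ‖x‖ = Real.exp s → ∃ r > 0, ∀ y : E, ‖y - x‖ < r →
      ‖f y - f x‖ ≤ K * (c s * ‖y - x‖) ∧ c s * ‖y - x‖ ≤ K * ‖f y - f x‖ := by
    intro s x hx
    obtain ⟨r, hr, h⟩ := hdil x
    refine ⟨min r ‖x‖, lt_min hr (by rw [hx]; exact Real.exp_pos s), fun y hy => ?_⟩
    have hy1 : ‖y - x‖ < r := lt_of_lt_of_le hy (min_le_left _ _)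
    have hy2 : ‖y - x‖ ≤ 2 * ‖x‖ := by
      have := lt_of_lt_of_le hy (min_le_right r ‖x‖)
      have := norm_nonneg x
      linarith
    obtain ⟨z, hz, hzd⟩ := exists_tangential hE x ‖y - x‖ (norm_nonneg _) hy2
    have hfz : ‖f z - f x‖ = c s * ‖y - x‖ := by
      rw [hA s z (hz.trans hx), hA s x hx, add_sub_add_left_eq_sub, ← smul_sub, ← map_sub,
        norm_smul, Real.norm_of_nonneg (hc s).le, LinearIsometryEquiv.norm_map, hzd]
    have h1 := h y z hzd.symm hy1
    have h2 := h z y hzd (by rw [hzd]; exact hy1)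
    rw [hfz] at h1 h2
    exact ⟨h1, h2⟩
  -- small exponentials
  have hexp1 : ∀ h : ℝ, 0 ≤ h → h ≤ 1 → Real.exp h - 1 ≤ 2 * h := by
    intro h h0 h1
    have := (exp_bounds (x := h) (by rw [abs_of_nonneg h0]; exact h1)).2
    rw [abs_of_nonneg h0] at this
    have := (abs_le.1 this).2
    nlinarith
  have hexp0 : ∀ h : ℝ, h ≤ Real.exp h - 1 := fun h => by
    have := Real.add_one_le_exp h
    linarith
  have hstep : ∀ (s h : ℝ) (w : E), Real.exp (s + h) • w - Real.exp s • w =
      (Real.exp s * (Real.exp h - 1)) • w := by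
    intro s h w
    rw [← sub_smul, Real.exp_add]
    congr 1
    ring
  -- radial upper bounds
  have hE1 : ∀ z (w : E), ‖w‖ = 1 → ∀ᶠ h : ℝ in 𝓝[>] 0,
      ‖f (Real.exp (z + h) • w) - f (Real.exp z • w)‖ ≤ Real.exp (σ z) * (2 * K * h) := by
    intro z w hw
    obtain ⟨r, hr, h⟩ := hloc z (Real.exp z • w) (hnormv z w hw)
    have hev : ∀ᶠ h : ℝ in 𝓝 0, ‖Real.exp (z + h) • w - Real.exp z • w‖ < r := by
      have e1 : Tendsto (fun h : ℝ => ‖Real.exp (z + h) • w - Real.exp z • w‖) (𝓝 0)
          (𝓝 ‖Real.exp (z + 0) • w - Real.exp z • w‖) :=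
        Continuous.tendsto (by fun_prop) 0
      rw [add_zero, sub_self, norm_zero] at e1
      exact e1.eventually_lt_const hr
    filter_upwards [hev.filter_mono nhdsWithin_le_nhds, Ioo_mem_nhdsGT (zero_lt_one (α := ℝ))]
      with h₁ hh1 hh2
    have e1 := (h (Real.exp (z + h₁) • w) hh1).1
    rw [hstep, norm_smul, hw, mul_one, Real.norm_of_nonneg (mul_nonneg (Real.exp_pos z).le
      (by linarith [hexp0 h₁, hh2.1]))] at e1
    have e5 := hexp1 h₁ hh2.1.le hh2.2.le
    have hσz := Real.exp_pos (σ z)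
    calc ‖f (Real.exp (z + h₁) • w) - f (Real.exp z • w)‖
        ≤ K * (c z * (Real.exp z * (Real.exp h₁ - 1))) := e1
      _ = K * (Real.exp (σ z) * (Real.exp h₁ - 1)) := by rw [hexpσ]; ring
      _ ≤ K * (Real.exp (σ z) * (2 * h₁)) :=
          mul_le_mul_of_nonneg_left (mul_le_mul_of_nonneg_left e5 hσz.le) hK0.le
      _ = _ := by ring
  have hE2 : ∀ z (w : E), ‖w‖ = 1 → ∀ᶠ h : ℝ in 𝓝[>] 0,
      ‖Real.exp (σ (z + h)) • A (z + h) w - Real.exp (σ z) • A z w‖ ≤
        Real.exp (σ z) * (2 * K * h) := by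
    intro z w hw
    filter_upwards [hE1 z w hw, hE1 z (-w) (by rw [norm_neg, hw])] with h h1 h2
    rw [hvec _ w hw, hvec _ w hw, ← smul_sub, norm_smul,
      Real.norm_of_nonneg (by norm_num : (0 : ℝ) ≤ 1 / 2)]
    have e1 : f (Real.exp (z + h) • w) - f (Real.exp (z + h) • (-w)) -
        (f (Real.exp z • w) - f (Real.exp z • (-w))) =
        (f (Real.exp (z + h) • w) - f (Real.exp z • w)) -
        (f (Real.exp (z + h) • (-w)) - f (Real.exp z • (-w))) := by abel
    rw [e1]
    have e2 := norm_sub_le (f (Real.exp (z + h) • w) - f (Real.exp z • w))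
      (f (Real.exp (z + h) • (-w)) - f (Real.exp z • (-w)))
    linarith
  have hE2' : ∀ z, ∀ᶠ h : ℝ in 𝓝[>] 0,
      Real.exp (σ (z + h)) - Real.exp (σ z) ≤ Real.exp (σ z) * (2 * K * h) := by
    intro z
    filter_upwards [hE2 z v hv] with h h1
    have h2 := norm_sub_norm_le (Real.exp (σ (z + h)) • A (z + h) v) (Real.exp (σ z) • A z v)
    rw [hvn _ v hv, hvn _ v hv] at h2
    exact h2.trans h1
  -- radial lower bounds
  have hE3 : ∀ z (u : E), ‖u‖ = 1 → ∀ᶠ h : ℝ in 𝓝[>] 0,
      Real.exp (σ z) * h ≤ K * ((Real.exp (σ (z + h)) - Real.exp (σ z)) -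
        inner ℝ (a (z + h) - a z) u) := by
    intro z u hu
    set w : E := (A z).symm (-u) with hw
    have hwn : ‖w‖ = 1 := by rw [hw, LinearIsometryEquiv.norm_map, norm_neg, hu]
    set x : E := Real.exp z • w with hx
    have hxn : ‖x‖ = Real.exp z := hnormv z w hwn
    have hfx : f x = a z - Real.exp (σ z) • u := by
      rw [hx, hfw z w hwn, hw, LinearIsometryEquiv.apply_symm_apply, smul_neg, sub_eq_add_neg]
    have hρz := Real.exp_pos (σ z)
    obtain ⟨r, hr, hloc'⟩ := hloc z x hxn
    set n : ℝ → ℝ := fun h => ‖f x - a (z + h)‖ with hn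
    set Y : ℝ → E := fun h => f.symm (a (z + h) +
      (Real.exp (σ (z + h)) / n h) • (f x - a (z + h))) with hY
    have hca : Continuous fun h : ℝ => a (z + h) :=
      hconta.comp (continuous_const.add continuous_id)
    have hcρ : Continuous fun h : ℝ => Real.exp (σ (z + h)) :=
      hcontρ.comp (continuous_const.add continuous_id)
    have hcn : Continuous n := (continuous_const.sub hca).norm
    have hn0 : n 0 = Real.exp (σ z) := by
      simp only [hn]
      rw [add_zero, hfx, sub_sub_cancel_left, norm_neg, norm_smul, hu, mul_one,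
        Real.norm_of_nonneg hρz.le]
    have hYc : ContinuousAt Y 0 := by
      have h1 : ContinuousAt (fun h : ℝ => a (z + h) +
          (Real.exp (σ (z + h)) / n h) • (f x - a (z + h))) 0 := by
        apply hca.continuousAt.add
        apply ContinuousAt.smul
        · apply hcρ.continuousAt.div hcn.continuousAt
          rw [hn0]
          exact hρz.ne'
        · exact (continuous_const.sub hca).continuousAt
      exact f.symm.continuous.continuousAt.comp h1
    have hY0 : Y 0 = x := by
      simp only [hY]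
      rw [hn0, add_zero, div_self hρz.ne', one_smul]
      rw [add_sub_cancel]
      exact f.symm_apply_apply x
    have hev : ∀ᶠ h : ℝ in 𝓝 0, ‖Y h - x‖ < r := by
      have e1 : Tendsto (fun h : ℝ => ‖Y h - x‖) (𝓝 0) (𝓝 ‖Y 0 - x‖) :=
        ((hYc.sub continuousAt_const).norm)
      rw [hY0, sub_self, norm_zero] at e1
      exact e1.eventually_lt_const hr
    have hevn : ∀ᶠ h : ℝ in 𝓝 0, 0 < n h := by
      have h1 : Tendsto n (𝓝 0) (𝓝 (n 0)) := hcn.tendsto 0
      rw [hn0] at h1
      exact h1.eventually_const_lt hρz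
    filter_upwards [hev.filter_mono nhdsWithin_le_nhds, hevn.filter_mono nhdsWithin_le_nhds,
      self_mem_nhdsWithin] with h hh1 hnh hh0
    have hh0' : 0 < h := hh0
    set ρ' := Real.exp (σ (z + h)) with hρ'
    have hρ'0 : 0 < ρ' := Real.exp_pos _
    have hfY : f (Y h) = a (z + h) + (ρ' / n h) • (f x - a (z + h)) := f.apply_symm_apply _
    have hfYn : ‖f (Y h) - a (z + h)‖ = ρ' := by
      rw [hfY, add_sub_cancel_left, norm_smul, Real.norm_of_nonneg (by positivity)]
      change ρ' / n h * n h = ρ'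
      field_simp
    have hYn : ‖Y h‖ = Real.exp (z + h) := by
      obtain ⟨x', hx', hfx'⟩ := hsurj (z + h) (f (Y h)) hfYn
      rw [← f.injective hfx', hx']
    have hnle : n h ≤ ρ' := by
      have e1 : n h ≤ ‖f x - a z‖ + ‖a z - a (z + h)‖ := norm_sub_le_norm_sub_add_norm_sub _ _ _
      have e2 := hnest z (z + h) (by linarith)
      have e3 : ‖f x - a z‖ = Real.exp (σ z) := by
        rw [hfx, sub_sub_cancel_left, norm_neg, norm_smul, hu, mul_one,
          Real.norm_of_nonneg hρz.le]
      rw [norm_sub_rev] at e2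
      linarith
    have hdist : ‖f (Y h) - f x‖ = ρ' - n h := by
      have e1 : f (Y h) - f x = (ρ' / n h - 1) • (f x - a (z + h)) := by
        rw [hfY, sub_smul, one_smul]
        abel
      have e2 : 0 ≤ ρ' / n h - 1 := by
        rw [sub_nonneg, le_div_iff₀ hnh, one_mul]
        exact hnle
      rw [e1, norm_smul, Real.norm_of_nonneg e2]
      change (ρ' / n h - 1) * n h = ρ' - n h
      field_simp
    have hnge : Real.exp (σ z) + inner ℝ (a (z + h) - a z) u ≤ n h := by
      have e1 : inner ℝ (f x - a (z + h)) (-u) ≤ ‖f x - a (z + h)‖ * ‖-u‖ :=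
        real_inner_le_norm _ _
      rw [norm_neg, hu, mul_one] at e1
      have e2 : inner ℝ (f x - a (z + h)) (-u) =
          Real.exp (σ z) + inner ℝ (a (z + h) - a z) u := by
        rw [hfx, inner_neg_right]
        have e3 : a z - Real.exp (σ z) • u - a (z + h) =
            -(Real.exp (σ z) • u) - (a (z + h) - a z) := by abel
        rw [e3, inner_sub_left, inner_neg_left, inner_smul_left, real_inner_self_eq_norm_sq, hu]
        simp
        ring
      rw [e2] at e1
      exact e1
    have e1 := (hloc' (Y h) hh1).2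
    have e2 : Real.exp z * (Real.exp h - 1) ≤ ‖Y h - x‖ := by
      have := norm_sub_norm_le (Y h) x
      rw [hYn, hxn, Real.exp_add] at this
      linarith
    rw [hdist] at e1
    calc Real.exp (σ z) * h ≤ Real.exp (σ z) * (Real.exp h - 1) :=
          mul_le_mul_of_nonneg_left (hexp0 h) hρz.le
      _ = c z * (Real.exp z * (Real.exp h - 1)) := by rw [hexpσ]; ring
      _ ≤ c z * ‖Y h - x‖ := mul_le_mul_of_nonneg_left e2 (hc z).le
      _ ≤ K * (ρ' - n h) := e1
      _ ≤ _ := mul_le_mul_of_nonneg_left (by linarith) hK0.le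
  have hE3' : ∀ z, ∀ᶠ h : ℝ in 𝓝[>] 0,
      Real.exp (σ z) * h ≤ K * (Real.exp (σ (z + h)) - Real.exp (σ z)) := by
    intro z
    filter_upwards [hE3 z v hv, hE3 z (-v) (by rw [norm_neg, hv])] with h h1 h2
    rw [inner_neg_right] at h2
    nlinarith
  have hex : ∀ {P : ℝ → Prop}, (∀ᶠ h : ℝ in 𝓝[>] 0, P h) → ∀ ρ > 0,
      ∃ h ∈ Ioo (0 : ℝ) ρ, P h := by
    intro P hP ρ hρ
    obtain ⟨h, h1, h2⟩ := (hP.and (Ioo_mem_nhdsGT hρ)).exists
    exact ⟨h, h2, h1⟩
  -- slopes of σ
  have hup : ∀ s t, s ≤ t → σ t - σ s ≤ 2 * K * (t - s) := by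
    intro s t hst
    apply slope_le hcontσ hst
    intro z _
    apply hex
    filter_upwards [hE2' z] with h h1
    have e3 : Real.exp (σ (z + h)) = Real.exp (σ z) * Real.exp (σ (z + h) - σ z) := by
      rw [← Real.exp_add]
      congr 1
      ring
    have e4 := hexp0 (σ (z + h) - σ z)
    have hσz := Real.exp_pos (σ z)
    have e6 : Real.exp (σ z) * (σ (z + h) - σ z) ≤ Real.exp (σ z) * (2 * K * h) := by
      calc Real.exp (σ z) * (σ (z + h) - σ z)
          ≤ Real.exp (σ z) * (Real.exp (σ (z + h) - σ z) - 1) :=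
            mul_le_mul_of_nonneg_left e4 hσz.le
        _ = Real.exp (σ (z + h)) - Real.exp (σ z) := by rw [e3]; ring
        _ ≤ _ := h1
    exact le_of_mul_le_mul_left e6 hσz
  have hdn : ∀ s t, s ≤ t → (t - s) / (2 * K) ≤ σ t - σ s := by
    intro s t hst
    have key := slope_le (g := fun s => - σ s) hcontσ.neg (lam := -(1 / (2 * K))) hst (by
      intro z _
      apply hex
      have hev : ∀ᶠ h : ℝ in 𝓝 0, σ (z + h) - σ z < 1 := by
        have e1 : Tendsto (fun h : ℝ => σ (z + h) - σ z) (𝓝 0) (𝓝 (σ (z + 0) - σ z)) :=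
          ((hcontσ.comp (continuous_const.add continuous_id)).sub continuous_const).tendsto 0
        rw [add_zero, sub_self] at e1
        exact e1.eventually_lt_const one_pos
      filter_upwards [hE3' z, hev.filter_mono nhdsWithin_le_nhds, self_mem_nhdsWithin]
        with h h1 h2 hh0
      have hh0' : 0 < h := hh0
      set k := σ (z + h) - σ z with hk
      have hk0 : 0 < k := sub_pos.2 (hmono (by linarith))
      have e3 : Real.exp (σ (z + h)) = Real.exp (σ z) * Real.exp k := by
        rw [← Real.exp_add]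
        congr 1
        rw [hk]
        ring
      have e4 := hexp1 k hk0.le h2.le
      have hσz := Real.exp_pos (σ z)
      have e5 : Real.exp (σ z) * h ≤ Real.exp (σ z) * (2 * K * k) := by
        calc Real.exp (σ z) * h ≤ K * (Real.exp (σ (z + h)) - Real.exp (σ z)) := h1
          _ = K * (Real.exp (σ z) * (Real.exp k - 1)) := by rw [e3]; ring
          _ ≤ K * (Real.exp (σ z) * (2 * k)) :=
              mul_le_mul_of_nonneg_left (mul_le_mul_of_nonneg_left e4 hσz.le) hK0.le
          _ = _ := by ring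
      have e6 : h ≤ 2 * K * k := le_of_mul_le_mul_left e5 hσz
      have e7 : h / (2 * K) ≤ k := by
        rw [div_le_iff₀ (by positivity)]
        linarith
      have e8 : -σ (z + h) - -σ z = -k := by
        rw [hk]
        ring
      have e9 : -(1 / (2 * K)) * h = -(h / (2 * K)) := by ring
      rw [e8, e9]
      linarith)
    have e1 : -(1 / (2 * K)) * (t - s) = -((t - s) / (2 * K)) := by ring
    rw [e1] at key
    linarith
  -- the centres
  have hcen : ∀ s t, s ≤ t → ‖a t - a s‖ ≤
      (1 - 1 / (2 * K ^ 2)) * (Real.exp (σ t) - Real.exp (σ s)) := by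
    intro s t hst
    have hmonoe : Real.exp (σ s) ≤ Real.exp (σ t) := Real.exp_le_exp.2 (hmono.monotone hst)
    have hδ : 0 ≤ 1 - 1 / (2 * K ^ 2) := by
      rw [sub_nonneg, div_le_one (by positivity)]
      nlinarith
    have hu : ∀ u : E, ‖u‖ = 1 → inner ℝ (a t - a s) u ≤
        (1 - 1 / (2 * K ^ 2)) * (Real.exp (σ t) - Real.exp (σ s)) := by
      intro u hu
      have key := slope_le
        (g := fun t => inner ℝ (a t) u - (1 - 1 / (2 * K ^ 2)) * Real.exp (σ t))
        ((hconta.inner continuous_const).sub (continuous_const.mul hcontρ)) (lam := 0) hst (by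
        intro z _
        apply hex
        filter_upwards [hE3 z u hu, hE2' z] with h h1 h2
        rw [inner_sub_left] at h1
        set D := Real.exp (σ (z + h)) - Real.exp (σ z) with hD
        have e1 : D / (2 * K ^ 2) ≤ Real.exp (σ z) * h / K := by
          rw [div_le_div_iff₀ (by positivity) hK0]
          nlinarith
        have e2 : Real.exp (σ z) * h / K ≤ D - (inner ℝ (a (z + h)) u - inner ℝ (a z) u) := by
          rw [div_le_iff₀ hK0]
          linarith
        have e3 : (1 - 1 / (2 * K ^ 2)) * Real.exp (σ (z + h)) -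
            (1 - 1 / (2 * K ^ 2)) * Real.exp (σ z) = D - D / (2 * K ^ 2) := by
          rw [hD]
          ring
        rw [zero_mul]
        linarith)
      rw [zero_mul] at key
      rw [inner_sub_left]
      have e3 : (1 - 1 / (2 * K ^ 2)) * (Real.exp (σ t) - Real.exp (σ s)) =
          (1 - 1 / (2 * K ^ 2)) * Real.exp (σ t) - (1 - 1 / (2 * K ^ 2)) * Real.exp (σ s) := by
        ring
      rw [e3]
      linarith
    rcases (norm_nonneg (a t - a s)).eq_or_lt with h0 | h0
    · rw [← h0]
      exact mul_nonneg hδ (by linarith)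
    · have h1 := hu ((1 / ‖a t - a s‖) • (a t - a s)) (by
        rw [norm_smul, Real.norm_of_nonneg (by positivity)]
        field_simp)
      rw [inner_smul_right, real_inner_self_eq_norm_sq] at h1
      have e1 : 1 / ‖a t - a s‖ * ‖a t - a s‖ ^ 2 = ‖a t - a s‖ := by
        field_simp
      rw [e1] at h1
      exact h1
  -- the curve is Lipschitz
  have hAv : ∀ (w : E), ‖w‖ = 1 → ∀ s t, s ≤ t → ‖A t w - A s w‖ ≤ 4 * K * (t - s) := by
    intro w hw s t hst
    have hcontA : Continuous fun s : ℝ => A s w := by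
      have e2 : Continuous fun s : ℝ => (Real.exp (σ s))⁻¹ • (Real.exp (σ s) • A s w) := by
        apply Continuous.smul
        · exact hcontρ.inv₀ fun s => (Real.exp_pos _).ne'
        · exact hcontv w hw
      refine e2.congr fun s => ?_
      rw [smul_smul, inv_mul_cancel₀ (Real.exp_pos _).ne', one_smul]
    apply path_le hcontA hst
    intro z _
    apply hex
    filter_upwards [hE2 z w hw, self_mem_nhdsWithin] with h h1 hh0
    have hh0' : 0 < h := hh0
    set ρ₁ := Real.exp (σ z) with hρ₁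
    set ρ₂ := Real.exp (σ (z + h)) with hρ₂
    have hρ₁0 : 0 < ρ₁ := Real.exp_pos _
    have e2 : |ρ₂ - ρ₁| ≤ ‖ρ₂ • A (z + h) w - ρ₁ • A z w‖ := by
      have := abs_norm_sub_norm_le (ρ₂ • A (z + h) w) (ρ₁ • A z w)
      rw [hvn _ w hw, hvn _ w hw] at this
      exact this
    have e3 : ρ₁ * ‖A (z + h) w - A z w‖ ≤
        ‖ρ₂ • A (z + h) w - ρ₁ • A z w‖ + |ρ₂ - ρ₁| := by
      have f1 : ρ₁ • (A (z + h) w - A z w) =
          (ρ₂ • A (z + h) w - ρ₁ • A z w) - (ρ₂ - ρ₁) • A (z + h) w := by
        rw [smul_sub, sub_smul]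
        abel
      have f2 : ‖ρ₁ • (A (z + h) w - A z w)‖ = ρ₁ * ‖A (z + h) w - A z w‖ := by
        rw [norm_smul, Real.norm_of_nonneg hρ₁0.le]
      rw [← f2, f1]
      refine (norm_sub_le _ _).trans ?_
      rw [norm_smul (ρ₂ - ρ₁), LinearIsometryEquiv.norm_map, hw, mul_one, Real.norm_eq_abs]
    have e7 : ρ₁ * ‖A (z + h) w - A z w‖ ≤ ρ₁ * (4 * K * h) := by
      have : ρ₁ * (4 * K * h) = ρ₁ * (2 * K * h) + ρ₁ * (2 * K * h) := by ring
      rw [this]
      linarith
    exact le_of_mul_le_mul_left e7 hρ₁0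
  refine ⟨σ, A, a, fun s t hst => ⟨hdn s t hst, hup s t hst⟩, ?_, hcen, hlima, ?_⟩
  · intro s t x
    by_cases hx : x = 0
    · rw [hx]
      simp
    have hx' : 0 < ‖x‖ := norm_pos_iff.2 hx
    set w : E := (1 / ‖x‖) • x with hw
    have hwn : ‖w‖ = 1 := by
      rw [hw, norm_smul, Real.norm_of_nonneg (by positivity)]
      field_simp
    have hxw : x = ‖x‖ • w := by
      rw [hw, smul_smul, mul_one_div_cancel hx'.ne', one_smul]
    have h1 : ‖A s w - A t w‖ ≤ 4 * K * |s - t| := by
      rcases le_total s t with h | h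
      · rw [norm_sub_rev, abs_sub_comm, abs_of_nonneg (by linarith)]
        exact hAv w hwn s t h
      · rw [abs_of_nonneg (by linarith)]
        exact hAv w hwn t s h
    have h2 : ‖A s x - A t x‖ = ‖x‖ * ‖A s w - A t w‖ := by
      have e1 : A s x = ‖x‖ • A s w := by
        rw [← map_smul, ← hxw]
      have e2 : A t x = ‖x‖ • A t w := by
        rw [← map_smul, ← hxw]
      rw [e1, e2, ← smul_sub, norm_smul, norm_norm]
    rw [h2, mul_comm]
    exact mul_le_mul_of_nonneg_right h1 hx'.le
  · intro x hx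
    rw [rad, LinearIsometryEquiv.norm_map, hexpσ, ← hlogn x hx,
      hA (Real.log ‖x‖) x (hlogn x hx)]
    congr 2
    have := norm_pos_iff.2 hx
    field_simp

end Pool.Agent.Lib.MP_f171f2_an
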