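import Mathlib

/-!
Definitions for the factorisation of block triangular quasiconformal maps.
-/

set_option autoImplicit false

open MeasureTheory

namespace Pool.Agent.Lib.MP_f171f2_an

/-- The linear dilatation
`limsup_{r → 0} max_{|y - x| = r} |f y - f x| / min_{|z - x| = r} |f z - f x|`
of `f` is at most `K` at every point `x` (metric definition of quasiconformality). -/
def LinearDilatationLE {n : ℕ} (K : ℝ)
    (f : EuclideanSpace ℝ (Fin n) → EuclideanSpace ℝ (Fin n)) : Prop :=
  ∀ x : EuclideanSpace ℝ (Fin n), ∀ η > 0, ∃ r > 0, ∀ y z : EuclideanSpace ℝ (Fin n),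
    dist y x = dist z x → dist y x < r → dist (f y) (f x) ≤ (K + η) * dist (f z) (f x)

/-- `b` assigns to every coordinate a block. For every `k` two points have the same coordinates in
the blocks before `k` if and only if their images under `f` have: `f` maps the cosets of the
subspace of vectors that vanish in the blocks before `k` onto such cosets. -/
def PreservesFlag {n N : ℕ} (b : Fin n → Fin N)
    (f : EuclideanSpace ℝ (Fin n) → EuclideanSpace ℝ (Fin n)) : Prop :=
  ∀ (k : ℕ) (x y : EuclideanSpace ℝ (Fin n)),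
    (∀ j : Fin n, (b j : ℕ) < k → x j = y j) ↔ (∀ j : Fin n, (b j : ℕ) < k → f x j = f y j)

/-- The part of a vector in the coordinates of block `k`. -/
noncomputable def blockPart {n N : ℕ} (b : Fin n → Fin N) (k : Fin N)
    (v : EuclideanSpace ℝ (Fin n)) : EuclideanSpace ℝ (Fin n) :=
  WithLp.toLp 2 fun j => if b j = k then v j else 0

/-- Up to a fixed linear isometry `Q` (which preserves the flag too), the derivative of `f` makes no
half-turn in the blocks that have at least two coordinates: for almost every `x`, if `A` is the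
derivative of `f` at `x` and the vector `v` vanishes outside block `k`, then the cosine of the angle
between the part of `Q (A v)` in block `k` and `v` is at least `-(1 - δ)`. -/
def NoHalfTurn {n N : ℕ} (b : Fin n → Fin N) (δ : ℝ)
    (f : EuclideanSpace ℝ (Fin n) → EuclideanSpace ℝ (Fin n)) : Prop :=
  ∃ Q : EuclideanSpace ℝ (Fin n) ≃ₗᵢ[ℝ] EuclideanSpace ℝ (Fin n), PreservesFlag b Q ∧
    ∀ᵐ x : EuclideanSpace ℝ (Fin n),
      ∀ A : EuclideanSpace ℝ (Fin n) →L[ℝ] EuclideanSpace ℝ (Fin n), HasFDerivAt f A x →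
        ∀ k : Fin N, (∃ i j : Fin n, i ≠ j ∧ b i = k ∧ b j = k) →
          ∀ v : EuclideanSpace ℝ (Fin n), (∀ j : Fin n, b j ≠ k → v j = 0) →
            -(1 - δ) * (‖blockPart b k (Q (A v))‖ * ‖v‖) ≤
              inner ℝ (blockPart b k (Q (A v))) v

/-- `S` is a similarity (a conformal map). -/
def IsSimilarity {n : ℕ} (S : EuclideanSpace ℝ (Fin n) ≃ₜ EuclideanSpace ℝ (Fin n)) : Prop :=
  ∃ r > 0, ∀ x y : EuclideanSpace ℝ (Fin n), dist (S x) (S y) = r * dist x y

/-- `g` is `c`-bi-Lipschitz. -/
def IsBilipschitz {n : ℕ} (c : ℝ)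
    (g : EuclideanSpace ℝ (Fin n) ≃ₜ EuclideanSpace ℝ (Fin n)) : Prop :=
  ∀ x y : EuclideanSpace ℝ (Fin n), dist (g x) (g y) ≤ c * dist x y ∧
    dist x y ≤ c * dist (g x) (g y)

end Pool.Agent.Lib.MP_f171f2_an
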