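import Mathlib
import Pool.Agent.Lib.MP_f171f2_an.Defs
import Pool.Agent.Lib.MP_f171f2_an.BlockAE

/-!
Factorisation of block triangular quasiconformal maps: assembly.
-/

set_option autoImplicit false

open MeasureTheory Set Filter Topology

namespace Pool.Agent.Lib.MP_f171f2_an

variable {n N : ℕ}

/-- Coordinate vector. -/
noncomputable def ee (i : Fin n) : EuclideanSpace ℝ (Fin n) := EuclideanSpace.single i (1 : ℝ)

theorem norm_ee (i : Fin n) : ‖ee i‖ = 1 := by
  simp [ee]

theorem add_ee_apply (x : EuclideanSpace ℝ (Fin n)) (s : ℝ) (i j : Fin n) :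
    (x + s • ee i) j = if j = i then x j + s else x j := by
  simp only [ee, PiLp.add_apply, PiLp.smul_apply, PiLp.single_apply, smul_eq_mul]
  split_ifs <;> ring

/-- In a block with one coordinate a flag preserving homeomorphism is monotone. -/
theorem sign_of_single (b : Fin n → Fin N)
    (g : EuclideanSpace ℝ (Fin n) ≃ₜ EuclideanSpace ℝ (Fin n)) (flag : PreservesFlag b g)
    (j : Fin n) (hj : ∀ i, b i = b j → i = j) :
    (∀ x y : EuclideanSpace ℝ (Fin n), (∀ i : Fin n, (b i : ℕ) < (b j : ℕ) → x i = y i) →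
      0 ≤ (g x j - g y j) * (x j - y j)) ∨
    (∀ x y : EuclideanSpace ℝ (Fin n), (∀ i : Fin n, (b i : ℕ) < (b j : ℕ) → x i = y i) →
      (g x j - g y j) * (x j - y j) ≤ 0) := by
  set H : EuclideanSpace ℝ (Fin n) × ℝ → ℝ :=
    fun p => g (p.1 + Real.exp p.2 • ee j) j - g p.1 j with hH
  have hHc : Continuous H := by
    have h1 : Continuous fun p : EuclideanSpace ℝ (Fin n) × ℝ => g (p.1 + Real.exp p.2 • ee j) :=
      g.continuous.comp (by fun_prop)
    have h2 : Continuous fun p : EuclideanSpace ℝ (Fin n) × ℝ => g p.1 :=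
      g.continuous.comp continuous_fst
    have h3 := (EuclideanSpace.proj j : EuclideanSpace ℝ (Fin n) →L[ℝ] ℝ).continuous
    exact (h3.comp h1).sub (h3.comp h2)
  -- extension of agreement by the single coordinate
  have hext : ∀ x y : EuclideanSpace ℝ (Fin n),
      (∀ i : Fin n, (b i : ℕ) < (b j : ℕ) → x i = y i) → x j = y j →
      ∀ i : Fin n, (b i : ℕ) < (b j : ℕ) + 1 → x i = y i := by
    intro x y h1 h2 i hi
    rcases Nat.lt_succ_iff_lt_or_eq.1 hi with h | h
    · exact h1 i h
    · have : i = j := hj i (Fin.ext h)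
      rw [this, h2]
  have hbelow : ∀ (x : EuclideanSpace ℝ (Fin n)) (s : ℝ) (i : Fin n),
      (b i : ℕ) < (b j : ℕ) → (x + s • ee j) i = x i := by
    intro x s i hi
    rw [add_ee_apply, if_neg]
    intro h
    rw [h] at hi
    exact lt_irrefl _ hi
  have hH0 : ∀ p, H p ≠ 0 := by
    rintro ⟨x, s⟩ h0
    simp only [hH] at h0
    have h1 := (flag (b j) (x + Real.exp s • ee j) x).1 (fun i hi => hbelow x _ i hi)
    have h2 := hext _ _ h1 (by linarith)
    have h3 := (flag ((b j : ℕ) + 1) (x + Real.exp s • ee j) x).2 h2 j (Nat.lt_succ_self _)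
    rw [add_ee_apply, if_pos rfl] at h3
    have := Real.exp_pos s
    linarith
  have hsign : (∀ p, 0 < H p) ∨ (∀ p, H p < 0) := by
    by_contra hcon
    push Not at hcon
    obtain ⟨⟨p, hp⟩, ⟨q, hq⟩⟩ := hcon
    obtain ⟨w, hw⟩ := mem_range_of_exists_le_of_exists_ge hHc ⟨p, hp⟩ ⟨q, hq⟩
    exact hH0 w hw
  -- the value of `g` at a point that agrees below
  have hval : ∀ x y : EuclideanSpace ℝ (Fin n),
      (∀ i : Fin n, (b i : ℕ) < (b j : ℕ) → x i = y i) → y j < x j →
      g x j - g y j = H (y, Real.log (x j - y j)) := by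
    intro x y h1 h2
    simp only [hH]
    rw [Real.exp_log (by linarith)]
    have h3 : ∀ i : Fin n, (b i : ℕ) < (b j : ℕ) + 1 → x i = (y + (x j - y j) • ee j) i := by
      apply hext
      · intro i hi
        rw [hbelow y _ i hi]
        exact h1 i hi
      · rw [add_ee_apply, if_pos rfl]
        ring
    have h4 := (flag ((b j : ℕ) + 1) _ _).1 h3 j (Nat.lt_succ_self _)
    rw [h4]
  rcases hsign with hs | hs
  · left
    intro x y h1
    rcases lt_trichotomy (x j) (y j) with h | h | h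
    · have h2 := hval y x (fun i hi => (h1 i hi).symm) h
      have h3 := hs (x, Real.log (y j - x j))
      rw [← h2] at h3
      nlinarith
    · rw [h]
      simp
    · have h2 := hval x y h1 h
      have h3 := hs (y, Real.log (x j - y j))
      rw [← h2] at h3
      nlinarith
  · right
    intro x y h1
    rcases lt_trichotomy (x j) (y j) with h | h | h
    · have h2 := hval y x (fun i hi => (h1 i hi).symm) h
      have h3 := hs (x, Real.log (y j - x j))
      rw [← h2] at h3
      nlinarith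
    · rw [h]
      simp
    · have h2 := hval x y h1 h
      have h3 := hs (y, Real.log (x j - y j))
      rw [← h2] at h3
      nlinarith

/-- Coordinate reflections. -/
noncomputable def refl (c : Fin n → Prop) [DecidablePred c] :
    EuclideanSpace ℝ (Fin n) ≃ₗᵢ[ℝ] EuclideanSpace ℝ (Fin n) :=
  LinearIsometryEquiv.piLpCongrRight 2
    (fun j => if c j then LinearIsometryEquiv.neg ℝ else LinearIsometryEquiv.refl ℝ ℝ)

theorem refl_apply (c : Fin n → Prop) [DecidablePred c] (x : EuclideanSpace ℝ (Fin n))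
    (j : Fin n) : refl c x j = if c j then - x j else x j := by
  unfold refl
  rw [LinearIsometryEquiv.piLpCongrRight_apply]
  split_ifs with h <;> simp [h]

theorem inner_mul_real (a c : ℝ) : inner ℝ a c = a * c := by
  simp [mul_comm]

theorem blockPart_eq (b : Fin n → Fin N) (k : Fin N) (v : EuclideanSpace ℝ (Fin n)) :
    blockPart b k v = blk b k v := by
  ext j
  rw [blk, res_apply]
  simp only [blockPart, Fin.ext_iff]

theorem final (N : ℕ) (K δ ε : ℝ) (hδ : 0 < δ) (hε : 0 < ε) :
    ∃ m : ℕ, ∀ (n : ℕ) (b : Fin n → Fin N), (∃ i j : Fin n, b i ≠ b j) →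
      ∀ f : EuclideanSpace ℝ (Fin n) ≃ₜ EuclideanSpace ℝ (Fin n),
        LinearDilatationLE K f → PreservesFlag b f → NoHalfTurn b δ f →
        ∃ S : EuclideanSpace ℝ (Fin n) ≃ₜ EuclideanSpace ℝ (Fin n), IsSimilarity S ∧
          ∃ l : List (EuclideanSpace ℝ (Fin n) ≃ₜ EuclideanSpace ℝ (Fin n)), l.length = m ∧
            (∀ g ∈ l, IsBilipschitz (1 + ε) g) ∧ f = S * l.prod := by
  classical
  set K' : ℝ := max K 0 + 1 with hK'
  have hK'1 : 1 ≤ K' := by
    rw [hK']
    linarith [le_max_right K 0]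
  set Lam : ℝ := K' ^ 13 with hLamdef
  have hLam : 1 ≤ Lam := one_le_pow₀ hK'1
  set δ' : ℝ := min δ 1 with hδ'
  have hδ'0 : 0 < δ' := lt_min hδ one_pos
  have hδ'1 : δ' ≤ 1 := min_le_right _ _
  refine ⟨steps Lam (((1 + (Lam / √(δ' / 2)) * Lam) ^ N)⁻¹) ε, ?_⟩
  intro n b hb f hdil hflag hturn
  obtain ⟨Q, hQflag, hQ⟩ := hturn
  obtain ⟨i₀, j₀, hij⟩ : ∃ i j : Fin n, b i < b j := by
    obtain ⟨i, j, h⟩ := hb
    rcases lt_or_gt_of_ne h with h | h
    · exact ⟨i, j, h⟩
    · exact ⟨j, i, h⟩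
  set g₀ : EuclideanSpace ℝ (Fin n) ≃ₜ EuclideanSpace ℝ (Fin n) :=
    f.trans Q.toHomeomorph with hg₀
  have hg₀a : ∀ x, g₀ x = Q (f x) := fun x => rfl
  have hg₀flag : PreservesFlag b g₀ := by
    intro k x y
    rw [hflag k x y, hQflag k (f x) (f y)]
    rfl
  have hT : Fol K' (tr b (b j₀)) (ee j₀) (ee i₀) g₀ := by
    refine ⟨hK'1, fun v => norm_res_le _ _, ?_, ?_, ?_, norm_ee _, norm_ee _, ?_, ?_⟩
    · intro v
      ext j
      rw [tr, res_apply, res_apply]
      split_ifs <;> rfl
    · ext j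
      rw [tr, res_apply, ee, PiLp.single_apply]
      split_ifs with h1 h2
      · rw [h2] at h1
        exact absurd h1 (lt_irrefl _)
      · rfl
      · rfl
    · ext j
      rw [tr, res_apply, ee, PiLp.single_apply]
      split_ifs with h1 h2 h2
      · rfl
      · rfl
      · rw [h2] at h1
        exact absurd hij h1
      · rfl
    · intro x y
      rw [tr, res_eq_iff, res_eq_iff]
      exact hg₀flag (b j₀) x y
    · intro x
      obtain ⟨r, hr, h⟩ := hdil x 1 one_pos
      refine ⟨r, hr, fun y z hyz hy => ?_⟩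
      rw [hg₀a, hg₀a, hg₀a, Q.dist_map, Q.dist_map]
      refine (h y z hyz hy).trans ?_
      apply mul_le_mul_of_nonneg_right _ dist_nonneg
      rw [hK']
      linarith [le_max_left K 0]
  obtain ⟨B, hB, hrig⟩ := hT.rigid
  -- reflections
  set c : Fin n → Prop := fun j => (∀ i, b i = b j → i = j) ∧
    ¬ (∀ x y : EuclideanSpace ℝ (Fin n), (∀ i : Fin n, (b i : ℕ) < (b j : ℕ) → x i = y i) →
      0 ≤ (g₀ x j - g₀ y j) * (x j - y j)) with hc
  set R := refl c with hR
  set g : EuclideanSpace ℝ (Fin n) ≃ₜ EuclideanSpace ℝ (Fin n) :=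
    (g₀.trans (Homeomorph.smulOfNeZero B⁻¹ (inv_ne_zero hB.ne'))).trans R.toHomeomorph with hg
  have hga : ∀ x, g x = R (B⁻¹ • g₀ x) := fun x => rfl
  have hgc : ∀ x j, g x j = if c j then -(B⁻¹ * g₀ x j) else B⁻¹ * g₀ x j := by
    intro x j
    rw [hga, hR, refl_apply]
    rfl
  have hgn : ∀ x y, ‖g x - g y‖ = B⁻¹ * ‖g₀ x - g₀ y‖ := by
    intro x y
    rw [hga, hga, ← map_sub, R.norm_map, ← smul_sub, norm_smul,
      Real.norm_of_nonneg (by positivity)]
  have hup : ∀ x y, ‖g x - g y‖ ≤ Lam * ‖x - y‖ := by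
    intro x y
    rw [hgn, inv_mul_le_iff₀ hB]
    have := (hrig y x).1
    calc ‖g₀ x - g₀ y‖ ≤ _ := this
      _ = _ := by rw [hLamdef]; ring
  have hdn : ∀ x y, ‖x - y‖ ≤ Lam * ‖g x - g y‖ := by
    intro x y
    rw [hgn]
    have := (hrig y x).2
    have h2 : Lam * (B⁻¹ * ‖g₀ x - g₀ y‖) = B⁻¹ * (Lam * ‖g₀ x - g₀ y‖) := by ring
    rw [h2, le_inv_mul_iff₀ hB]
    exact this
  have hfl : ∀ (k : ℕ) (x y : EuclideanSpace ℝ (Fin n)),
      (∀ j : Fin n, (b j : ℕ) < k → x j = y j) ↔
        (∀ j : Fin n, (b j : ℕ) < k → g x j = g y j) := by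
    intro k x y
    rw [hg₀flag k x y]
    apply forall_congr'
    intro j
    apply imp_congr_right
    intro _
    rw [hgc, hgc]
    have hBi : B⁻¹ ≠ 0 := inv_ne_zero hB.ne'
    constructor
    · intro h
      rw [h]
    · intro h
      split_ifs at h
      · exact mul_left_cancel₀ hBi (neg_injective h)
      · exact mul_left_cancel₀ hBi h
  -- the one-coordinate blocks
  have hsgn : ∀ i : Fin n, (∀ i', b i' = b i → i' = i) → ∀ x y : EuclideanSpace ℝ (Fin n),
      (∀ i' : Fin n, (b i' : ℕ) < (b i : ℕ) → x i' = y i') →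
      0 ≤ (g x i - g y i) * (x i - y i) := by
    intro i hsing x y hag
    have hBi : 0 < B⁻¹ := by positivity
    rw [hgc, hgc]
    by_cases hci : c i
    · rw [if_pos hci, if_pos hci]
      have hs := (sign_of_single b g₀ hg₀flag i hsing).resolve_left hci.2 x y hag
      have h5 := mul_le_mul_of_nonneg_left hs hBi.le
      rw [mul_zero] at h5
      nlinarith
    · rw [if_neg hci, if_neg hci]
      have hpos : ∀ x y : EuclideanSpace ℝ (Fin n),
          (∀ i' : Fin n, (b i' : ℕ) < (b i : ℕ) → x i' = y i') →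
          0 ≤ (g₀ x i - g₀ y i) * (x i - y i) := by
        by_contra h6
        exact hci ⟨hsing, h6⟩
      have h5 := mul_nonneg hBi.le (hpos x y hag)
      nlinarith
  have hfg : ∀ x, f x = Q.symm (B • R.symm (g x)) := by
    intro x
    rw [hga, R.symm_apply_apply, smul_inv_smul₀ hB.ne', hg₀a, Q.symm_apply_apply]
  have hRs : ∀ (w : EuclideanSpace ℝ (Fin n)) (j : Fin n), ¬ c j → R.symm w j = w j := by
    intro w j hj
    have h1 : R (R.symm w) j = w j := by rw [R.apply_symm_apply]
    rw [hR, refl_apply, if_neg hj] at h1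
    exact h1
  have hang : ∀ᵐ x : EuclideanSpace ℝ (Fin n),
      ∀ A : EuclideanSpace ℝ (Fin n) →L[ℝ] EuclideanSpace ℝ (Fin n), HasFDerivAt g A x →
      ∀ (k : ℕ) (v : EuclideanSpace ℝ (Fin n)), (∀ j : Fin n, (b j : ℕ) ≠ k → v j = 0) →
        -(1 - δ') * (‖blk b k (A v)‖ * ‖v‖) ≤ inner ℝ (blk b k (A v)) v := by
    filter_upwards [hQ] with x hx A hA k v hv
    by_cases hcase : ∃ i j : Fin n, i ≠ j ∧ (b i : ℕ) = k ∧ (b j : ℕ) = k
    · obtain ⟨i, j, hij', hi, hj⟩ := hcase
      set k' : Fin N := b i with hk'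
      have hkk : (k' : ℕ) = k := hi
      -- the derivative of `f`
      have hAf : HasFDerivAt f ((Q.symm : EuclideanSpace ℝ (Fin n) →L[ℝ] EuclideanSpace ℝ (Fin n)).comp
          ((B • (R.symm : EuclideanSpace ℝ (Fin n) →L[ℝ] EuclideanSpace ℝ (Fin n))).comp A)) x := by
        have e1 : HasFDerivAt (fun y => (B • (R.symm : EuclideanSpace ℝ (Fin n) →L[ℝ]
            EuclideanSpace ℝ (Fin n))) (g y)) _ x :=
          (ContinuousLinearMap.hasFDerivAt (B • (R.symm : EuclideanSpace ℝ (Fin n) →L[ℝ]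
            EuclideanSpace ℝ (Fin n)))).comp x hA
        have e2 := ((Q.symm : EuclideanSpace ℝ (Fin n) →L[ℝ]
          EuclideanSpace ℝ (Fin n)).hasFDerivAt).comp x e1
        exact e2.congr_of_eventuallyEq (Eventually.of_forall fun y => hfg y)
      have h1 := hx _ hAf k' ⟨i, j, hij', rfl, Fin.ext (hj.trans hkk.symm)⟩ v (by
        intro j' hj'
        apply hv
        intro h
        exact hj' (Fin.ext (h.trans hkk.symm)))
      have h0 : Q (((Q.symm : EuclideanSpace ℝ (Fin n) →L[ℝ] EuclideanSpace ℝ (Fin n)).comp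
          ((B • (R.symm : EuclideanSpace ℝ (Fin n) →L[ℝ] EuclideanSpace ℝ (Fin n))).comp A)) v) =
          B • R.symm (A v) := by
        change Q (Q.symm (B • R.symm (A v))) = _
        rw [Q.apply_symm_apply]
      rw [h0, blockPart_eq, hkk] at h1
      have h2 : blk b k (A v) = B⁻¹ • blk b k (B • R.symm (A v)) := by
        rw [map_smul, inv_smul_smul₀ hB.ne']
        ext j'
        rw [blk, res_apply, res_apply]
        split_ifs with hj'
        · have hnc : ¬ c j' := by
            rintro ⟨h3, -⟩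
            have e1 := h3 i (Fin.ext (hi.trans hj'.symm))
            have e2 := h3 j (Fin.ext (hj.trans hj'.symm))
            exact hij' (e1.trans e2.symm)
          exact (hRs _ _ hnc).symm
        · rfl
      rw [h2, norm_smul, inner_smul_left, Real.norm_of_nonneg (by positivity)]
      simp only [conj_trivial]
      have h3 : -(1 - δ') * (‖blk b k (B • R.symm (A v))‖ * ‖v‖) ≤
          -(1 - δ) * (‖blk b k (B • R.symm (A v))‖ * ‖v‖) := by
        apply mul_le_mul_of_nonneg_right _ (by positivity)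
        have := min_le_left δ 1
        linarith
      have h4 := mul_le_mul_of_nonneg_left (h3.trans h1) (by positivity : 0 ≤ B⁻¹)
      calc -(1 - δ') * (B⁻¹ * ‖blk b k (B • R.symm (A v))‖ * ‖v‖) =
          B⁻¹ * (-(1 - δ') * (‖blk b k (B • R.symm (A v))‖ * ‖v‖)) := by ring
        _ ≤ _ := h4
    · push Not at hcase
      have hneg : -(1 - δ') * (‖blk b k (A v)‖ * ‖v‖) ≤ 0 := by
        have h1 : 0 ≤ (1 - δ') * (‖blk b k (A v)‖ * ‖v‖) :=
          mul_nonneg (by linarith) (by positivity)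
        linarith
      refine hneg.trans ?_
      rw [PiLp.inner_apply]
      apply Finset.sum_nonneg
      intro i _
      rw [blk, res_apply, inner_mul_real]
      split_ifs with hi
      · have hsing : ∀ i', b i' = b i → i' = i := by
          intro i' h
          by_contra hne
          exact hcase i' i hne (by rw [h]; exact hi) hi
        have h1 : Tendsto (fun m : ℕ => ((m : ℝ) • (g (x + (m : ℝ)⁻¹ • v) - g x)) i * v i) atTop
            (𝓝 (A v i * v i)) :=
          ((((EuclideanSpace.proj i : EuclideanSpace ℝ (Fin n) →L[ℝ] ℝ).continuous).tendsto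
            _).comp (lim_nat hA v)).mul_const _
        apply ge_of_tendsto h1
        filter_upwards [eventually_gt_atTop 0] with m hm
        have hm' : (0 : ℝ) < m := by exact_mod_cast hm
        have h2 := hsgn i hsing (x + (m : ℝ)⁻¹ • v) x (by
          intro i' hi'
          rw [PiLp.add_apply, PiLp.smul_apply, hv i' (by omega), smul_zero, add_zero])
        rw [PiLp.add_apply, PiLp.smul_apply, add_sub_cancel_left, smul_eq_mul] at h2
        rw [PiLp.smul_apply, PiLp.sub_apply, smul_eq_mul]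
        have h3 : (m : ℝ) * (g (x + (m : ℝ)⁻¹ • v) i - g x i) * v i =
            (m : ℝ) ^ 2 * ((g (x + (m : ℝ)⁻¹ • v) i - g x i) * ((m : ℝ)⁻¹ * v i)) := by
          field_simp
        rw [h3]
        exact mul_nonneg (by positivity) h2
      · simp
  obtain ⟨l, hl1, hl2, hl3⟩ := block_factor_ae b g Lam δ' hLam hδ'0 hδ'1 hup hdn hfl hang ε hε
  set S : EuclideanSpace ℝ (Fin n) ≃ₜ EuclideanSpace ℝ (Fin n) :=
    (R.symm.toHomeomorph.trans (Homeomorph.smulOfNeZero B hB.ne')).trans
      Q.symm.toHomeomorph with hS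
  have hSa : ∀ x, S x = Q.symm (B • R.symm x) := fun x => rfl
  refine ⟨S, ⟨B, hB, ?_⟩, l, hl1, hl2, ?_⟩
  · intro x y
    rw [hSa, hSa, Q.symm.dist_map, dist_smul₀, Real.norm_of_nonneg hB.le, R.symm.dist_map]
  · ext1 x
    change f x = S (l.prod x)
    rw [hl3, hSa, hga, R.symm_apply_apply, smul_inv_smul₀ hB.ne', hg₀a, Q.symm_apply_apply]

end Pool.Agent.Lib.MP_f171f2_an
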