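import Pool.Agent.Lib.MP_f171f2_an.Defs

/-!
Similarities and gluing of homeomorphisms supported in disjoint balls.
-/

set_option autoImplicit false

open Metric

namespace Pool.Agent.Lib.MP_f171f2_an

variable {n : ℕ}

/-- The similarity `x ↦ c + r x`. -/
noncomputable def affSim (c : EuclideanSpace ℝ (Fin n)) (r : ℝ) (hr : 0 < r) :
    EuclideanSpace ℝ (Fin n) ≃ₜ EuclideanSpace ℝ (Fin n) :=
  (Homeomorph.smulOfNeZero r hr.ne').trans (Homeomorph.addLeft c)

lemma affSim_apply (c : EuclideanSpace ℝ (Fin n)) (r : ℝ) (hr : 0 < r)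
    (x : EuclideanSpace ℝ (Fin n)) : affSim c r hr x = c + r • x := rfl

lemma affSim_dist (c : EuclideanSpace ℝ (Fin n)) (r : ℝ) (hr : 0 < r)
    (x y : EuclideanSpace ℝ (Fin n)) :
    dist (affSim c r hr x) (affSim c r hr y) = r * dist x y := by
  rw [affSim_apply, affSim_apply, dist_add_left, dist_smul₀, Real.norm_of_nonneg hr.le]

lemma affSim_isSimilarity (c : EuclideanSpace ℝ (Fin n)) (r : ℝ) (hr : 0 < r) :
    IsSimilarity (affSim c r hr) := ⟨r, hr, affSim_dist c r hr⟩

lemma affSim_inv_dist (c : EuclideanSpace ℝ (Fin n)) (r : ℝ) (hr : 0 < r)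
    (x y : EuclideanSpace ℝ (Fin n)) :
    dist ((affSim c r hr)⁻¹ x) ((affSim c r hr)⁻¹ y) = r⁻¹ * dist x y := by
  have h := affSim_dist c r hr ((affSim c r hr)⁻¹ x) ((affSim c r hr)⁻¹ y)
  rw [Homeomorph.inv_apply, Homeomorph.inv_apply, Homeomorph.apply_symm_apply,
    Homeomorph.apply_symm_apply] at h
  rw [h, Homeomorph.inv_apply, Homeomorph.inv_apply, inv_mul_cancel_left₀ hr.ne']

lemma affSim_inv_isSimilarity (c : EuclideanSpace ℝ (Fin n)) (r : ℝ) (hr : 0 < r) :
    IsSimilarity (affSim c r hr)⁻¹ := ⟨r⁻¹, inv_pos.2 hr, affSim_inv_dist c r hr⟩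

/-- The linear dilatation does not change under similarities. -/
lemma LinearDilatationLE.comp_sim {K : ℝ}
    {f : EuclideanSpace ℝ (Fin n) → EuclideanSpace ℝ (Fin n)} (hf : LinearDilatationLE K f)
    {S T : EuclideanSpace ℝ (Fin n) → EuclideanSpace ℝ (Fin n)} {a b : ℝ} (ha : 0 < a)
    (hb : 0 < b) (hS : ∀ x y, dist (S x) (S y) = a * dist x y)
    (hT : ∀ x y, dist (T x) (T y) = b * dist x y) :
    LinearDilatationLE K (fun x => S (f (T x))) := by
  intro x η hη
  obtain ⟨r, hr, h⟩ := hf (T x) η hη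
  refine ⟨r / b, div_pos hr hb, fun y z hyz hy => ?_⟩
  have h1 := h (T y) (T z) (by rw [hT, hT, hyz]) (by
    rw [hT]; rw [lt_div_iff₀ hb] at hy; linarith [mul_comm b (dist y x)])
  show dist (S (f (T y))) (S (f (T x))) ≤ (K + η) * dist (S (f (T z))) (S (f (T x)))
  rw [hS, hS]
  calc a * dist (f (T y)) (f (T x)) ≤ a * ((K + η) * dist (f (T z)) (f (T x))) :=
        mul_le_mul_of_nonneg_left h1 ha.le
    _ = (K + η) * (a * dist (f (T z)) (f (T x))) := by ring

/-- Linear dilatation is a local property: enough to know `f` near every point. -/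
lemma LinearDilatationLE.at_of_eqOn {K : ℝ}
    {f g : EuclideanSpace ℝ (Fin n) → EuclideanSpace ℝ (Fin n)} (hf : LinearDilatationLE K f)
    {x : EuclideanSpace ℝ (Fin n)} {ρ : ℝ} (hρ : 0 < ρ) (hfg : ∀ y, dist y x < ρ → g y = f y)
    (η : ℝ) (hη : 0 < η) :
    ∃ r > 0, ∀ y z : EuclideanSpace ℝ (Fin n),
      dist y x = dist z x → dist y x < r → dist (g y) (g x) ≤ (K + η) * dist (g z) (g x) := by
  obtain ⟨r, hr, h⟩ := hf x η hη
  refine ⟨min r ρ, lt_min hr hρ, fun y z hyz hy => ?_⟩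
  have hy1 := lt_of_lt_of_le hy (min_le_left _ _)
  have hy2 := lt_of_lt_of_le hy (min_le_right _ _)
  rw [hfg y hy2, hfg z (hyz ▸ hy2), hfg x (by rw [dist_self]; exact hρ)]
  exact h y z hyz hy1

section glue

variable (c : ℕ → EuclideanSpace ℝ (Fin n)) (r : ℕ → ℝ)
  (h : ℕ → (EuclideanSpace ℝ (Fin n) ≃ₜ EuclideanSpace ℝ (Fin n)))

/-- The map that is `h m` on the ball `m` for every `m` and the identity elsewhere. -/
noncomputable def glueFun (x : EuclideanSpace ℝ (Fin n)) : EuclideanSpace ℝ (Fin n) :=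
  x + ∑' m, (h m x - x)

variable {c r h}

lemma mem_ball_of_fix {f : EuclideanSpace ℝ (Fin n) ≃ₜ EuclideanSpace ℝ (Fin n)}
    {c₀ : EuclideanSpace ℝ (Fin n)} {r₀ : ℝ} (hf : ∀ x, x ∉ ball c₀ r₀ → f x = x)
    {x : EuclideanSpace ℝ (Fin n)} (hx : x ∈ ball c₀ r₀) : f x ∈ ball c₀ r₀ := by
  by_contra hn
  exact hn ((f.injective (hf _ hn)).symm ▸ hx)

lemma glueFun_of_mem (hfix : ∀ m x, x ∉ ball (c m) (r m) → h m x = x)
    (hdisj : ∀ m k x, x ∈ closedBall (c m) (r m) → x ∈ closedBall (c k) (r k) → m = k)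
    {k : ℕ} {x : EuclideanSpace ℝ (Fin n)} (hx : x ∈ closedBall (c k) (r k)) :
    glueFun h x = h k x := by
  unfold glueFun
  rw [tsum_eq_single k]
  · abel
  · intro m hm
    rw [hfix m x (fun hx' => hm (hdisj m k x (ball_subset_closedBall hx') hx)), sub_self]

lemma glueFun_of_not_mem (hfix : ∀ m x, x ∉ ball (c m) (r m) → h m x = x)
    {x : EuclideanSpace ℝ (Fin n)} (hx : ∀ k, x ∉ ball (c k) (r k)) :
    glueFun h x = x := by
  unfold glueFun
  have : ∀ m, h m x - x = 0 := fun m => by rw [hfix m x (hx m), sub_self]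
  simp [this]

lemma glueFun_sub_le (hfix : ∀ m x, x ∉ ball (c m) (r m) → h m x = x) (hr : ∀ m, 0 < r m)
    (m : ℕ) (x : EuclideanSpace ℝ (Fin n)) : ‖h m x - x‖ ≤ 2 * r m := by
  by_cases hx : x ∈ ball (c m) (r m)
  · have h1 := mem_ball_of_fix (hfix m) hx
    rw [mem_ball] at hx h1
    rw [← dist_eq_norm]
    have := dist_triangle_right (h m x) x (c m)
    linarith
  · rw [hfix m x hx, sub_self, norm_zero]
    linarith [hr m]

lemma continuous_glueFun (hfix : ∀ m x, x ∉ ball (c m) (r m) → h m x = x) (hr : ∀ m, 0 < r m)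
    (hs : Summable r) : Continuous (glueFun h) := by
  refine continuous_id.add (continuous_tsum (u := fun m => 2 * r m) (fun m => ?_)
    (hs.mul_left 2) (fun m x => glueFun_sub_le hfix hr m x))
  exact (h m).continuous.sub continuous_id

lemma glueFun_glueFun (hfix : ∀ m x, x ∉ ball (c m) (r m) → h m x = x)
    (hdisj : ∀ m k x, x ∈ closedBall (c m) (r m) → x ∈ closedBall (c k) (r k) → m = k)
    {h' : ℕ → (EuclideanSpace ℝ (Fin n) ≃ₜ EuclideanSpace ℝ (Fin n))}
    (hfix' : ∀ m x, x ∉ ball (c m) (r m) → h' m x = x) (hh : ∀ m x, h' m (h m x) = x)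
    (x : EuclideanSpace ℝ (Fin n)) : glueFun h' (glueFun h x) = x := by
  by_cases hx : ∃ k, x ∈ ball (c k) (r k)
  · obtain ⟨k, hk⟩ := hx
    rw [glueFun_of_mem hfix hdisj (ball_subset_closedBall hk),
      glueFun_of_mem hfix' hdisj (ball_subset_closedBall (mem_ball_of_fix (hfix k) hk)), hh]
  · push Not at hx
    rw [glueFun_of_not_mem hfix hx, glueFun_of_not_mem hfix' hx]

lemma fix_inv (hfix : ∀ m x, x ∉ ball (c m) (r m) → h m x = x) (m : ℕ)
    (x : EuclideanSpace ℝ (Fin n)) (hx : x ∉ ball (c m) (r m)) : (h m)⁻¹ x = x := by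
  rw [Homeomorph.inv_apply, Homeomorph.symm_apply_eq, hfix m x hx]

/-- The glued homeomorphism. -/
lemma exists_glue (hfix : ∀ m x, x ∉ ball (c m) (r m) → h m x = x)
    (hdisj : ∀ m k x, x ∈ closedBall (c m) (r m) → x ∈ closedBall (c k) (r k) → m = k)
    (hr : ∀ m, 0 < r m) (hs : Summable r) :
    ∃ G : EuclideanSpace ℝ (Fin n) ≃ₜ EuclideanSpace ℝ (Fin n),
      (∀ k, ∀ x ∈ closedBall (c k) (r k), G x = h k x) ∧
      (∀ x, (∀ k, x ∉ ball (c k) (r k)) → G x = x) := by
  refine ⟨{ toFun := glueFun h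
            invFun := glueFun (fun m => (h m)⁻¹)
            left_inv := glueFun_glueFun hfix hdisj (fix_inv hfix) (fun m x => by
              show (h m).symm (h m x) = x
              exact (h m).symm_apply_apply x)
            right_inv := glueFun_glueFun (fix_inv hfix) hdisj hfix (fun m x => by
              show h m ((h m).symm x) = x
              exact (h m).apply_symm_apply x)
            continuous_toFun := continuous_glueFun hfix hr hs
            continuous_invFun := continuous_glueFun (h := fun m => (h m)⁻¹) (fix_inv hfix) hr hs },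
    fun k x hx => glueFun_of_mem hfix hdisj hx, fun x hx => glueFun_of_not_mem hfix hx⟩

end glue

end Pool.Agent.Lib.MP_f171f2_an
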