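import Mathlib
import Pool.Agent.Lib.MP_f171f2_an.Final

/-!
Bi-Lipschitz homeomorphisms of `ℝⁿ` whose derivative makes no half-turn.
-/

set_option autoImplicit false

open MeasureTheory Set Filter Topology

namespace Pool.Agent.Lib.MP_f171f2_an

/-- Up to a fixed linear isometry `Q` the derivative of `f` makes no half-turn: for almost every
`x`, if `A` is the derivative of `f` at `x`, then for every vector `v` the cosine of the angle
between `Q (A v)` and `v` is at least `-(1 - δ)`. -/
def DerivNoHalfTurn {n : ℕ} (δ : ℝ)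
    (f : EuclideanSpace ℝ (Fin n) → EuclideanSpace ℝ (Fin n)) : Prop :=
  ∃ Q : EuclideanSpace ℝ (Fin n) ≃ₗᵢ[ℝ] EuclideanSpace ℝ (Fin n),
    ∀ᵐ x : EuclideanSpace ℝ (Fin n),
      ∀ A : EuclideanSpace ℝ (Fin n) →L[ℝ] EuclideanSpace ℝ (Fin n), HasFDerivAt f A x →
        ∀ v : EuclideanSpace ℝ (Fin n), -(1 - δ) * (‖A v‖ * ‖v‖) ≤ inner ℝ (Q (A v)) v

theorem one_block (L δ ε : ℝ) (hδ : 0 < δ) (hε : 0 < ε) :
    ∃ m : ℕ, ∀ (n : ℕ) (f : EuclideanSpace ℝ (Fin n) ≃ₜ EuclideanSpace ℝ (Fin n)),
      IsBilipschitz L f → DerivNoHalfTurn δ f →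
      ∃ S : EuclideanSpace ℝ (Fin n) ≃ₜ EuclideanSpace ℝ (Fin n), Isometry S ∧
        ∃ l : List (EuclideanSpace ℝ (Fin n) ≃ₜ EuclideanSpace ℝ (Fin n)), l.length = m ∧
          (∀ g ∈ l, IsBilipschitz (1 + ε) g) ∧ f = S * l.prod := by
  set Lam : ℝ := max L 1 with hLamdef
  have hLam : 1 ≤ Lam := le_max_right _ _
  set δ' : ℝ := min δ 1 with hδ'
  have hδ'0 : 0 < δ' := lt_min hδ one_pos
  have hδ'1 : δ' ≤ 1 := min_le_right _ _
  refine ⟨steps Lam (((1 + (Lam / √(δ' / 2)) * Lam) ^ 1)⁻¹) ε, ?_⟩
  rintro n f hf ⟨Q, hQ⟩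
  set g : EuclideanSpace ℝ (Fin n) ≃ₜ EuclideanSpace ℝ (Fin n) := f.trans Q.toHomeomorph with hg
  have hga : ∀ x, g x = Q (f x) := fun x => rfl
  set b : Fin n → Fin 1 := fun _ => 0 with hb
  have hgn : ∀ x y, ‖g x - g y‖ = ‖f x - f y‖ := by
    intro x y
    rw [hga, hga, ← map_sub, Q.norm_map]
  obtain ⟨l, hl1, hl2, hl3⟩ := block_factor_ae b g Lam δ' hLam hδ'0 hδ'1 (by
      intro x y
      rw [hgn]
      have := (hf x y).1
      rw [dist_eq_norm, dist_eq_norm] at this
      exact this.trans (mul_le_mul_of_nonneg_right (le_max_left _ _) (norm_nonneg _))) (by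
      intro x y
      rw [hgn]
      have := (hf x y).2
      rw [dist_eq_norm, dist_eq_norm] at this
      exact this.trans (mul_le_mul_of_nonneg_right (le_max_left _ _) (norm_nonneg _))) (by
      intro k x y
      rcases Nat.eq_zero_or_pos k with hk | hk
      · subst hk
        simp
      · have h0 : ∀ j : Fin n, (b j : ℕ) < k := fun j => by
          simp [hb, hk]
        constructor
        · intro h j _
          have : x = y := by
            ext i
            exact h i (h0 i)
          rw [this]
        · intro h j _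
          have : g x = g y := by
            ext i
            exact h i (h0 i)
          rw [g.injective this]) (by
      filter_upwards [hQ] with x hx A hA k v hv
      rcases Nat.eq_zero_or_pos k with hk | hk
      · subst hk
        have hblk : blk b 0 (A v) = A v := by
          ext j
          rw [blk, res_apply, if_pos (by simp [hb])]
        rw [hblk]
        have hAf : HasFDerivAt f ((Q.symm : EuclideanSpace ℝ (Fin n) →L[ℝ]
            EuclideanSpace ℝ (Fin n)).comp A) x := by
          have e2 := ((Q.symm : EuclideanSpace ℝ (Fin n) →L[ℝ]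
            EuclideanSpace ℝ (Fin n)).hasFDerivAt).comp x hA
          refine e2.congr_of_eventuallyEq (Eventually.of_forall fun y => ?_)
          change f y = Q.symm (g y)
          rw [hga, Q.symm_apply_apply]
        have h1 := hx _ hAf v
        have h0 : Q (((Q.symm : EuclideanSpace ℝ (Fin n) →L[ℝ]
            EuclideanSpace ℝ (Fin n)).comp A) v) = A v := by
          change Q (Q.symm (A v)) = _
          rw [Q.apply_symm_apply]
        have h0' : ‖((Q.symm : EuclideanSpace ℝ (Fin n) →L[ℝ]
            EuclideanSpace ℝ (Fin n)).comp A) v‖ = ‖A v‖ := by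
          change ‖Q.symm (A v)‖ = _
          rw [Q.symm.norm_map]
        rw [h0, h0'] at h1
        refine le_trans ?_ h1
        apply mul_le_mul_of_nonneg_right _ (by positivity)
        have := min_le_left δ 1
        linarith
      · have hv0 : v = 0 := by
          ext j
          exact hv j (by simp [hb]; omega)
        rw [hv0]
        simp) ε hε
  set S : EuclideanSpace ℝ (Fin n) ≃ₜ EuclideanSpace ℝ (Fin n) := Q.symm.toHomeomorph with hS
  refine ⟨S, Q.symm.isometry, l, hl1, hl2, ?_⟩
  ext1 x
  change f x = S (l.prod x)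
  rw [hl3, hga]
  exact (Q.symm_apply_apply _).symm

end Pool.Agent.Lib.MP_f171f2_an
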