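import Mathlib
import Pool.Agent.Lib.MP_f171f2_an.Engine
import Pool.Agent.Lib.MP_f171f2_an.Centres

/-!
Similarities of spheres, and the map that shifts concentric spheres.
-/

set_option autoImplicit false

open Set Filter Topology

namespace Pool.Agent.Lib.MP_f171f2_an

variable {E : Type*} [NormedAddCommGroup E] [InnerProductSpace ℝ E]

/-- A map which multiplies the distances on a sphere centred at the origin by a constant is on this
sphere the restriction of a similarity. -/
theorem extend_similarity [FiniteDimensional ℝ E] (g : E → E) (r c : ℝ) (hr : 0 < r) (hc : 0 < c)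
    (h : ∀ x y, ‖x‖ = r → ‖y‖ = r → ‖g x - g y‖ = c * ‖x - y‖) :
    ∃ (a : E) (Q : E ≃ₗᵢ[ℝ] E), ∀ x, ‖x‖ = r → g x = a + c • Q x := by
  by_cases hv : ∃ v : E, ‖v‖ = r
  swap
  · exact ⟨0, LinearIsometryEquiv.refl ℝ E, fun x hx => absurd ⟨x, hx⟩ hv⟩
  obtain ⟨v, hv⟩ := hv
  set a : E := (1 / 2 : ℝ) • (g v + g (-v)) with ha
  have hvn : ‖-v‖ = r := by rw [norm_neg, hv]
  -- the distance to the centre
  have hcen : ∀ y, ‖y‖ = r → ‖g y - a‖ ^ 2 = (c * r) ^ 2 := by
    intro y hy
    have e1 := h y v hy hv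
    have e2 := h y (-v) hy hvn
    have e3 := h v (-v) hv hvn
    have p1 : ‖g y - g v‖ ^ 2 + ‖g y - g (-v)‖ ^ 2 = 2 * ‖g y - a‖ ^ 2 +
        (1 / 2) * ‖g v - g (-v)‖ ^ 2 := by
      have f1 : g y - g v = (g y - a) - (1 / 2 : ℝ) • (g v - g (-v)) := by
        rw [ha]
        module
      have f2 : g y - g (-v) = (g y - a) + (1 / 2 : ℝ) • (g v - g (-v)) := by
        rw [ha]
        module
      rw [f1, f2, norm_sub_sq_real, norm_add_sq_real, norm_smul,
        Real.norm_of_nonneg (by norm_num : (0 : ℝ) ≤ 1 / 2)]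
      ring
    have p2 : ‖y - v‖ ^ 2 + ‖y - -v‖ ^ 2 = 4 * r ^ 2 := by
      rw [sub_neg_eq_add, norm_sub_sq_real, norm_add_sq_real, hy, hv]
      ring
    have p3 : ‖v - -v‖ = 2 * r := by
      have : v - -v = (2 : ℝ) • v := by module
      rw [this, norm_smul, hv]
      norm_num
    rw [e1, e2, e3, p3, mul_pow, mul_pow, ← mul_add, p2] at p1
    nlinarith
  have hcen' : ∀ y, ‖y‖ = r → ‖g y - a‖ = c * r := by
    intro y hy
    have := hcen y hy
    exact (pow_left_inj₀ (norm_nonneg _) (by positivity) two_ne_zero).1 this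
  -- inner products
  have hinner : ∀ x y, ‖x‖ = r → ‖y‖ = r →
      inner ℝ (g x - a) (g y - a) = c ^ 2 * inner ℝ x y := by
    intro x y hx hy
    have e1 : ‖(g x - a) - (g y - a)‖ ^ 2 = (c * ‖x - y‖) ^ 2 := by
      rw [sub_sub_sub_cancel_right, h x y hx hy]
    have e2 : (c * ‖x - y‖) ^ 2 = c ^ 2 * (r ^ 2 - 2 * inner ℝ x y + r ^ 2) := by
      rw [mul_pow, norm_sub_sq_real, hx, hy]
    rw [norm_sub_sq_real, hcen' x hx, hcen' y hy, e2] at e1
    nlinarith
  -- the orthonormal basis and its image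
  set b := stdOrthonormalBasis ℝ E with hb
  set w : Fin (Module.finrank ℝ E) → E := fun i => (1 / (c * r)) • (g (r • b i) - a) with hw
  have hbn : ∀ i, ‖r • b i‖ = r := by
    intro i
    rw [norm_smul, b.norm_eq_one, mul_one, Real.norm_of_nonneg hr.le]
  have hwo : Orthonormal ℝ w := by
    rw [orthonormal_iff_ite]
    intro i j
    have e1 := orthonormal_iff_ite.1 b.orthonormal i j
    simp only [hw]
    rw [inner_smul_left, inner_smul_right, hinner _ _ (hbn i) (hbn j), inner_smul_left,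
      inner_smul_right, e1]
    simp only [RCLike.conj_to_real]
    split_ifs
    · field_simp
    · simp
  have hspan : ⊤ ≤ Submodule.span ℝ (Set.range w) :=
    (hwo.linearIndependent.span_eq_top_of_card_eq_finrank' (by simp)).ge
  set b' := OrthonormalBasis.mk hwo hspan with hb'
  have hb'w : ∀ i, b' i = w i := fun i => by
    rw [hb', OrthonormalBasis.coe_mk]
  set Q : E ≃ₗᵢ[ℝ] E := b.equiv b' (Equiv.refl _) with hQ
  have hQb : ∀ i, Q (b i) = w i := fun i => by
    rw [hQ, OrthonormalBasis.equiv_apply_basis, Equiv.refl_apply, hb'w]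
  refine ⟨a, Q, fun x hx => ?_⟩
  have key : (1 / c) • (g x - a) = Q x := by
    apply InnerProductSpace.ext_inner_left_basis b'.toBasis
    intro i
    have e0 : b'.toBasis i = w i := by
      rw [OrthonormalBasis.coe_toBasis, hb'w]
    rw [e0]
    have e1 : inner ℝ (w i) (Q x) = inner ℝ (b i) x := by
      rw [← hQb, LinearIsometryEquiv.inner_map_map]
    rw [e1]
    simp only [hw]
    rw [inner_smul_left, inner_smul_right, hinner _ _ (hbn i) hx, inner_smul_left]
    simp only [RCLike.conj_to_real]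
    field_simp
  rw [← key, smul_smul, mul_one_div_cancel hc.ne', one_smul]
  abel

omit [InnerProductSpace ℝ E] in
/-- The map that shifts the spheres centred at the origin. -/
theorem shift_map [NormedSpace ℝ E] (p : E) (o : ℝ ≃o ℝ) (a : ℝ → E) (δ : ℝ) (hδ : δ ≤ 1)
    (ha : ∀ s t, s ≤ t → ‖a t - a s‖ ≤ (1 - δ) * (Real.exp (o t) - Real.exp (o s)))
    (hlim : Tendsto a atBot (𝓝 p)) :
    ∃ β : E → E, (∀ x y, ‖β x - β y‖ ≤ (1 - δ) * ‖x - y‖) ∧ β 0 = p ∧
      ∀ x, x ≠ 0 → β x = a (o.symm (Real.log ‖x‖)) := by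
  classical
  set β : E → E := fun x => if x = 0 then p else a (o.symm (Real.log ‖x‖)) with hβ
  have hβ0 : β 0 = p := by simp [hβ]
  have hβ1 : ∀ x, x ≠ 0 → β x = a (o.symm (Real.log ‖x‖)) := fun x hx => by simp [hβ, hx]
  have hδ' : 0 ≤ 1 - δ := by linarith
  -- the limit at the origin
  have hlim2 : ∀ t, ‖a t - p‖ ≤ (1 - δ) * Real.exp (o t) := by
    intro t
    have h1 : Tendsto (fun s => ‖a t - a s‖) atBot (𝓝 ‖a t - p‖) :=
      (tendsto_const_nhds.sub hlim).norm
    apply le_of_tendsto h1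
    filter_upwards [eventually_le_atBot t] with s hs
    refine (ha s t hs).trans (mul_le_mul_of_nonneg_left ?_ hδ')
    have := Real.exp_pos (o s)
    linarith
  have hnz : ∀ x, x ≠ 0 → ‖β x - β 0‖ ≤ (1 - δ) * ‖x‖ := by
    intro x hx
    rw [hβ0, hβ1 x hx]
    refine (hlim2 _).trans (le_of_eq ?_)
    rw [o.apply_symm_apply, Real.exp_log (norm_pos_iff.2 hx)]
  have hle : ∀ x y, x ≠ 0 → y ≠ 0 → ‖x‖ ≤ ‖y‖ → ‖β y - β x‖ ≤ (1 - δ) * ‖y - x‖ := by
    intro x y hx hy hxy
    have hx' : 0 < ‖x‖ := norm_pos_iff.2 hx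
    have hy' : 0 < ‖y‖ := norm_pos_iff.2 hy
    rw [hβ1 x hx, hβ1 y hy]
    have h1 := ha (o.symm (Real.log ‖x‖)) (o.symm (Real.log ‖y‖))
      (o.symm.monotone (Real.log_le_log hx' hxy))
    rw [o.apply_symm_apply, o.apply_symm_apply, Real.exp_log hx', Real.exp_log hy'] at h1
    exact h1.trans (mul_le_mul_of_nonneg_left (norm_sub_norm_le y x) hδ')
  refine ⟨β, ?_, hβ0, hβ1⟩
  intro x y
  by_cases hx : x = 0
  · by_cases hy : y = 0
    · rw [hx, hy, sub_self, sub_self, norm_zero, mul_zero]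
    · rw [hx, norm_sub_rev, zero_sub, norm_neg]
      exact hnz y hy
  · by_cases hy : y = 0
    · rw [hy, sub_zero]
      exact hnz x hx
    · rcases le_total ‖x‖ ‖y‖ with h | h
      · rw [norm_sub_rev, norm_sub_rev x y]
        exact hle x y hx hy h
      · exact hle y x hy hx h

/-- Factorisation of the identity plus a contraction. -/
theorem shift_factor [CompleteSpace E] (β : E → E) (δ : ℝ) (hδ : 0 < δ)
    (hβ : ∀ x y, ‖β x - β y‖ ≤ (1 - δ) * ‖x - y‖) (η : ℝ) (hη : 0 < η) (hη1 : η ≤ 1 / 2)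
    (m : ℕ) (hm : 0 < m) (hmη : 3 / (δ * m) ≤ η) :
    ∃ l : List (E ≃ₜ E), l.length = m ∧
      (∀ g ∈ l, ∀ x y, (1 - η) * ‖x - y‖ ≤ ‖g x - g y‖ ∧ ‖g x - g y‖ ≤ (1 + η) * ‖x - y‖) ∧
      ∀ x, l.prod x = x + β x := by
  have hm' : (0 : ℝ) < m := by exact_mod_cast hm
  obtain ⟨l, hl, hg, hp⟩ := engine (fun x => x + β x) 2 (by
      intro x y
      have e1 : x + β x - (y + β y) = (x - y) + (β x - β y) := by abel
      rw [e1]
      have e2 := norm_add_le (x - y) (β x - β y)
      have e3 := hβ x y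
      have e4 := norm_nonneg (x - y)
      nlinarith) δ hδ (by
      intro t ht x y
      have e1 : ((1 - t) • x + t • (x + β x)) - ((1 - t) • y + t • (y + β y)) =
          (x - y) - (-(t • (β x - β y))) := by
        module
      rw [e1]
      have e2 := norm_sub_norm_le (x - y) (-(t • (β x - β y)))
      rw [norm_neg, norm_smul, Real.norm_of_nonneg ht.1] at e2
      have e3 := hβ x y
      have e4 := norm_nonneg (β x - β y)
      have e5 : t * ‖β x - β y‖ ≤ 1 * ‖β x - β y‖ := mul_le_mul_of_nonneg_right ht.2 e4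
      linarith) m hm η hη.le (by linarith) (by
      have : (2 : ℝ) + 1 = 3 := by norm_num
      rw [this]
      exact hmη) m le_rfl
  refine ⟨l, hl, ?_, ?_⟩
  · intro g hgl x y
    have h1 := hg g hgl x y
    have h2 := norm_sub_norm_le (g x - g y) (x - y)
    have h3 := norm_sub_norm_le (x - y) (g x - g y)
    rw [norm_sub_rev (x - y)] at h3
    constructor <;> linarith
  · intro x
    rw [hp x, div_self hm'.ne']
    module

end Pool.Agent.Lib.MP_f171f2_an
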