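import Mathlib
import Pool.Agent.Lib.MP_f171f2_an.Defs
import Pool.Agent.Lib.MP_f171f2_an.Shift

/-!
Quasiconformal maps that act by similarities on concentric spheres: assembly.
-/

set_option autoImplicit false

open Set Filter Topology

namespace Pool.Agent.Lib.MP_f171f2_an

/-- `f` acts by similarities on the spheres centred at the origin: on each sphere `‖x‖ = r` it
multiplies all distances by a constant `c` (which may depend on `r` in any way). -/
def ActsBySimilarities {n : ℕ}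
    (f : EuclideanSpace ℝ (Fin n) → EuclideanSpace ℝ (Fin n)) : Prop :=
  ∀ r : ℝ, ∃ c : ℝ, ∀ x y : EuclideanSpace ℝ (Fin n), ‖x‖ = r → ‖y‖ = r →
    dist (f x) (f y) = c * dist x y

/-- Numerical choice of the step of the radial part. -/
theorem choose_eta (ε : ℝ) (hε : 0 < ε) : ∃ η : ℝ, 0 < η ∧ η ≤ 1 / 2 ∧
    ((1 + η) / (1 - η)) ^ 2 ≤ 1 + ε := by
  have hm : 0 < min ε 1 := lt_min hε one_pos
  refine ⟨min ε 1 / 16, by positivity, ?_, ?_⟩
  · have := min_le_right ε 1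
    linarith
  · set t := min ε 1 with ht
    have h1 : t ≤ 1 := min_le_right ε 1
    have h2 : t ≤ ε := min_le_left ε 1
    have hpos : 0 < 1 - t / 16 := by linarith
    have h3 : (1 + t / 16) / (1 - t / 16) ≤ 1 + t / 4 := by
      rw [div_le_iff₀ hpos]
      nlinarith
    have h4 : 0 ≤ (1 + t / 16) / (1 - t / 16) := by positivity
    calc ((1 + t / 16) / (1 - t / 16)) ^ 2 ≤ (1 + t / 4) ^ 2 := by
          exact pow_le_pow_left₀ h4 h3 2
      _ ≤ 1 + t := by nlinarith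
      _ ≤ 1 + ε := by linarith

/-- Numerical choice of the number of spirals. -/
theorem choose_pow (C ε : ℝ) (hC : 0 ≤ C) (hε : 0 < ε) :
    ∃ p : ℕ, (1 + C / 2 ^ p) ^ 2 ≤ 1 + ε := by
  have hm : 0 < min ε 1 := lt_min hε one_pos
  obtain ⟨p, hp⟩ := exists_nat_gt (4 * C / min ε 1)
  have hp2 : (p : ℝ) < 2 ^ p := by exact_mod_cast Nat.lt_two_pow_self
  refine ⟨p, ?_⟩
  set t := min ε 1 with ht
  have h1 : t ≤ 1 := min_le_right ε 1
  have h2 : t ≤ ε := min_le_left ε 1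
  have hpp : (0 : ℝ) < 2 ^ p := by positivity
  have h3 : C / 2 ^ p ≤ t / 4 := by
    rw [div_le_iff₀ hpp]
    have h4 : 4 * C / t < 2 ^ p := lt_trans hp hp2
    rw [div_lt_iff₀ hm] at h4
    linarith
  have h5 : 0 ≤ C / 2 ^ p := by positivity
  calc (1 + C / 2 ^ p) ^ 2 ≤ (1 + t / 4) ^ 2 := pow_le_pow_left₀ (by linarith) (by linarith) 2
    _ ≤ 1 + t := by nlinarith
    _ ≤ 1 + ε := by linarith

/-- Numerical choice of the number of steps. -/
theorem choose_steps (B η : ℝ) (hη : 0 < η) : ∃ m : ℕ, 0 < m ∧ B / m ≤ η := by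
  obtain ⟨m, hm⟩ := exists_nat_gt (max (B / η) 0)
  have hm0 : (0 : ℝ) < m := lt_of_le_of_lt (le_max_right _ _) hm
  refine ⟨m, by exact_mod_cast hm0, ?_⟩
  have h1 := lt_of_le_of_lt (le_max_left _ _) hm
  rw [div_lt_iff₀ hη] at h1
  rw [div_le_iff₀ hm0]
  linarith

/-- **Assembly.** -/
theorem final_spheres (K ε : ℝ) (hε : 0 < ε) :
    ∃ m : ℕ, ∀ n : ℕ, 2 ≤ n →
      ∀ f : EuclideanSpace ℝ (Fin n) ≃ₜ EuclideanSpace ℝ (Fin n),
        LinearDilatationLE K f → ActsBySimilarities f →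
        ∃ l : List (EuclideanSpace ℝ (Fin n) ≃ₜ EuclideanSpace ℝ (Fin n)), l.length = m ∧
          (∀ g ∈ l, LinearDilatationLE (1 + ε) g) ∧ f = l.prod := by
  obtain ⟨η, hη, hη1, hη2⟩ := choose_eta ε hε
  set K' : ℝ := max K 0 + 1 with hK'
  have hK'1 : 1 ≤ K' := by
    have := le_max_right K 0
    linarith
  have hK'0 : 0 < K' := by linarith
  have hKK' : K + 1 ≤ K' := by
    have := le_max_left K 0
    linarith
  set M : ℝ := 2 * K' with hM
  set C : ℝ := 4 * K' with hC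
  set δ : ℝ := 1 / (2 * K' ^ 2) with hδ
  have hδ0 : 0 < δ := by positivity
  have hδ1 : δ ≤ 1 := by
    rw [hδ, div_le_one (by positivity)]
    nlinarith
  have hM1 : 1 ≤ M := by linarith
  have hC0 : 0 ≤ C := by linarith
  obtain ⟨p, hp⟩ := choose_pow C ε hC0 hε
  obtain ⟨m₁, hm₁0, hm₁⟩ := choose_steps (M ^ 2) η hη
  obtain ⟨m₂, hm₂0, hm₂⟩ := choose_steps (3 / δ) η hη
  have hm₂' : 3 / (δ * m₂) ≤ η := by
    rw [div_div] at hm₂
    exact hm₂
  refine ⟨m₂ + (m₁ + 2 ^ p), ?_⟩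
  intro n hn f hdil hsim
  have hE : 1 < Module.rank ℝ (EuclideanSpace ℝ (Fin n)) := by
    rw [← Module.finrank_eq_rank, finrank_euclideanSpace_fin]
    exact_mod_cast hn
  have hnt : Nontrivial (EuclideanSpace ℝ (Fin n)) := by
    rw [← rank_pos_iff_nontrivial (R := ℝ)]
    exact lt_trans zero_lt_one hE
  have hdil' : ∀ x : EuclideanSpace ℝ (Fin n), ∃ r > 0, ∀ y z : EuclideanSpace ℝ (Fin n),
      ‖y - x‖ = ‖z - x‖ → ‖y - x‖ < r → ‖f y - f x‖ ≤ K' * ‖f z - f x‖ := by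
    intro x
    obtain ⟨r, hr, H⟩ := hdil x 1 one_pos
    refine ⟨r, hr, fun y z hyz hy => ?_⟩
    have h := H y z (by rw [dist_eq_norm, dist_eq_norm]; exact hyz)
      (by rw [dist_eq_norm]; exact hy)
    rw [dist_eq_norm, dist_eq_norm] at h
    exact h.trans (mul_le_mul_of_nonneg_right hKK' (norm_nonneg _))
  have hsim' : ∀ r > 0, ∃ c > 0, ∃ a : EuclideanSpace ℝ (Fin n),
      ∃ Q : EuclideanSpace ℝ (Fin n) ≃ₗᵢ[ℝ] EuclideanSpace ℝ (Fin n),
      ∀ x, ‖x‖ = r → f x = a + (c : ℝ) • Q x := by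
    intro r hr
    obtain ⟨c, hc⟩ := hsim r
    have hc' : ∀ x y, ‖x‖ = r → ‖y‖ = r → ‖f x - f y‖ = c * ‖x - y‖ := by
      intro x y hx hy
      rw [← dist_eq_norm, ← dist_eq_norm]
      exact hc x y hx hy
    obtain ⟨v, hv⟩ := exists_norm_eq (EuclideanSpace ℝ (Fin n)) hr.le
    have hv2 : v - -v = (2 : ℝ) • v := by module
    have hvv : 0 < ‖v - -v‖ := by
      rw [hv2, norm_smul, hv]
      norm_num
      exact hr
    have hne : 0 < ‖f v - f (-v)‖ := by
      rw [norm_sub_pos_iff]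
      intro h
      have h2 := f.injective h
      rw [← h2, sub_self, norm_zero] at hvv
      exact lt_irrefl _ hvv
    have hcpos : 0 < c := by
      rw [hc' v (-v) hv (by rw [norm_neg, hv])] at hne
      exact (mul_pos_iff_of_pos_right hvv).1 hne
    obtain ⟨a, Q, hQ⟩ := extend_similarity f r c hr hcpos hc'
    exact ⟨c, hcpos, a, Q, hQ⟩
  obtain ⟨σ, A, a, hσ, hA, ha, hlim, hf⟩ := sphere_structure2 hE f K' hK'1 hdil' hsim'
  obtain ⟨o, ho⟩ := Sl.iso hM1 hσ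
  obtain ⟨β, hβ, hβ0, hβ1⟩ := shift_map (f 0) o a δ hδ1 (fun s t hst => by
    rw [ho, ho]
    exact ha s t hst) hlim
  obtain ⟨l₀, hl₀, hd₀, hp₀⟩ := shift_factor β δ hδ0 hβ η hη hη1 m₂ hm₂0 hm₂'
  obtain ⟨l₁, hl₁, hd₁, hp₁⟩ := rad_factor (E := EuclideanSpace ℝ (Fin n)) σ M hM1 hσ η hη hη1
    m₁ hm₁0 hm₁ m₁ le_rfl
  obtain ⟨L, hL, hLn, hLp⟩ := split_pow p A C hC0 hA
  obtain ⟨l₂, hl₂, hd₂, hp₂⟩ := spiral_list L (C / 2 ^ p) (by positivity) hLn
  have hm₁r : (0 : ℝ) < m₁ := by exact_mod_cast hm₁0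
  have h1η : 0 < 1 - η := by linarith
  refine ⟨l₀ ++ (l₁ ++ l₂), ?_, ?_, ?_⟩
  · rw [List.length_append, List.length_append, hl₀, hl₁, hl₂, hL]
  · intro g hg
    rcases List.mem_append.1 hg with hg | hg
    · intro x θ hθ
      refine ⟨1, one_pos, fun y z hyz _ => ?_⟩
      rw [dist_eq_norm, dist_eq_norm] at hyz
      rw [dist_eq_norm, dist_eq_norm]
      have h1 := (hd₀ g hg y x).2
      have h2 := (hd₀ g hg z x).1
      have h3 : ‖z - x‖ ≤ ‖g z - g x‖ / (1 - η) := by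
        rw [le_div_iff₀ h1η]
        linarith
      have h4 : 1 ≤ (1 + η) / (1 - η) := by
        rw [le_div_iff₀ h1η]
        linarith
      calc ‖g y - g x‖ ≤ (1 + η) * ‖y - x‖ := h1
        _ = (1 + η) * ‖z - x‖ := by rw [hyz]
        _ ≤ (1 + η) * (‖g z - g x‖ / (1 - η)) := mul_le_mul_of_nonneg_left h3 (by linarith)
        _ = (1 + η) / (1 - η) * ‖g z - g x‖ := by ring
        _ ≤ ((1 + η) / (1 - η)) ^ 2 * ‖g z - g x‖ :=
            mul_le_mul_of_nonneg_right (by nlinarith) (norm_nonneg _)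
        _ ≤ (1 + ε + θ) * ‖g z - g x‖ :=
            mul_le_mul_of_nonneg_right (by linarith) (norm_nonneg _)
    rcases List.mem_append.1 hg with hg | hg
    · intro x θ hθ
      obtain ⟨r, hr, H⟩ := hd₁ g hg x
      refine ⟨r, hr, fun y z hyz hy => ?_⟩
      rw [dist_eq_norm, dist_eq_norm] at hyz
      rw [dist_eq_norm] at hy
      rw [dist_eq_norm, dist_eq_norm]
      exact (H y z hyz hy).trans
        (mul_le_mul_of_nonneg_right (by linarith) (norm_nonneg _))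
    · intro x θ hθ
      refine ⟨1, one_pos, fun y z hyz _ => ?_⟩
      rw [dist_eq_norm, dist_eq_norm] at hyz
      rw [dist_eq_norm, dist_eq_norm]
      have h1 := (hd₂ g hg y x).1
      have h2 := (hd₂ g hg z x).2
      have hc : 0 ≤ 1 + C / 2 ^ p := by positivity
      calc ‖g y - g x‖ ≤ (1 + C / 2 ^ p) * ‖y - x‖ := h1
        _ = (1 + C / 2 ^ p) * ‖z - x‖ := by rw [hyz]
        _ ≤ (1 + C / 2 ^ p) * ((1 + C / 2 ^ p) * ‖g z - g x‖) :=
            mul_le_mul_of_nonneg_left h2 hc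
        _ = (1 + C / 2 ^ p) ^ 2 * ‖g z - g x‖ := by ring
        _ ≤ (1 + ε + θ) * ‖g z - g x‖ :=
            mul_le_mul_of_nonneg_right (by linarith) (norm_nonneg _)
  · ext1 x
    rw [List.prod_append, List.prod_append]
    change f x = l₀.prod (l₁.prod (l₂.prod x))
    have hrad : (fun s => (1 - (m₁ : ℝ) / m₁) * s + (m₁ : ℝ) / m₁ * σ s) = σ := by
      funext s
      rw [div_self hm₁r.ne']
      ring
    rw [hp₀, hp₁, hp₂, ← hLp, hrad]
    by_cases hx : x = 0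
    · rw [hx, LinearIsometryEquiv.map_zero, rad_zero, zero_add, hβ0]
    · have hAx : A (Real.log ‖x‖) x ≠ 0 := by
        rw [← norm_pos_iff, LinearIsometryEquiv.norm_map]
        exact norm_pos_iff.2 hx
      have e1 : Real.log ‖rad σ (A (Real.log ‖x‖) x)‖ = σ (Real.log ‖x‖) := by
        rw [norm_rad σ hAx, Real.log_exp, LinearIsometryEquiv.norm_map]
      rw [hβ1 _ (rad_ne_zero σ hAx), e1, ← ho, o.symm_apply_apply, add_comm, ← hf x hx]

end Pool.Agent.Lib.MP_f171f2_an
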