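import Pool.Agent.Lib.MP_f171f2_an.Glue

/-!
Condensation: a sequence of maps supported in the unit ball is glued, in smaller and smaller
copies, to one map; a factorisation of that map near one point gives factorisations of all maps of
the sequence.
-/

set_option autoImplicit false

open Metric

namespace Pool.Agent.Lib.MP_f171f2_an

variable {n : ℕ}

/-- The set `F` of homeomorphisms is closed under conjugation by similarities. -/
def ConjInvariant (F : Set (EuclideanSpace ℝ (Fin n) ≃ₜ EuclideanSpace ℝ (Fin n))) : Prop :=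
  ∀ S, IsSimilarity S → ∀ f ∈ F, S⁻¹ * f * S ∈ F

/-- On the set `s` the map `g` agrees with a composition of `m` members of `F`. -/
def FactorsOn (F : Set (EuclideanSpace ℝ (Fin n) ≃ₜ EuclideanSpace ℝ (Fin n))) (m : ℕ)
    (s : Set (EuclideanSpace ℝ (Fin n)))
    (g : EuclideanSpace ℝ (Fin n) ≃ₜ EuclideanSpace ℝ (Fin n)) : Prop :=
  ∃ l : List (EuclideanSpace ℝ (Fin n) ≃ₜ EuclideanSpace ℝ (Fin n)), l.length = m ∧
    (∀ f ∈ l, f ∈ F) ∧ ∀ x ∈ s, g x = l.prod x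

/-- The distance of the `m`-th ball to the origin. -/
noncomputable def aSeq (m : ℕ) : ℝ := (1 / 4) ^ m / 2

lemma aSeq_pos (m : ℕ) : 0 < aSeq m := by unfold aSeq; positivity

lemma aSeq_le_half (m : ℕ) : aSeq m ≤ 1 / 2 := by
  unfold aSeq
  have : ((1 : ℝ) / 4) ^ m ≤ 1 := pow_le_one₀ (by norm_num) (by norm_num)
  linarith

lemma aSeq_lt {m k : ℕ} (h : m < k) : aSeq k ≤ aSeq m / 4 := by
  unfold aSeq
  have h1 : ((1 : ℝ) / 4) ^ k ≤ (1 / 4) ^ (m + 1) :=
    pow_le_pow_of_le_one (by norm_num) (by norm_num) h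
  rw [pow_succ] at h1
  linarith

/-- The radius of the `m`-th ball. -/
noncomputable def rSeq (m : ℕ) : ℝ := aSeq m ^ 2 / 4

lemma rSeq_pos (m : ℕ) : 0 < rSeq m := by
  unfold rSeq; have := aSeq_pos m; positivity

lemma rSeq_le (m : ℕ) : rSeq m ≤ aSeq m / 8 := by
  unfold rSeq
  nlinarith [aSeq_pos m, aSeq_le_half m]

lemma summable_rSeq : Summable rSeq := by
  have h : rSeq = fun m : ℕ => ((1 : ℝ) / 16) ^ m * (1 / 16) := by
    funext m
    unfold rSeq aSeq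
    rw [div_pow, ← pow_mul, mul_comm m 2, pow_mul]
    norm_num
    ring
  rw [h]
  exact (summable_geometric_of_lt_one (by norm_num) (by norm_num)).mul_right _

lemma norm_bounds {e : EuclideanSpace ℝ (Fin n)} (he : ‖e‖ = 1) {m : ℕ}
    {x : EuclideanSpace ℝ (Fin n)} (hx : x ∈ closedBall (aSeq m • e) (rSeq m)) :
    7 / 8 * aSeq m ≤ ‖x‖ ∧ ‖x‖ ≤ 9 / 8 * aSeq m := by
  rw [mem_closedBall, dist_eq_norm] at hx
  have h0 : ‖aSeq m • e‖ = aSeq m := by
    rw [norm_smul, he, mul_one, Real.norm_of_nonneg (aSeq_pos m).le]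
  have h1 := rSeq_le m
  have h2 := abs_norm_sub_norm_le x (aSeq m • e)
  rw [h0] at h2
  have h3 := abs_le.1 (h2.trans hx)
  constructor <;> linarith [h3.1, h3.2]

lemma balls_disj {m k : ℕ} {s t u : ℝ} (hs : 7 / 8 * u ≤ s) (hs' : s ≤ 9 / 8 * u)
    (ht : 7 / 8 * u ≤ t) (ht' : t ≤ 9 / 8 * u)
    (h1 : 7 / 8 * aSeq m ≤ s) (h2 : s ≤ 9 / 8 * aSeq m)
    (h3 : 7 / 8 * aSeq k ≤ t) (h4 : t ≤ 9 / 8 * aSeq k) : m = k := by
  rcases lt_trichotomy m k with h | h | h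
  · have := aSeq_lt h
    have := aSeq_pos m
    linarith
  · exact h
  · have := aSeq_lt h
    have := aSeq_pos k
    linarith

lemma exists_unit (hn : 0 < n) : ∃ e : EuclideanSpace ℝ (Fin n), ‖e‖ = 1 :=
  ⟨EuclideanSpace.single ⟨0, hn⟩ 1, by simp⟩

lemma exists_sims (c : ℕ → EuclideanSpace ℝ (Fin n)) :
    ∃ T : ℕ → (EuclideanSpace ℝ (Fin n) ≃ₜ EuclideanSpace ℝ (Fin n)),
      (∀ j x, T j x = c j + rSeq j • x) ∧
      (∀ j x y, dist (T j x) (T j y) = rSeq j * dist x y) ∧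
      (∀ j x y, dist ((T j).symm x) ((T j).symm y) = (rSeq j)⁻¹ * dist x y) ∧
      (∀ j, IsSimilarity (T j)) :=
  ⟨fun j => affSim (c j) (rSeq j) (rSeq_pos j), fun _ => affSim_apply _ _ _,
    fun _ => affSim_dist _ _ _, fun _ => affSim_inv_dist _ _ _, fun _ => affSim_isSimilarity _ _ _⟩

lemma exists_scaling (ρ : ℝ) (hρ : 0 < ρ) :
    ∃ T : EuclideanSpace ℝ (Fin n) ≃ₜ EuclideanSpace ℝ (Fin n),
      (∀ x, ‖T x‖ = ρ * ‖x‖) ∧ (∀ x y, dist (T x) (T y) = ρ * dist x y) ∧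
      (∀ x y, dist (T.symm x) (T.symm y) = ρ⁻¹ * dist x y) ∧ IsSimilarity T⁻¹ :=
  ⟨affSim 0 ρ hρ, fun x => by
    rw [affSim_apply, zero_add, norm_smul, Real.norm_of_nonneg hρ.le],
    affSim_dist _ _ _, affSim_inv_dist _ _ _, affSim_inv_isSimilarity _ _ _⟩

/-- **Condensation.** Any sequence of homeomorphisms of linear dilatation at most `K` supported in
the unit ball is contained, in arbitrarily small copies near the origin, in one such
homeomorphism. -/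
lemma exists_condensed (hn : 0 < n) {K : ℝ} (hK : 1 ≤ K)
    (g : ℕ → (EuclideanSpace ℝ (Fin n) ≃ₜ EuclideanSpace ℝ (Fin n)))
    (hg : ∀ m, LinearDilatationLE K (g m)) (hsupp : ∀ m x, 1 ≤ ‖x‖ → g m x = x) :
    ∃ G : EuclideanSpace ℝ (Fin n) ≃ₜ EuclideanSpace ℝ (Fin n),
      LinearDilatationLE K G ∧ (∀ x, 1 ≤ ‖x‖ → G x = x) ∧
      ∀ m, ∀ δ > 0, ∃ S : EuclideanSpace ℝ (Fin n) ≃ₜ EuclideanSpace ℝ (Fin n),
        IsSimilarity S ∧ (∀ x, ‖x‖ ≤ 1 → ‖S x‖ < δ) ∧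
        ∀ x, ‖x‖ ≤ 1 → G (S x) = S (g m x) := by
  obtain ⟨e, he⟩ : ∃ e : EuclideanSpace ℝ (Fin n), ‖e‖ = 1 := exists_unit hn
  obtain ⟨c, hc⟩ : ∃ c : ℕ → EuclideanSpace ℝ (Fin n), ∀ j, c j = aSeq j • e := ⟨_, fun _ => rfl⟩
  obtain ⟨T, hTa, hTd, hTi, hTs⟩ := exists_sims c
  obtain ⟨h, hh⟩ : ∃ h : ℕ → (EuclideanSpace ℝ (Fin n) ≃ₜ EuclideanSpace ℝ (Fin n)),
      ∀ j x, h j x = T j (g (Nat.unpair j).1 ((T j).symm x)) :=
    ⟨fun j => T j * g (Nat.unpair j).1 * (T j)⁻¹, fun _ _ => rfl⟩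
  have hTmem : ∀ j x, ‖x‖ ≤ 1 → T j x ∈ closedBall (c j) (rSeq j) := by
    intro j x hx
    rw [mem_closedBall, dist_eq_norm, hTa, add_sub_cancel_left, norm_smul,
      Real.norm_of_nonneg (rSeq_pos j).le]
    nlinarith [rSeq_pos j]
  have hTinv : ∀ j x, x ∉ ball (c j) (rSeq j) → 1 ≤ ‖(T j).symm x‖ := by
    intro j x hx
    by_contra hlt
    push Not at hlt
    apply hx
    rw [mem_ball, dist_eq_norm]
    have h1 : x = c j + rSeq j • (T j).symm x := by
      rw [← hTa, Homeomorph.apply_symm_apply]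
    have h2 : x - c j = rSeq j • (T j).symm x := by
      rw [sub_eq_iff_eq_add, add_comm]; exact h1
    rw [h2, norm_smul, Real.norm_of_nonneg (rSeq_pos j).le]
    nlinarith [rSeq_pos j]
  have hfix : ∀ j x, x ∉ ball (c j) (rSeq j) → h j x = x := by
    intro j x hx
    rw [hh, hsupp _ _ (hTinv j x hx), Homeomorph.apply_symm_apply]
  have hnb : ∀ j x, x ∈ closedBall (c j) (rSeq j) → 7 / 8 * aSeq j ≤ ‖x‖ ∧ ‖x‖ ≤ 9 / 8 * aSeq j := by
    intro j x hx
    rw [hc] at hx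
    exact norm_bounds he hx
  have hdisj : ∀ m k x, x ∈ closedBall (c m) (rSeq m) → x ∈ closedBall (c k) (rSeq k) → m = k := by
    intro m k x hm hk
    have h1 := hnb m x hm
    have h2 := hnb k x hk
    have h3 := norm_nonneg x
    exact balls_disj (s := ‖x‖) (t := ‖x‖) (u := ‖x‖) (by linarith) (by linarith) (by linarith)
      (by linarith) h1.1 h1.2 h2.1 h2.2
  obtain ⟨G, hG1, hG2⟩ := exists_glue hfix hdisj rSeq_pos summable_rSeq
  have hhK : ∀ j, LinearDilatationLE K (h j) := by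
    intro j
    have := (hg (Nat.unpair j).1).comp_sim (rSeq_pos j) (inv_pos.2 (rSeq_pos j)) (hTd j) (hTi j)
    have h2 : (h j : EuclideanSpace ℝ (Fin n) → EuclideanSpace ℝ (Fin n)) =
      fun x => T j (g (Nat.unpair j).1 ((T j).symm x)) := funext (hh j)
    rw [h2]
    exact this
  have h0 : ∀ k, (0 : EuclideanSpace ℝ (Fin n)) ∉ closedBall (c k) (rSeq k) := by
    intro k hk
    have := (hnb k 0 hk).1
    rw [norm_zero] at this
    linarith [aSeq_pos k]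
  have hG0 : G 0 = 0 := hG2 0 (fun k hk => h0 k (ball_subset_closedBall hk))
  -- `G` is tangent to the identity at the origin
  have hGid : ∀ y, ‖G y - y‖ ≤ ‖y‖ ^ 2 := by
    intro y
    by_cases hy : ∃ k, y ∈ ball (c k) (rSeq k)
    · obtain ⟨k, hk⟩ := hy
      rw [hG1 k y (ball_subset_closedBall hk)]
      have h1 := glueFun_sub_le hfix rSeq_pos k y
      have h2 := (hnb k y (ball_subset_closedBall hk)).1
      have h3 : 2 * rSeq k = aSeq k ^ 2 / 2 := by unfold rSeq; ring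
      have h4 := aSeq_pos k
      nlinarith
    · push Not at hy
      rw [hG2 y hy, sub_self, norm_zero]
      positivity
  refine ⟨G, ?_, ?_, ?_⟩
  · intro x η hη
    by_cases hx : x = 0
    · subst hx
      refine ⟨η / (2 + η), div_pos hη (by linarith), fun y z hyz hy => ?_⟩
      rw [dist_zero_right, dist_zero_right] at hyz
      rw [dist_zero_right, lt_div_iff₀ (by linarith)] at hy
      rw [hG0, dist_zero_right, dist_zero_right]
      have h1 : ‖G y‖ ≤ ‖y‖ + ‖y‖ ^ 2 := by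
        have := norm_add_le y (G y - y)
        rw [add_sub_cancel] at this
        linarith [hGid y]
      have h2 : ‖z‖ - ‖z‖ ^ 2 ≤ ‖G z‖ := by
        have := norm_sub_le (G z) (G z - z)
        rw [sub_sub_cancel] at this
        linarith [hGid z]
      rw [← hyz] at h2
      have h3 : ‖y‖ + ‖y‖ ^ 2 ≤ (1 + η) * (‖y‖ - ‖y‖ ^ 2) := by
        nlinarith [norm_nonneg y]
      have h4 : 0 ≤ ‖G z‖ := norm_nonneg _
      calc ‖G y‖ ≤ (1 + η) * (‖y‖ - ‖y‖ ^ 2) := h1.trans h3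
        _ ≤ (1 + η) * ‖G z‖ := mul_le_mul_of_nonneg_left h2 (by linarith)
        _ ≤ (K + η) * ‖G z‖ := mul_le_mul_of_nonneg_right (by linarith) h4
    · have hxp : 0 < ‖x‖ := norm_pos_iff.2 hx
      have hloc : ∃ k, ∀ y, dist y x < ‖x‖ / 8 → G y = h k y := by
        by_cases hex : ∃ k y, dist y x < ‖x‖ / 8 ∧ y ∈ ball (c k) (rSeq k)
        · obtain ⟨k, y, hy, hyk⟩ := hex
          refine ⟨k, fun z hz => ?_⟩
          by_cases hzk : z ∈ closedBall (c k) (rSeq k)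
          · exact hG1 k z hzk
          · rw [hfix k z (fun hz' => hzk (ball_subset_closedBall hz'))]
            refine hG2 z (fun j hj => ?_)
            have b1 := hnb k y (ball_subset_closedBall hyk)
            have b2 := hnb j z (ball_subset_closedBall hj)
            have d1 := abs_lt.1 (lt_of_le_of_lt (abs_norm_sub_norm_le y x)
              (by rw [← dist_eq_norm]; exact hy))
            have d2 := abs_lt.1 (lt_of_le_of_lt (abs_norm_sub_norm_le z x)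
              (by rw [← dist_eq_norm]; exact hz))
            have hkj : k = j := balls_disj (s := ‖y‖) (t := ‖z‖) (u := ‖x‖)
              (by linarith [d1.1]) (by linarith [d1.2]) (by linarith [d2.1]) (by linarith [d2.2])
              b1.1 b1.2 b2.1 b2.2
            exact hzk (hkj ▸ ball_subset_closedBall hj)
        · push Not at hex
          refine ⟨0, fun z hz => ?_⟩
          rw [hG2 z (fun k => hex k z hz), hfix 0 z (hex 0 z hz)]
      obtain ⟨k, hk⟩ := hloc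
      exact (hhK k).at_of_eqOn (by positivity : (0 : ℝ) < ‖x‖ / 8) hk η hη
  · intro x hx
    refine hG2 x (fun k hk => ?_)
    have h1 := (hnb k x (ball_subset_closedBall hk)).2
    have h2 := aSeq_le_half k
    linarith
  · intro m δ hδ
    obtain ⟨i, hi⟩ := exists_pow_lt_of_lt_one hδ (by norm_num : (1 / 4 : ℝ) < 1)
    set j := Nat.pair m i with hj
    refine ⟨T j, hTs j, fun x hx => ?_, fun x hx => ?_⟩
    · have h1 := (hnb j _ (hTmem j x hx)).2
      have h2 : ((1 : ℝ) / 4) ^ j ≤ (1 / 4) ^ i :=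
        pow_le_pow_of_le_one (by norm_num) (by norm_num) (Nat.right_le_pair m i)
      have h3 : aSeq j ≤ (1 / 4) ^ i / 2 := by unfold aSeq; linarith
      have h4 : (0 : ℝ) < (1 / 4) ^ i := by positivity
      linarith
    · rw [hG1 j _ (hTmem j x hx), hh, Homeomorph.symm_apply_apply, hj, Nat.unpair_pair]

/-- Conjugation of a list of homeomorphisms. -/
lemma prod_conj (l : List (EuclideanSpace ℝ (Fin n) ≃ₜ EuclideanSpace ℝ (Fin n)))
    (S : EuclideanSpace ℝ (Fin n) ≃ₜ EuclideanSpace ℝ (Fin n)) :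
    (l.map (fun f => S⁻¹ * f * S)).prod = S⁻¹ * l.prod * S := by
  induction l with
  | nil => simp
  | cons a l ih => rw [List.map_cons, List.prod_cons, ih, List.prod_cons]; group

theorem uniformity_aux (n : ℕ) (K : ℝ) (hK : 1 ≤ K)
    (F : Set (EuclideanSpace ℝ (Fin n) ≃ₜ EuclideanSpace ℝ (Fin n)))
    (hF : ∀ S, IsSimilarity S → ∀ f ∈ F, S⁻¹ * f * S ∈ F)
    (hfin : ∀ g : EuclideanSpace ℝ (Fin n) ≃ₜ EuclideanSpace ℝ (Fin n),
      LinearDilatationLE K g → (∀ x, 1 ≤ ‖x‖ → g x = x) →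
      ∃ (l : List (EuclideanSpace ℝ (Fin n) ≃ₜ EuclideanSpace ℝ (Fin n))) (δ : ℝ),
        0 < δ ∧ (∀ f ∈ l, f ∈ F) ∧ ∀ x, ‖x‖ < δ → g x = l.prod x) :
    ∃ m : ℕ, ∀ g : EuclideanSpace ℝ (Fin n) ≃ₜ EuclideanSpace ℝ (Fin n),
      LinearDilatationLE K g → (∃ R, ∀ x, R ≤ ‖x‖ → g x = x) → ∀ R : ℝ,
      ∃ l : List (EuclideanSpace ℝ (Fin n) ≃ₜ EuclideanSpace ℝ (Fin n)), l.length = m ∧
        (∀ f ∈ l, f ∈ F) ∧ ∀ x, ‖x‖ ≤ R → g x = l.prod x := by
  rcases Nat.eq_zero_or_pos n with hn | hn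
  · subst hn
    exact ⟨0, fun g _ _ R => ⟨[], rfl, by simp, fun x _ => Subsingleton.elim _ _⟩⟩
  -- maps supported in the unit ball
  have key : ∃ m : ℕ, ∀ g : EuclideanSpace ℝ (Fin n) ≃ₜ EuclideanSpace ℝ (Fin n),
      LinearDilatationLE K g → (∀ x, 1 ≤ ‖x‖ → g x = x) →
      ∃ l : List (EuclideanSpace ℝ (Fin n) ≃ₜ EuclideanSpace ℝ (Fin n)), l.length = m ∧
        (∀ f ∈ l, f ∈ F) ∧ ∀ x, ‖x‖ ≤ 1 → g x = l.prod x := by
    by_contra hno
    push Not at hno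
    choose g hg hsupp hbad using hno
    obtain ⟨G, hGK, hGs, hG⟩ := exists_condensed hn hK g hg hsupp
    obtain ⟨l, δ, hδ, hlF, hl⟩ := hfin G hGK hGs
    obtain ⟨S, hS, hsmall, hcopy⟩ := hG l.length δ hδ
    obtain ⟨x, hx1, hx2⟩ := hbad l.length (l.map (fun f => S⁻¹ * f * S)) (by simp) (by
        intro f hf
        rw [List.mem_map] at hf
        obtain ⟨f', hf', rfl⟩ := hf
        exact hF _ hS f' (hlF f' hf'))
    apply hx2
    rw [prod_conj, Homeomorph.mul_apply, Homeomorph.mul_apply, Homeomorph.inv_apply,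
      ← hl _ (hsmall x hx1), hcopy x hx1, Homeomorph.symm_apply_apply]
  obtain ⟨m, hm⟩ := key
  refine ⟨m, fun g hg hsupp R => ?_⟩
  obtain ⟨R₀, hR₀⟩ := hsupp
  -- rescale
  obtain ⟨ρ, hρ, hρR, hρR₀⟩ : ∃ ρ : ℝ, 0 < ρ ∧ R ≤ ρ ∧ R₀ ≤ ρ :=
    ⟨max 1 (max R R₀), lt_of_lt_of_le one_pos (le_max_left _ _),
      (le_max_left _ _).trans (le_max_right _ _), (le_max_right _ _).trans (le_max_right _ _)⟩
  obtain ⟨T, hTn, hTd, hTi, hTs⟩ := exists_scaling (n := n) ρ hρ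
  have hconj : LinearDilatationLE K (T⁻¹ * g * T : EuclideanSpace ℝ (Fin n) ≃ₜ _) :=
    hg.comp_sim (inv_pos.2 hρ) hρ hTi hTd
  obtain ⟨l, hl1, hl2, hl3⟩ := hm (T⁻¹ * g * T) hconj (by
      intro x hx
      rw [Homeomorph.mul_apply, Homeomorph.mul_apply, Homeomorph.inv_apply,
        hR₀ (T x) (by rw [hTn]; nlinarith), Homeomorph.symm_apply_apply])
  refine ⟨l.map (fun f => (T⁻¹)⁻¹ * f * T⁻¹), by simpa using hl1, ?_, ?_⟩
  · intro f hf
    rw [List.mem_map] at hf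
    obtain ⟨f', hf', rfl⟩ := hf
    exact hF _ hTs f' (hl2 f' hf')
  · intro x hx
    obtain ⟨y, rfl⟩ := T.surjective x
    have h2 : ‖y‖ ≤ 1 := by
      rw [hTn] at hx
      by_contra hlt
      push Not at hlt
      nlinarith
    have h3 := hl3 y h2
    rw [Homeomorph.mul_apply, Homeomorph.mul_apply, Homeomorph.inv_apply] at h3
    rw [prod_conj, inv_inv, Homeomorph.mul_apply, Homeomorph.mul_apply, Homeomorph.inv_apply,
      Homeomorph.symm_apply_apply, ← h3, Homeomorph.apply_symm_apply]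

/-- **Uniformity is automatic.** -/
theorem uniformity (n : ℕ) (K : ℝ) (hK : 1 ≤ K)
    (F : Set (EuclideanSpace ℝ (Fin n) ≃ₜ EuclideanSpace ℝ (Fin n))) (hF : ConjInvariant F)
    (hfin : ∀ g : EuclideanSpace ℝ (Fin n) ≃ₜ EuclideanSpace ℝ (Fin n),
      LinearDilatationLE K g → (∀ x, 1 ≤ ‖x‖ → g x = x) →
      ∃ (m : ℕ) (δ : ℝ), 0 < δ ∧ FactorsOn F m (ball 0 δ) g) :
    ∃ m : ℕ, ∀ g : EuclideanSpace ℝ (Fin n) ≃ₜ EuclideanSpace ℝ (Fin n),
      LinearDilatationLE K g → (∃ R, ∀ x, R ≤ ‖x‖ → g x = x) →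
      ∀ R : ℝ, FactorsOn F m (closedBall 0 R) g := by
  obtain ⟨m, hm⟩ := uniformity_aux n K hK F hF (by
    intro g hg hs
    obtain ⟨m, δ, hδ, l, -, hl1, hl2⟩ := hfin g hg hs
    exact ⟨l, δ, hδ, hl1, fun x hx => hl2 x (mem_ball_zero_iff.2 hx)⟩)
  refine ⟨m, fun g hg hs R => ?_⟩
  obtain ⟨l, hl0, hl1, hl2⟩ := hm g hg hs R
  exact ⟨l, hl0, hl1, fun x hx => hl2 x (mem_closedBall_zero_iff.1 hx)⟩

end Pool.Agent.Lib.MP_f171f2_an
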